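import Mathlib

set_option autoImplicit false

namespace Pool.Agent.Dicut

open Finset

/-- the function of a pair of vertices summed over arcs -/
noncomputable def pairf (x : ℤ → ℝ) (u v : ℤ) : ℝ := if u < v then x u - x v - x u * x v else 0

lemma interval_identity (x : ℤ → ℝ) (hx : ∀ v, x v * x v = 1) (a b : ℤ) (hab : a ≤ b) :
    ∑ u ∈ Ico a b, ∑ v ∈ Ico a b, pairf x u v
      = ∑ v ∈ Ico a b, ((a : ℝ) + b - 1 - 2 * v) * x v
        - (1 / 2) * (∑ v ∈ Ico a b, x v) ^ 2 + ((b : ℝ) - a) / 2 := by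
  induction b, hab using Int.leInduction with
  | base => simp
  | succ b hb ih =>
    have hins : Ico a (b + 1) = insert b (Ico a b) := by
      ext z; simp only [mem_Ico, mem_insert]; omega
    have hnot : b ∉ Ico a b := by simp
    rw [hins]
    rw [sum_insert hnot, sum_insert hnot, sum_insert hnot, sum_insert hnot]
    have h1 : ∀ u ∈ Ico a b, ∑ v ∈ insert b (Ico a b), pairf x u v
        = (x u - x b - x u * x b) + ∑ v ∈ Ico a b, pairf x u v := by
      intro u hu
      rw [sum_insert hnot]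
      have : u < b := (mem_Ico.mp hu).2
      simp [pairf, this]
    rw [sum_congr rfl h1, sum_add_distrib, ih]
    have h2 : pairf x b b = 0 := by simp [pairf]
    have h3 : ∑ v ∈ Ico a b, pairf x b v = 0 := by
      apply sum_eq_zero
      intro v hv
      have : ¬ b < v := by
        have := (mem_Ico.mp hv).2; omega
      simp [pairf, this]
    rw [h2, h3]
    have h4 : ∑ u ∈ Ico a b, (x u - x b - x u * x b)
        = (∑ u ∈ Ico a b, x u) - ((b : ℝ) - a) * x b - (∑ u ∈ Ico a b, x u) * x b := by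
      rw [sum_sub_distrib, sum_sub_distrib, sum_const, ← sum_mul]
      have : ((Ico a b).card : ℝ) = (b : ℝ) - a := by
        rw [Int.card_Ico]
        have : ((b - a).toNat : ℤ) = b - a := Int.toNat_of_nonneg (by omega)
        exact_mod_cast this
      rw [nsmul_eq_mul, this]
    rw [h4]
    have h5 : ∑ v ∈ Ico a b, ((a : ℝ) + ((b + 1 : ℤ) : ℝ) - 1 - 2 * v) * x v
        = ∑ v ∈ Ico a b, ((a : ℝ) + b - 1 - 2 * v) * x v + ∑ v ∈ Ico a b, x v := by
      rw [← sum_add_distrib]
      apply sum_congr rfl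
      intro v _
      push_cast
      ring
    rw [h5]
    push_cast
    have := hx b
    nlinarith [this]

lemma blocks (x : ℤ → ℝ) (hx : ∀ v, x v * x v = 1) (c c' : ℤ → ℤ) (s : Finset ℤ)
    (hc : ∀ q ∈ s, c q ≤ c' q) (hord : ∀ q ∈ s, ∀ q' ∈ s, q < q' → c' q ≤ c q') :
    ∑ q ∈ s, ∑ q' ∈ s, ∑ u ∈ Ico (c q) (c' q), ∑ v ∈ Ico (c q') (c' q'), pairf x u v
      = ∑ q ∈ s, (∑ u ∈ Ico (c q) (c' q), x u) *
          ((∑ q' ∈ s with q < q', ((c' q' : ℝ) - c q')) - ∑ q' ∈ s with q' < q, ((c' q' : ℝ) - c q'))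
        - (1 / 2) * (∑ q ∈ s, ∑ u ∈ Ico (c q) (c' q), x u) ^ 2
        + ∑ q ∈ s, (∑ v ∈ Ico (c q) (c' q), ((c q : ℝ) + c' q - 1 - 2 * v) * x v
            + ((c' q : ℝ) - c q) / 2) := by
  induction s using Finset.induction_on_max with
  | empty => simp
  | insert a s hlt ih =>
    have hna : a ∉ s := fun h => lt_irrefl a (hlt a h)
    have ih' := ih (fun q hq => hc q (mem_insert_of_mem hq))
      (fun q hq q' hq' => hord q (mem_insert_of_mem hq) q' (mem_insert_of_mem hq'))
    have hca : c a ≤ c' a := hc a (mem_insert_self a s)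
    have hcard : ∀ q ∈ insert a s, ((Ico (c q) (c' q)).card : ℝ) = (c' q : ℝ) - c q := by
      intro q hq
      have := hc q hq
      rw [Int.card_Ico]
      have h : ((c' q - c q).toNat : ℤ) = c' q - c q := Int.toNat_of_nonneg (by omega)
      exact_mod_cast h
    -- left side
    rw [sum_insert hna, sum_insert hna]
    have h1 : ∀ q ∈ s, ∑ q' ∈ insert a s, ∑ u ∈ Ico (c q) (c' q), ∑ v ∈ Ico (c q') (c' q'), pairf x u v
        = (∑ u ∈ Ico (c q) (c' q), ∑ v ∈ Ico (c a) (c' a), pairf x u v)
          + ∑ q' ∈ s, ∑ u ∈ Ico (c q) (c' q), ∑ v ∈ Ico (c q') (c' q'), pairf x u v := by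
      intro q hq
      rw [sum_insert hna]
    rw [sum_congr rfl h1, sum_add_distrib, ih']
    have h2 : ∑ q' ∈ s, ∑ u ∈ Ico (c a) (c' a), ∑ v ∈ Ico (c q') (c' q'), pairf x u v = 0 := by
      apply sum_eq_zero; intro q' hq'
      apply sum_eq_zero; intro u hu
      apply sum_eq_zero; intro v hv
      have h := hord q' (mem_insert_of_mem hq') a (mem_insert_self a s) (hlt q' hq')
      have hu' := mem_Ico.mp hu
      have hv' := mem_Ico.mp hv
      have : ¬ u < v := by omega
      simp [pairf, this]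
    have h3 : ∀ q ∈ s, ∑ u ∈ Ico (c q) (c' q), ∑ v ∈ Ico (c a) (c' a), pairf x u v
        = ((c' a : ℝ) - c a) * (∑ u ∈ Ico (c q) (c' q), x u)
          - ((c' q : ℝ) - c q) * (∑ v ∈ Ico (c a) (c' a), x v)
          - (∑ u ∈ Ico (c q) (c' q), x u) * (∑ v ∈ Ico (c a) (c' a), x v) := by
      intro q hq
      have h := hord q (mem_insert_of_mem hq) a (mem_insert_self a s) (hlt q hq)
      have h4 : ∀ u ∈ Ico (c q) (c' q), ∑ v ∈ Ico (c a) (c' a), pairf x u v
          = ((c' a : ℝ) - c a) * x u - (∑ v ∈ Ico (c a) (c' a), x v)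
            - x u * (∑ v ∈ Ico (c a) (c' a), x v) := by
        intro u hu
        have h5 : ∀ v ∈ Ico (c a) (c' a), pairf x u v = x u - x v - x u * x v := by
          intro v hv
          have hu' := mem_Ico.mp hu
          have hv' := mem_Ico.mp hv
          have : u < v := by omega
          simp [pairf, this]
        rw [sum_congr rfl h5, sum_sub_distrib, sum_sub_distrib, sum_const, nsmul_eq_mul,
          hcard a (mem_insert_self a s), ← mul_sum]
      rw [sum_congr rfl h4, sum_sub_distrib, sum_sub_distrib, ← mul_sum, sum_const, nsmul_eq_mul,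
        hcard q (mem_insert_of_mem hq), ← sum_mul]
    rw [h2, sum_congr rfl h3, interval_identity x hx (c a) (c' a) hca]
    -- right side
    rw [sum_insert hna, sum_insert hna, sum_insert hna]
    have h6 : (insert a s).filter (fun q' => a < q') = ∅ := by
      apply filter_false_of_mem
      intro q' hq'
      rcases mem_insert.mp hq' with h | h
      · omega
      · have := hlt q' h; omega
    have h7 : (insert a s).filter (fun q' => q' < a) = s := by
      ext q'
      simp only [mem_filter, mem_insert]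
      constructor
      · rintro ⟨h | h, h'⟩
        · omega
        · exact h
      · intro h
        exact ⟨Or.inr h, hlt q' h⟩
    rw [h6, h7, sum_empty]
    have h8 : ∀ q ∈ s, (∑ u ∈ Ico (c q) (c' q), x u) *
          ((∑ q' ∈ insert a s with q < q', ((c' q' : ℝ) - c q'))
            - ∑ q' ∈ insert a s with q' < q, ((c' q' : ℝ) - c q'))
        = (∑ u ∈ Ico (c q) (c' q), x u) *
          ((∑ q' ∈ s with q < q', ((c' q' : ℝ) - c q')) - ∑ q' ∈ s with q' < q, ((c' q' : ℝ) - c q'))
          + ((c' a : ℝ) - c a) * (∑ u ∈ Ico (c q) (c' q), x u) := by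
      intro q hq
      have hqa := hlt q hq
      have h9 : (insert a s).filter (fun q' => q < q') = insert a (s.filter (fun q' => q < q')) := by
        rw [filter_insert, if_pos hqa]
      have h10 : (insert a s).filter (fun q' => q' < q) = s.filter (fun q' => q' < q) := by
        rw [filter_insert, if_neg (by omega)]
      rw [h9, h10, sum_insert (by simp [hna])]
      ring
    have h8' := sum_congr rfl h8
    rw [sum_add_distrib] at h8'
    rw [h8']
    have h11 : ∑ q ∈ s, (((c' a : ℝ) - c a) * (∑ u ∈ Ico (c q) (c' q), x u)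
          - ((c' q : ℝ) - c q) * (∑ v ∈ Ico (c a) (c' a), x v)
          - (∑ u ∈ Ico (c q) (c' q), x u) * (∑ v ∈ Ico (c a) (c' a), x v))
        = ∑ q ∈ s, ((c' a : ℝ) - c a) * (∑ u ∈ Ico (c q) (c' q), x u)
          - (∑ q ∈ s, ((c' q : ℝ) - c q)) * (∑ v ∈ Ico (c a) (c' a), x v)
          - (∑ q ∈ s, ∑ u ∈ Ico (c q) (c' q), x u) * (∑ v ∈ Ico (c a) (c' a), x v) := by
      rw [sum_sub_distrib, sum_sub_distrib, sum_mul, sum_mul]
    rw [h11]
    ring

end Pool.Agent.Dicut
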