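import Mathlib

set_option autoImplicit false

namespace Pool.Agent.Dicut

/-- A relation on the vertex set (there is an arc from `u` to `v` iff `r u v`) is acyclic
if no vertex can be reached from itself by a nonempty directed walk. -/
def Acyclic {V : Type} (r : V → V → Prop) : Prop :=
  ∀ v : V, ¬ Relation.TransGen r v v

/-- The number of arcs of a digraph (given by its set `A` of arcs) in the directed cut
`(X, complement of X)`: the arcs with tail in `X` and head outside `X`. -/
def dicutSize {V : Type} [DecidableEq V] (A : Finset (V × V)) (X : Finset V) : ℕ :=
  (A.filter (fun e => e.1 ∈ X ∧ e.2 ∉ X)).card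

/-- `h m`: the largest integer `k` such that every acyclic digraph (finite, no loops, no
parallel arcs) with exactly `m` arcs has a directed cut of size at least `k`. -/
noncomputable def h (m : ℕ) : ℕ :=
  sSup {k : ℕ | ∀ (V : Type) [Fintype V] [DecidableEq V] (A : Finset (V × V)),
    Acyclic (fun u v => (u, v) ∈ A) → A.card = m → ∃ X : Finset V, k ≤ dicutSize A X}

/-- The number of arcs (with multiplicity) or the total weight of the directed cut
`(X, complement of X)`, where `a u v` is the number of parallel arcs, or the weight of the
arc, from `u` to `v`. -/
def dicutWeight {V R : Type} [Fintype V] [DecidableEq V] [AddCommMonoid R]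
    (a : V → V → R) (X : Finset V) : R :=
  ∑ u ∈ X, ∑ v ∈ Xᶜ, a u v

/-- `hMulti m`: the largest integer `k` such that every acyclic directed multigraph (finite,
no loops, `a u v` parallel arcs from `u` to `v`) with exactly `m` arcs, counted with
multiplicity, has a directed cut of size at least `k`. -/
noncomputable def hMulti (m : ℕ) : ℕ :=
  sSup {k : ℕ | ∀ (V : Type) [Fintype V] [DecidableEq V] (a : V → V → ℕ),
    Acyclic (fun u v => a u v ≠ 0) → ∑ u, ∑ v, a u v = m →
      ∃ X : Finset V, k ≤ dicutWeight a X}

/-- `hWeighted w`: the supremum of the reals `g` such that every acyclic weighted digraph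
(finite; `a u v` is the weight of the arc from `u` to `v`, and `a u v = 0` means that there
is no such arc) all of whose arcs have weight at least `1` and whose total weight is `w` has
a directed cut of weight at least `g`. -/
noncomputable def hWeighted (w : ℝ) : ℝ :=
  sSup {g : ℝ | ∀ (V : Type) [Fintype V] [DecidableEq V] (a : V → V → ℝ),
    (∀ u v, a u v = 0 ∨ 1 ≤ a u v) → Acyclic (fun u v => a u v ≠ 0) →
      ∑ u, ∑ v, a u v = w → ∃ X : Finset V, g ≤ dicutWeight a X}

end Pool.Agent.Dicut
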