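import Mathlib
import Pool.Agent.Dicut.Defs

set_option autoImplicit false

namespace Pool.Agent.Dicut

open Finset

/-- four times the weight of a directed cut as a quadratic function of the signs -/
lemma four_dicut {V : Type} [Fintype V] [DecidableEq V] (a : V → V → ℝ) (X : Finset V) :
    4 * dicutWeight a X = (∑ u, ∑ v, a u v)
      + ∑ u, ∑ v, a u v * ((if u ∈ X then (1 : ℝ) else -1) - (if v ∈ X then (1 : ℝ) else -1)
          - (if u ∈ X then (1 : ℝ) else -1) * (if v ∈ X then (1 : ℝ) else -1)) := by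
  unfold dicutWeight
  have h1 : ∑ u ∈ X, ∑ v ∈ Xᶜ, a u v = ∑ u, ∑ v, if u ∈ X ∧ v ∉ X then a u v else 0 := by
    rw [← sum_filter_add_sum_filter_not univ (fun u => u ∈ X)]
    have h2 : ∑ u ∈ univ.filter (fun u => u ∉ X), ∑ v, (if u ∈ X ∧ v ∉ X then a u v else 0) = 0 := by
      apply sum_eq_zero; intro u hu
      apply sum_eq_zero; intro v _
      have := (mem_filter.mp hu).2
      rw [if_neg]; tauto
    rw [h2, add_zero]
    have h3 : univ.filter (fun u => u ∈ X) = X := by ext; simp
    rw [h3]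
    apply sum_congr rfl; intro u hu
    have h4 : Xᶜ = univ.filter (fun v => v ∉ X) := by ext; simp
    rw [h4, sum_filter]
    apply sum_congr rfl; intro v _
    simp [hu]
  rw [h1, mul_sum, ← sum_add_distrib]
  apply sum_congr rfl; intro u _
  rw [mul_sum, ← sum_add_distrib]
  apply sum_congr rfl; intro v _
  by_cases hu : u ∈ X <;> by_cases hv : v ∈ X <;> simp [hu, hv] <;> ring

/-- there is an acyclic multigraph with `m` arcs all of whose dicuts have size at most `m/4+K` -/
def PM (m : ℕ) (K : ℝ) : Prop :=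
  ∃ (V : Type) (_ : Fintype V) (_ : DecidableEq V) (a : V → V → ℕ),
    Acyclic (fun u v => a u v ≠ 0) ∧ ∑ u, ∑ v, a u v = m ∧
      ∀ X : Finset V, ((dicutWeight a X : ℕ) : ℝ) ≤ m / 4 + K

/-- there is an acyclic digraph with `m` arcs all of whose dicuts have size at most `m/4+K` -/
def PS (m : ℕ) (K : ℝ) : Prop :=
  ∃ (V : Type) (_ : Fintype V) (_ : DecidableEq V) (A : Finset (V × V)),
    Acyclic (fun u v => (u, v) ∈ A) ∧ A.card = m ∧
      ∀ X : Finset V, (dicutSize A X : ℝ) ≤ m / 4 + K

lemma PM_hMulti {m : ℕ} {K : ℝ} (h : PM m K) : (hMulti m : ℝ) ≤ m / 4 + K := by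
  obtain ⟨V, _, _, a, hac, htot, hX⟩ := h
  unfold hMulti
  set S := {k : ℕ | ∀ (V : Type) [Fintype V] [DecidableEq V] (a : V → V → ℕ),
    Acyclic (fun u v => a u v ≠ 0) → ∑ u, ∑ v, a u v = m →
      ∃ X : Finset V, k ≤ dicutWeight a X} with hS
  have hne : S.Nonempty := ⟨0, fun V _ _ a _ _ => ⟨∅, Nat.zero_le _⟩⟩
  have hbdd : BddAbove S := by
    refine ⟨⌊(m : ℝ) / 4 + K⌋₊, ?_⟩
    intro k hk
    obtain ⟨X, hk'⟩ := hk V a hac htot
    apply Nat.le_floor
    refine le_trans ?_ (hX X)
    exact_mod_cast hk'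
  have hmem : sSup S ∈ S := Nat.sSup_mem hne hbdd
  obtain ⟨X, hk'⟩ := hmem V a hac htot
  refine le_trans ?_ (hX X)
  exact_mod_cast hk'

lemma PS_h {m : ℕ} {K : ℝ} (h : PS m K) : (Dicut.h m : ℝ) ≤ m / 4 + K := by
  obtain ⟨V, _, _, A, hac, htot, hX⟩ := h
  unfold Dicut.h
  set S := {k : ℕ | ∀ (V : Type) [Fintype V] [DecidableEq V] (A : Finset (V × V)),
    Acyclic (fun u v => (u, v) ∈ A) → A.card = m → ∃ X : Finset V, k ≤ dicutSize A X} with hS
  have hne : S.Nonempty := ⟨0, fun V _ _ a _ _ => ⟨∅, Nat.zero_le _⟩⟩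
  have hbdd : BddAbove S := by
    refine ⟨⌊(m : ℝ) / 4 + K⌋₊, ?_⟩
    intro k hk
    obtain ⟨X, hk'⟩ := hk V A hac htot
    apply Nat.le_floor
    refine le_trans ?_ (hX X)
    exact_mod_cast hk'
  have hmem : sSup S ∈ S := Nat.sSup_mem hne hbdd
  obtain ⟨X, hk'⟩ := hmem V A hac htot
  refine le_trans ?_ (hX X)
  exact_mod_cast hk'

lemma PM_mono {m : ℕ} {K K' : ℝ} (h : PM m K) (hK : K ≤ K') : PM m K' := by
  obtain ⟨V, i1, i2, a, hac, htot, hX⟩ := h
  exact ⟨V, i1, i2, a, hac, htot, fun X => le_trans (hX X) (by linarith)⟩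

lemma PS_mono {m : ℕ} {K K' : ℝ} (h : PS m K) (hK : K ≤ K') : PS m K' := by
  obtain ⟨V, i1, i2, a, hac, htot, hX⟩ := h
  exact ⟨V, i1, i2, a, hac, htot, fun X => le_trans (hX X) (by linarith)⟩

/-- acyclicity from a strictly increasing labelling -/
lemma acyclic_of_lt {V : Type} (r : V → V → Prop) (f : V → ℤ) (hf : ∀ u v, r u v → f u < f v) :
    Acyclic r := by
  intro v hv
  have : ∀ w, Relation.TransGen r v w → f v < f w := by
    intro w hw
    induction hw with
    | single h => exact hf _ _ h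
    | tail _ h ih => exact lt_trans ih (hf _ _ h)
  exact lt_irrefl _ (this v hv)

lemma transGen_sum {V W : Type} (r : V → V → Prop) (s : W → W → Prop) :
    ∀ u v : V ⊕ W, Relation.TransGen (Sum.LiftRel r s) u v → Sum.LiftRel (Relation.TransGen r) (Relation.TransGen s) u v := by
  intro u v h
  induction h with
  | single h =>
    cases h with
    | inl h => exact Sum.LiftRel.inl (Relation.TransGen.single h)
    | inr h => exact Sum.LiftRel.inr (Relation.TransGen.single h)
  | tail _ h ih =>
    cases ih with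
    | inl h' =>
      cases h with
      | inl h => exact Sum.LiftRel.inl (Relation.TransGen.tail h' h)
    | inr h' =>
      cases h with
      | inr h => exact Sum.LiftRel.inr (Relation.TransGen.tail h' h)

lemma acyclic_sum {V W : Type} (r : V → V → Prop) (s : W → W → Prop) (hr : Acyclic r) (hs : Acyclic s) :
    Acyclic (Sum.LiftRel r s) := by
  intro v hv
  have := transGen_sum r s v v hv
  cases this with
  | inl h => exact hr _ h
  | inr h => exact hs _ h

lemma acyclic_mono {V : Type} (r s : V → V → Prop) (h : ∀ u v, r u v → s u v) (hs : Acyclic s) :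
    Acyclic r := by
  intro v hv
  exact hs v (Relation.TransGen.mono (fun a b hab => h a b hab) _ _ hv)

/-- disjoint union of two weight functions -/
def sumW {V W : Type} (a : V → V → ℕ) (b : W → W → ℕ) : V ⊕ W → V ⊕ W → ℕ
  | Sum.inl u, Sum.inl v => a u v
  | Sum.inr u, Sum.inr v => b u v
  | _, _ => 0

lemma PM_add {m₁ m₂ : ℕ} {K₁ K₂ : ℝ} (h₁ : PM m₁ K₁) (h₂ : PM m₂ K₂) : PM (m₁ + m₂) (K₁ + K₂) := by
  obtain ⟨V, _, _, a, hac, htot, hX⟩ := h₁
  obtain ⟨W, _, _, b, hbc, hbtot, hY⟩ := h₂
  refine ⟨V ⊕ W, inferInstance, inferInstance, sumW a b, ?_, ?_, ?_⟩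
  · apply acyclic_mono _ (Sum.LiftRel (fun u v => a u v ≠ 0) (fun u v => b u v ≠ 0)) _ (acyclic_sum _ _ hac hbc)
    intro u v h
    rcases u with u | u <;> rcases v with v | v <;> simp [sumW] at h ⊢ <;> exact h
  · simp [Fintype.sum_sum_type, sumW, htot, hbtot]
  · intro Z
    have hXZ := hX (univ.filter (fun u => Sum.inl u ∈ Z))
    have hYZ := hY (univ.filter (fun u => Sum.inr u ∈ Z))
    have key : dicutWeight (sumW a b) Z = dicutWeight a (univ.filter (fun u => Sum.inl u ∈ Z))
        + dicutWeight b (univ.filter (fun u => Sum.inr u ∈ Z)) := by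
      unfold dicutWeight
      have h1 : ∑ u ∈ Z, ∑ v ∈ Zᶜ, sumW a b u v
          = ∑ u, ∑ v, if u ∈ Z ∧ v ∉ Z then sumW a b u v else 0 := by
        rw [← sum_filter_add_sum_filter_not univ (fun u => u ∈ Z)]
        have h2 : ∑ u ∈ univ.filter (fun u => u ∉ Z), ∑ v, (if u ∈ Z ∧ v ∉ Z then sumW a b u v else 0) = 0 := by
          apply sum_eq_zero; intro u hu
          apply sum_eq_zero; intro v _
          have := (mem_filter.mp hu).2
          rw [if_neg]; tauto
        rw [h2, add_zero]
        have h3 : univ.filter (fun u => u ∈ Z) = Z := by ext; simp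
        rw [h3]
        apply sum_congr rfl; intro u hu
        have h4 : Zᶜ = univ.filter (fun v => v ∉ Z) := by ext; simp
        rw [h4, sum_filter]
        apply sum_congr rfl; intro v _
        simp [hu]
      rw [h1, Fintype.sum_sum_type]
      simp only [Fintype.sum_sum_type, sumW, ite_self, sum_const_zero, add_zero, zero_add]
      congr 1
      · rw [sum_filter]
        apply sum_congr rfl; intro u _
        by_cases hu : Sum.inl u ∈ Z
        · simp only [hu, true_and, if_true]
          rw [compl_filter, sum_filter]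
        · simp [hu]
      · rw [sum_filter]
        apply sum_congr rfl; intro u _
        by_cases hu : Sum.inr u ∈ Z
        · simp only [hu, true_and, if_true]
          rw [compl_filter, sum_filter]
        · simp [hu]
    rw [key]
    push_cast
    linarith

lemma PM_trivial (m : ℕ) : PM m m := by
  refine ⟨Bool, inferInstance, inferInstance, fun u v => if u = false ∧ v = true then m else 0, ?_, ?_, ?_⟩
  · apply acyclic_of_lt _ (fun b => if b then 1 else 0)
    intro u v h
    cases u <;> cases v <;> simp at h ⊢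
  · simp
  · intro X
    have h1 : dicutWeight (fun u v : Bool => if u = false ∧ v = true then m else 0) X ≤ m := by
      unfold dicutWeight
      calc ∑ u ∈ X, ∑ v ∈ Xᶜ, (if u = false ∧ v = true then m else 0)
          ≤ ∑ u, ∑ v ∈ Xᶜ, (if u = false ∧ v = true then m else 0) :=
            sum_le_sum_of_subset_of_nonneg (subset_univ _) (fun _ _ _ => Nat.zero_le _)
        _ ≤ ∑ u : Bool, ∑ v : Bool, (if u = false ∧ v = true then m else 0) := by
            apply sum_le_sum; intro u _
            exact sum_le_sum_of_subset_of_nonneg (subset_univ _) (fun _ _ _ => Nat.zero_le _)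
        _ = m := by simp
    have h2 : ((dicutWeight (fun u v : Bool => if u = false ∧ v = true then m else 0) X : ℕ) : ℝ) ≤ m := by
      exact_mod_cast h1
    have h3 : (0 : ℝ) ≤ m := Nat.cast_nonneg m
    linarith

end Pool.Agent.Dicut
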