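import Mathlib
import Pool.Agent.Dicut.Core

set_option autoImplicit false

namespace Pool.Agent.Dicut

open Finset

/-- a step of a path, halved -/
noncomputable def stp (Y : ℕ → ℤ → ℝ) (i : ℕ) (Q : ℤ) : ℝ := (Y i Q - Y (i + 1) Q) / 2

/-- `Path B P R n S V`: there is a path with `n` steps from `P` to `R` in the coordinates `B`,
all coordinates of all half-steps being `0` or at least `1`, with total squared length of the
half-steps at most `S` and total variation of the squared norm at most `V` -/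
def Path (B : Finset ℤ) (P R : ℤ → ℝ) (n : ℕ) (S V : ℝ) : Prop :=
  ∃ Y : ℕ → ℤ → ℝ, Y 0 = P ∧ Y n = R ∧
    (∀ i < n, ∀ Q ∈ B, stp Y i Q = 0 ∨ 1 ≤ stp Y i Q) ∧
    ∑ i ∈ range n, ∑ Q ∈ B, (stp Y i Q) ^ 2 ≤ S ∧
    ∑ i ∈ range n, |∑ Q ∈ B, ((Y i Q) ^ 2 - (Y (i + 1) Q) ^ 2)| ≤ V

lemma Path_trans {B : Finset ℤ} {P R U : ℤ → ℝ} {n n' : ℕ} {S S' V V' : ℝ}
    (h : Path B P R n S V) (h' : Path B R U n' S' V') : Path B P U (n + n') (S + S') (V + V') := by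
  obtain ⟨Y, h0, hn, h1, h2, h3⟩ := h
  obtain ⟨Y', h0', hn', h1', h2', h3'⟩ := h'
  set Z : ℕ → ℤ → ℝ := fun i => if i ≤ n then Y i else Y' (i - n) with hZ
  have e1 : ∀ i ≤ n, Z i = Y i := by
    intro i hi; simp only [hZ]; rw [if_pos hi]
  have e2 : ∀ i, Z (n + i) = Y' i := by
    intro i
    simp only [hZ]
    split_ifs with hi
    · have : i = 0 := by omega
      subst this
      rw [add_zero, hn, h0']
    · congr 1; omega
  have s1 : ∀ i < n, ∀ Q, stp Z i Q = stp Y i Q := by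
    intro i hi Q
    unfold stp
    rw [e1 i hi.le, e1 (i + 1) hi]
  have s2 : ∀ i, ∀ Q, stp Z (n + i) Q = stp Y' i Q := by
    intro i Q
    unfold stp
    rw [e2 i, add_assoc, e2 (i + 1)]
  refine ⟨Z, ?_, ?_, ?_, ?_, ?_⟩
  · rw [e1 0 (Nat.zero_le _), h0]
  · rw [e2 n', hn']
  · intro i hi Q hQ
    rcases lt_or_ge i n with hlt | hge
    · rw [s1 i hlt Q]; exact h1 i hlt Q hQ
    · obtain ⟨j, rfl⟩ := Nat.exists_eq_add_of_le hge
      rw [s2 j Q]; exact h1' j (by omega) Q hQ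
  · rw [sum_range_add]
    have a1 : ∑ i ∈ range n, ∑ Q ∈ B, (stp Z i Q) ^ 2 = ∑ i ∈ range n, ∑ Q ∈ B, (stp Y i Q) ^ 2 := by
      apply sum_congr rfl; intro i hi
      apply sum_congr rfl; intro Q _
      rw [s1 i (mem_range.mp hi) Q]
    have a2 : ∑ i ∈ range n', ∑ Q ∈ B, (stp Z (n + i) Q) ^ 2
        = ∑ i ∈ range n', ∑ Q ∈ B, (stp Y' i Q) ^ 2 := by
      apply sum_congr rfl; intro i _
      apply sum_congr rfl; intro Q _
      rw [s2 i Q]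
    rw [a1, a2]
    linarith
  · rw [sum_range_add]
    have a1 : ∑ i ∈ range n, |∑ Q ∈ B, ((Z i Q) ^ 2 - (Z (i + 1) Q) ^ 2)|
        = ∑ i ∈ range n, |∑ Q ∈ B, ((Y i Q) ^ 2 - (Y (i + 1) Q) ^ 2)| := by
      apply sum_congr rfl; intro i hi
      rw [e1 i (mem_range.mp hi).le, e1 (i + 1) (mem_range.mp hi)]
    have a2 : ∑ i ∈ range n', |∑ Q ∈ B, ((Z (n + i) Q) ^ 2 - (Z (n + i + 1) Q) ^ 2)|
        = ∑ i ∈ range n', |∑ Q ∈ B, ((Y' i Q) ^ 2 - (Y' (i + 1) Q) ^ 2)| := by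
      apply sum_congr rfl; intro i _
      rw [e2 i, add_assoc, e2 (i + 1)]
    rw [a1, a2]
    linarith

lemma gram_scalar (y : ℕ → ℝ) (x : ℕ → ℝ) (hx : ∀ i, x i * x i = 1) (n : ℕ) :
    ∑ j ∈ range n, ∑ i ∈ range j, ((y i - y (i + 1)) / 2) * ((y j - y (j + 1)) / 2) * (x i - x j - x i * x j)
      = (1 / 4) * ∑ i ∈ range n, x i * ((y i) ^ 2 - (y (i + 1)) ^ 2)
        - ((y 0 + y n) / 2) * (∑ i ∈ range n, ((y i - y (i + 1)) / 2) * x i)
        - (1 / 2) * (∑ i ∈ range n, ((y i - y (i + 1)) / 2) * x i) ^ 2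
        + (1 / 2) * ∑ i ∈ range n, ((y i - y (i + 1)) / 2) ^ 2 := by
  induction n with
  | zero => simp
  | succ n ih =>
    rw [sum_range_succ, ih, sum_range_succ, sum_range_succ _ n, sum_range_succ _ n]
    have htel : ∑ i ∈ range n, ((y i - y (i + 1)) / 2) = (y 0 - y n) / 2 := by
      rw [← sum_div, sum_range_sub']
    have h1 : ∑ i ∈ range n, ((y i - y (i + 1)) / 2) * ((y n - y (n + 1)) / 2) * (x i - x n - x i * x n)
        = ((y n - y (n + 1)) / 2) * ((∑ i ∈ range n, ((y i - y (i + 1)) / 2) * x i)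
          - x n * ((y 0 - y n) / 2) - x n * ∑ i ∈ range n, ((y i - y (i + 1)) / 2) * x i) := by
      rw [← htel, mul_sum, mul_sum, ← sum_sub_distrib, ← sum_sub_distrib, mul_sum]
      apply sum_congr rfl; intro i _; ring
    rw [h1]
    set s := ∑ i ∈ range n, ((y i - y (i + 1)) / 2) * x i with hs
    have hxx := hx n
    have h2 : (s + (y n - y (n + 1)) / 2 * x n) ^ 2
        = s ^ 2 + 2 * s * ((y n - y (n + 1)) / 2 * x n) + ((y n - y (n + 1)) / 2) ^ 2 * (x n * x n) := by ring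
    rw [h2, hxx]
    have h3 : (y 0 + y (n + 1)) / 2 * (s + (y n - y (n + 1)) / 2 * x n)
        = (y 0 + y (n + 1)) / 2 * s + (y 0 + y (n + 1)) / 2 * ((y n - y (n + 1)) / 2) * x n := by ring
    rw [h3]
    ring

lemma gram_total (y : ℕ → ℝ) (n : ℕ) :
    ∑ j ∈ range n, ∑ i ∈ range j, ((y i - y (i + 1)) / 2) * ((y j - y (j + 1)) / 2)
      = (1 / 8) * (y 0 - y n) ^ 2 - (1 / 2) * ∑ i ∈ range n, ((y i - y (i + 1)) / 2) ^ 2 := by
  induction n with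
  | zero => simp
  | succ n ih =>
    rw [sum_range_succ, ih, sum_range_succ]
    have htel : ∑ i ∈ range n, ((y i - y (i + 1)) / 2) = (y 0 - y n) / 2 := by
      rw [← sum_div, sum_range_sub']
    rw [← sum_mul, htel]
    ring

/-- weights of the digraph of a path -/
noncomputable def gw (B : Finset ℤ) (Y : ℕ → ℤ → ℝ) (i j : ℕ) : ℝ :=
  if i < j then ∑ Q ∈ B, stp Y i Q * stp Y j Q else 0

lemma sum_pairs (n : ℕ) (f : ℕ → ℕ → ℝ) :
    ∑ u : Fin n, ∑ v : Fin n, (if (u : ℕ) < v then f u v else 0) = ∑ j ∈ range n, ∑ i ∈ range j, f i j := by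
  rw [sum_comm]
  rw [Fin.sum_univ_eq_sum_range (fun v => ∑ u : Fin n, (if (u : ℕ) < v then f u v else 0)) n]
  apply sum_congr rfl; intro j hj
  rw [Fin.sum_univ_eq_sum_range (fun u => (if u < j then f u j else 0)) n]
  rw [← sum_filter]
  apply sum_congr _ (fun _ _ => rfl)
  ext i
  simp only [mem_filter, mem_range]
  have := mem_range.mp hj
  omega

lemma gw_total (B : Finset ℤ) (Y : ℕ → ℤ → ℝ) (n : ℕ) :
    ∑ u : Fin n, ∑ v : Fin n, gw B Y u v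
      = (1 / 8) * ∑ Q ∈ B, (Y 0 Q - Y n Q) ^ 2 - (1 / 2) * ∑ i ∈ range n, ∑ Q ∈ B, (stp Y i Q) ^ 2 := by
  unfold gw
  rw [sum_pairs n (fun i j => ∑ Q ∈ B, stp Y i Q * stp Y j Q)]
  have h1 : ∑ j ∈ range n, ∑ i ∈ range j, ∑ Q ∈ B, stp Y i Q * stp Y j Q
      = ∑ Q ∈ B, ∑ j ∈ range n, ∑ i ∈ range j, stp Y i Q * stp Y j Q := by
    rw [sum_comm (s := B)]
    apply sum_congr rfl; intro j _
    rw [sum_comm]
  rw [h1, sum_comm (s := range n) (t := B), mul_sum, mul_sum, ← sum_sub_distrib]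
  apply sum_congr rfl; intro Q _
  exact gram_total (fun i => Y i Q) n

lemma gw_bound (B : Finset ℤ) (Y : ℕ → ℤ → ℝ) (n : ℕ) (x : ℕ → ℝ) (hx : ∀ i, x i * x i = 1) :
    ∑ u : Fin n, ∑ v : Fin n, gw B Y u v * (x u - x v - x u * x v)
      ≤ (1 / 4) * ∑ i ∈ range n, |∑ Q ∈ B, ((Y i Q) ^ 2 - (Y (i + 1) Q) ^ 2)|
        + (1 / 2) * ∑ Q ∈ B, ((Y 0 Q + Y n Q) / 2) ^ 2
        + (1 / 2) * ∑ i ∈ range n, ∑ Q ∈ B, (stp Y i Q) ^ 2 := by
  have h0 : ∑ u : Fin n, ∑ v : Fin n, gw B Y u v * (x u - x v - x u * x v)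
      = ∑ j ∈ range n, ∑ i ∈ range j, ∑ Q ∈ B, stp Y i Q * stp Y j Q * (x i - x j - x i * x j) := by
    rw [← sum_pairs n (fun i j => ∑ Q ∈ B, stp Y i Q * stp Y j Q * (x i - x j - x i * x j))]
    apply sum_congr rfl; intro u _
    apply sum_congr rfl; intro v _
    unfold gw
    split_ifs
    · rw [sum_mul]
    · ring
  rw [h0]
  have h1 : ∑ j ∈ range n, ∑ i ∈ range j, ∑ Q ∈ B, stp Y i Q * stp Y j Q * (x i - x j - x i * x j)
      = ∑ Q ∈ B, ∑ j ∈ range n, ∑ i ∈ range j, stp Y i Q * stp Y j Q * (x i - x j - x i * x j) := by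
    rw [sum_comm (s := B)]
    apply sum_congr rfl; intro j _
    rw [sum_comm]
  rw [h1]
  have h2 : ∀ Q ∈ B, ∑ j ∈ range n, ∑ i ∈ range j, stp Y i Q * stp Y j Q * (x i - x j - x i * x j)
      ≤ (1 / 4) * ∑ i ∈ range n, x i * ((Y i Q) ^ 2 - (Y (i + 1) Q) ^ 2)
        + (1 / 2) * ((Y 0 Q + Y n Q) / 2) ^ 2 + (1 / 2) * ∑ i ∈ range n, (stp Y i Q) ^ 2 := by
    intro Q _
    have := gram_scalar (fun i => Y i Q) x hx n
    unfold stp
    rw [this]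
    nlinarith [sq_nonneg ((Y 0 Q + Y n Q) / 2 + ∑ i ∈ range n, ((Y i Q - Y (i + 1) Q) / 2) * x i)]
  refine le_trans (sum_le_sum h2) ?_
  rw [sum_add_distrib, sum_add_distrib, ← mul_sum, ← mul_sum, ← mul_sum]
  have h3 : ∑ Q ∈ B, ∑ i ∈ range n, x i * ((Y i Q) ^ 2 - (Y (i + 1) Q) ^ 2)
      ≤ ∑ i ∈ range n, |∑ Q ∈ B, ((Y i Q) ^ 2 - (Y (i + 1) Q) ^ 2)| := by
    rw [sum_comm]
    apply sum_le_sum; intro i _
    rw [← mul_sum]
    have h4 : |x i| = 1 := by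
      have := hx i
      have h5 : |x i| * |x i| = 1 := by rw [← abs_mul, this, abs_one]
      nlinarith [abs_nonneg (x i)]
    calc x i * ∑ Q ∈ B, ((Y i Q) ^ 2 - (Y (i + 1) Q) ^ 2)
        ≤ |x i * ∑ Q ∈ B, ((Y i Q) ^ 2 - (Y (i + 1) Q) ^ 2)| := le_abs_self _
      _ = _ := by rw [abs_mul, h4, one_mul]
  have h5 : ∑ Q ∈ B, ∑ i ∈ range n, (stp Y i Q) ^ 2 = ∑ i ∈ range n, ∑ Q ∈ B, (stp Y i Q) ^ 2 := sum_comm
  linarith

end Pool.Agent.Dicut
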