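import Mathlib
import Pool.Agent.Dicut.Gram

set_option autoImplicit false

namespace Pool.Agent.Dicut

open Finset

/-- squared coordinate along a cell -/
noncomputable def gq (a b s t : ℝ) : ℝ := a ^ 2 + (b ^ 2 - a ^ 2) * t + 2 * s ^ 2 * (t * (1 - t))

lemma gq_facts (a b s t : ℝ) (hs : 0 < s) (ha : |a - 3 * s| ≤ s / 5) (hb : |b - s| ≤ s / 5)
    (ht0 : 0 ≤ t) (ht1 : t ≤ 1) : (4 / 5 * s) ^ 2 ≤ gq a b s t ∧ gq a b s t ≤ (16 / 5 * s) ^ 2 := by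
  rw [abs_le] at ha hb
  unfold gq
  have ha1 : 14 / 5 * s ≤ a := by linarith
  have ha2 : a ≤ 16 / 5 * s := by linarith
  have hb1 : 4 / 5 * s ≤ b := by linarith
  have hb2 : b ≤ 6 / 5 * s := by linarith
  have ha2' : a ^ 2 ≤ (16 / 5 * s) ^ 2 := pow_le_pow_left₀ (by linarith) ha2 2
  have ha1' : (14 / 5 * s) ^ 2 ≤ a ^ 2 := pow_le_pow_left₀ (by positivity) ha1 2
  have hb1' : (4 / 5 * s) ^ 2 ≤ b ^ 2 := pow_le_pow_left₀ (by positivity) hb1 2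
  have hb2' : b ^ 2 ≤ (6 / 5 * s) ^ 2 := pow_le_pow_left₀ (by linarith) hb2 2
  have htt : 0 ≤ t * (1 - t) := mul_nonneg ht0 (by linarith)
  have hs2 : 0 < s ^ 2 := by positivity
  have hd : 32 / 5 * s ^ 2 ≤ a ^ 2 - b ^ 2 := by nlinarith
  constructor
  · nlinarith [mul_nonneg (sub_nonneg.mpr ht1) (show 0 ≤ a ^ 2 - b ^ 2 by nlinarith), mul_nonneg hs2.le htt]
  · have h1 : 2 * s ^ 2 * (t * (1 - t)) ≤ (a ^ 2 - b ^ 2) * t := by
      have h3 : t * (1 - t) ≤ t := by nlinarith [sq_nonneg t]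
      have h2 : 2 * s ^ 2 * (t * (1 - t)) ≤ 2 * s ^ 2 * t := mul_le_mul_of_nonneg_left h3 (by positivity)
      have h4 : 32 / 5 * s ^ 2 * t ≤ (a ^ 2 - b ^ 2) * t := mul_le_mul_of_nonneg_right hd ht0
      have h5 : 2 * s ^ 2 * t ≤ 32 / 5 * s ^ 2 * t := by
        have : 0 ≤ s ^ 2 * t := by positivity
        linarith
      linarith
    linarith

lemma gq_step (a b s t δ : ℝ) (hs : 0 < s) (ha : |a - 3 * s| ≤ s / 5) (hb : |b - s| ≤ s / 5)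
    (hδ : 0 < δ) (hδ4 : 4 ≤ s * δ) (hδ5 : s * δ ≤ 5) (ht0 : 0 ≤ t) (ht1 : t + δ ≤ 1) :
    2 ≤ Real.sqrt (gq a b s t) - Real.sqrt (gq a b s (t + δ)) ∧
      Real.sqrt (gq a b s t) - Real.sqrt (gq a b s (t + δ)) ≤ 40 := by
  obtain ⟨f1, f2⟩ := gq_facts a b s t hs ha hb ht0 (by linarith)
  obtain ⟨f3, f4⟩ := gq_facts a b s (t + δ) hs ha hb (by linarith) ht1
  have hp0 : 0 ≤ gq a b s t := le_trans (by positivity) f1
  have hr0 : 0 ≤ gq a b s (t + δ) := le_trans (by positivity) f3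
  have p1 : 4 / 5 * s ≤ Real.sqrt (gq a b s t) := Real.le_sqrt_of_sq_le f1
  have p2 : Real.sqrt (gq a b s t) ≤ 16 / 5 * s := by
    rw [Real.sqrt_le_left (by positivity)]; exact f2
  have r1 : 4 / 5 * s ≤ Real.sqrt (gq a b s (t + δ)) := Real.le_sqrt_of_sq_le f3
  have r2 : Real.sqrt (gq a b s (t + δ)) ≤ 16 / 5 * s := by
    rw [Real.sqrt_le_left (by positivity)]; exact f4
  have hD : gq a b s t - gq a b s (t + δ) = δ * ((a ^ 2 - b ^ 2) - 2 * s ^ 2 * (1 - 2 * t - δ)) := by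
    unfold gq; ring
  set p := Real.sqrt (gq a b s t) with hp
  set r := Real.sqrt (gq a b s (t + δ)) with hr
  have hpp : p ^ 2 = gq a b s t := Real.sq_sqrt hp0
  have hrr : r ^ 2 = gq a b s (t + δ) := Real.sq_sqrt hr0
  rw [abs_le] at ha hb
  have ha1 : 14 / 5 * s ≤ a := by linarith
  have ha2 : a ≤ 16 / 5 * s := by linarith
  have hb1 : 4 / 5 * s ≤ b := by linarith
  have hb2 : b ≤ 6 / 5 * s := by linarith
  have ha2' : a ^ 2 ≤ (16 / 5 * s) ^ 2 := pow_le_pow_left₀ (by linarith) ha2 2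
  have ha1' : (14 / 5 * s) ^ 2 ≤ a ^ 2 := pow_le_pow_left₀ (by positivity) ha1 2
  have hb1' : (4 / 5 * s) ^ 2 ≤ b ^ 2 := pow_le_pow_left₀ (by positivity) hb1 2
  have hb2' : b ^ 2 ≤ (6 / 5 * s) ^ 2 := pow_le_pow_left₀ (by linarith) hb2 2
  have hs2 : 0 < s ^ 2 := by positivity
  have x1 : (16 / 5 * s) ^ 2 = 256 / 25 * s ^ 2 := by ring
  have x2 : (14 / 5 * s) ^ 2 = 196 / 25 * s ^ 2 := by ring
  have x3 : (4 / 5 * s) ^ 2 = 16 / 25 * s ^ 2 := by ring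
  have x4 : (6 / 5 * s) ^ 2 = 36 / 25 * s ^ 2 := by ring
  rw [x1] at ha2'
  rw [x2] at ha1'
  rw [x3] at hb1'
  rw [x4] at hb2'
  have k1 : s ^ 2 * (1 - 2 * t - δ) ≤ s ^ 2 * 1 := mul_le_mul_of_nonneg_left (by linarith) hs2.le
  have k2 : s ^ 2 * (-1) ≤ s ^ 2 * (1 - 2 * t - δ) := mul_le_mul_of_nonneg_left (by linarith) hs2.le
  have k3 : 2 * s ^ 2 * (1 - 2 * t - δ) = 2 * (s ^ 2 * (1 - 2 * t - δ)) := by ring
  have hlo : 22 / 5 * s ^ 2 ≤ (a ^ 2 - b ^ 2) - 2 * s ^ 2 * (1 - 2 * t - δ) := by rw [k3]; linarith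
  have hhi : (a ^ 2 - b ^ 2) - 2 * s ^ 2 * (1 - 2 * t - δ) ≤ 58 / 5 * s ^ 2 := by rw [k3]; linarith
  have e1 : δ * (22 / 5 * s ^ 2) ≤ p ^ 2 - r ^ 2 := by
    rw [hpp, hrr, hD]; exact mul_le_mul_of_nonneg_left hlo hδ.le
  have e2 : p ^ 2 - r ^ 2 ≤ δ * (58 / 5 * s ^ 2) := by
    rw [hpp, hrr, hD]; exact mul_le_mul_of_nonneg_left hhi hδ.le
  have y1 : δ * (22 / 5 * s ^ 2) = (s * δ) * (22 / 5 * s) := by ring
  have y2 : δ * (58 / 5 * s ^ 2) = (s * δ) * (58 / 5 * s) := by ring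
  have y3 : 4 * (22 / 5 * s) ≤ (s * δ) * (22 / 5 * s) := mul_le_mul_of_nonneg_right hδ4 (by positivity)
  have y4 : (s * δ) * (58 / 5 * s) ≤ 5 * (58 / 5 * s) := mul_le_mul_of_nonneg_right hδ5 (by positivity)
  have e3 : 88 / 5 * s ≤ p ^ 2 - r ^ 2 := by linarith
  have e4 : p ^ 2 - r ^ 2 ≤ 58 * s := by linarith
  have e5 : p ^ 2 - r ^ 2 = (p - r) * (p + r) := by ring
  have hpr : 0 ≤ p + r := by linarith
  constructor
  · by_contra h
    push Not at h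
    have z1 : (p - r) * (p + r) ≤ 2 * (p + r) := mul_le_mul_of_nonneg_right h.le hpr
    linarith
  · by_contra h
    push Not at h
    have z1 : 40 * (p + r) ≤ (p - r) * (p + r) := mul_le_mul_of_nonneg_right h.le hpr
    linarith

lemma sum_three (B : Finset ℤ) (q : ℤ) (hB : ∀ k ∈ Ico (q + 1) (q + 4), k ∈ B) (f : ℤ → ℝ)
    (hf : ∀ Q ∈ B, Q ≠ q + 1 → Q ≠ q + 2 → Q ≠ q + 3 → f Q = 0) :
    ∑ Q ∈ B, f Q = f (q + 1) + f (q + 2) + f (q + 3) := by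
  have h1 : ∑ Q ∈ B, f Q = ∑ Q ∈ ({q + 1, q + 2, q + 3} : Finset ℤ), f Q := by
    symm
    apply sum_subset
    · intro z hz
      simp only [mem_insert, mem_singleton] at hz
      apply hB
      rw [mem_Ico]; omega
    · intro z hz hz'
      simp only [mem_insert, mem_singleton, not_or] at hz'
      exact hf z hz hz'.1 hz'.2.1 hz'.2.2
  rw [h1, sum_insert, sum_insert, sum_singleton]
  · ring
  · simp
  · simp

/-- the path inside a cell -/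
noncomputable def cellY (q : ℤ) (o0 o1 m0 y0 y1 s : ℝ) (ν : ℕ) (P : ℤ → ℝ) (i : ℕ) (Q : ℤ) : ℝ :=
  if Q = q + 1 then - Real.sqrt (gq o1 o0 s (1 - (i : ℝ) / ν))
  else if Q = q + 2 then m0 - 2 * s * ((i : ℝ) / ν)
  else if Q = q + 3 then Real.sqrt (gq y0 y1 s ((i : ℝ) / ν))
  else P Q

lemma cell_path (B : Finset ℤ) (q : ℤ) (hB : ∀ k ∈ Ico (q + 1) (q + 4), k ∈ B) (P R : ℤ → ℝ)
    (o0 o1 m0 m1 y0 y1 s : ℝ) (ν : ℕ) (hs : 0 < s) (hν4 : 4 * (ν : ℝ) ≤ s) (hν5 : s ≤ 5 * (ν : ℝ))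
    (ho0 : |o0 - s| ≤ s / 5) (ho1 : |o1 - 3 * s| ≤ s / 5) (hm : m0 - m1 = 2 * s)
    (hy0 : |y0 - 3 * s| ≤ s / 5) (hy1 : |y1 - s| ≤ s / 5)
    (hP1 : P (q + 1) = - o0) (hP2 : P (q + 2) = m0) (hP3 : P (q + 3) = y0)
    (hR1 : R (q + 1) = - o1) (hR2 : R (q + 2) = m1) (hR3 : R (q + 3) = y1)
    (hPR : ∀ Q, Q ≠ q + 1 → Q ≠ q + 2 → Q ≠ q + 3 → P Q = R Q) :
    Path B P R ν (825 * ν) |o0 ^ 2 + m0 ^ 2 + y0 ^ 2 - (o1 ^ 2 + m1 ^ 2 + y1 ^ 2)| := by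
  have hν0 : (0 : ℝ) < ν := by linarith
  have hν0' : 0 < ν := by exact_mod_cast hν0
  have ho0' := abs_le.mp ho0
  have ho1' := abs_le.mp ho1
  have hy0' := abs_le.mp hy0
  have hy1' := abs_le.mp hy1
  have ne12 : q + 2 ≠ q + 1 := by omega
  have ne13 : q + 3 ≠ q + 1 := by omega
  have ne23 : q + 3 ≠ q + 2 := by omega
  set Y := cellY q o0 o1 m0 y0 y1 s ν P with hY
  have v1 : ∀ i, Y i (q + 1) = - Real.sqrt (gq o1 o0 s (1 - (i : ℝ) / ν)) := by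
    intro i; rw [hY]; unfold cellY; rw [if_pos rfl]
  have v2 : ∀ i, Y i (q + 2) = m0 - 2 * s * ((i : ℝ) / ν) := by
    intro i; rw [hY]; unfold cellY; rw [if_neg ne12, if_pos rfl]
  have v3 : ∀ i, Y i (q + 3) = Real.sqrt (gq y0 y1 s ((i : ℝ) / ν)) := by
    intro i; rw [hY]; unfold cellY; rw [if_neg ne13, if_neg ne23, if_pos rfl]
  have v4 : ∀ i Q, Q ≠ q + 1 → Q ≠ q + 2 → Q ≠ q + 3 → Y i Q = P Q := by
    intro i Q h1 h2 h3; rw [hY]; unfold cellY; rw [if_neg h1, if_neg h2, if_neg h3]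
  have hδpos : (0 : ℝ) < 1 / ν := by positivity
  have hδ4 : 4 ≤ s * (1 / ν) := by
    rw [mul_one_div, le_div_iff₀ hν0]; exact hν4
  have hδ5 : s * (1 / ν) ≤ 5 := by
    rw [mul_one_div, div_le_iff₀ hν0]; exact hν5
  have tstep : ∀ i : ℕ, ((i + 1 : ℕ) : ℝ) / ν = (i : ℝ) / ν + 1 / ν := by
    intro i; push_cast; ring
  have tnn : ∀ i : ℕ, 0 ≤ (i : ℝ) / ν := fun i => by positivity
  have tle : ∀ i : ℕ, i < ν → (i : ℝ) / ν + 1 / ν ≤ 1 := by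
    intro i hi
    rw [← add_div, div_le_one hν0]
    exact_mod_cast hi
  -- steps
  have st1 : ∀ i < ν, 1 ≤ stp Y i (q + 1) ∧ stp Y i (q + 1) ≤ 20 := by
    intro i hi
    unfold stp
    rw [v1, v1, tstep]
    have h := gq_step o1 o0 s (1 - ((i : ℝ) / ν + 1 / ν)) (1 / ν) hs ho1 ho0 hδpos hδ4 hδ5
      (by linarith [tle i hi]) (by linarith [tnn i])
    have e : 1 - ((i : ℝ) / ν + 1 / ν) + 1 / ν = 1 - (i : ℝ) / ν := by ring
    rw [e] at h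
    constructor <;> linarith [h.1, h.2]
  have st2 : ∀ i, 1 ≤ stp Y i (q + 2) ∧ stp Y i (q + 2) ≤ 5 := by
    intro i
    unfold stp
    rw [v2, v2, tstep]
    constructor <;> nlinarith
  have st3 : ∀ i < ν, 1 ≤ stp Y i (q + 3) ∧ stp Y i (q + 3) ≤ 20 := by
    intro i hi
    unfold stp
    rw [v3, v3, tstep]
    have h := gq_step y0 y1 s ((i : ℝ) / ν) (1 / ν) hs hy0 hy1 hδpos hδ4 hδ5 (tnn i) (tle i hi)
    constructor <;> linarith [h.1, h.2]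
  have st4 : ∀ i Q, Q ≠ q + 1 → Q ≠ q + 2 → Q ≠ q + 3 → stp Y i Q = 0 := by
    intro i Q h1 h2 h3
    unfold stp
    rw [v4 i Q h1 h2 h3, v4 (i + 1) Q h1 h2 h3]
    ring
  refine ⟨Y, ?_, ?_, ?_, ?_, ?_⟩
  · ext Q
    by_cases h1 : Q = q + 1
    · rw [h1, v1, hP1]
      have e : gq o1 o0 s (1 - ((0 : ℕ) : ℝ) / ν) = o0 ^ 2 := by unfold gq; simp
      rw [e, Real.sqrt_sq (by linarith)]
    · by_cases h2 : Q = q + 2
      · rw [h2, v2, hP2]; simp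
      · by_cases h3 : Q = q + 3
        · rw [h3, v3, hP3]
          have e : gq y0 y1 s (((0 : ℕ) : ℝ) / ν) = y0 ^ 2 := by unfold gq; simp
          rw [e, Real.sqrt_sq (by linarith)]
        · exact v4 0 Q h1 h2 h3
  · ext Q
    have eν : (ν : ℝ) / ν = 1 := div_self hν0.ne'
    by_cases h1 : Q = q + 1
    · rw [h1, v1, hR1, eν]
      have e : gq o1 o0 s (1 - 1) = o1 ^ 2 := by unfold gq; simp
      rw [e, Real.sqrt_sq (by linarith)]
    · by_cases h2 : Q = q + 2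
      · rw [h2, v2, hR2, eν]; linarith
      · by_cases h3 : Q = q + 3
        · rw [h3, v3, hR3, eν]
          have e : gq y0 y1 s 1 = y1 ^ 2 := by unfold gq; ring
          rw [e, Real.sqrt_sq (by linarith)]
        · rw [v4 ν Q h1 h2 h3]; exact hPR Q h1 h2 h3
  · intro i hi Q _
    by_cases h1 : Q = q + 1
    · right; rw [h1]; exact (st1 i hi).1
    · by_cases h2 : Q = q + 2
      · right; rw [h2]; exact (st2 i).1
      · by_cases h3 : Q = q + 3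
        · right; rw [h3]; exact (st3 i hi).1
        · left; exact st4 i Q h1 h2 h3
  · have hb : ∀ i ∈ range ν, ∑ Q ∈ B, (stp Y i Q) ^ 2 ≤ 825 := by
      intro i hi
      have hi' := mem_range.mp hi
      rw [sum_three B q hB (fun Q => (stp Y i Q) ^ 2)
        (fun Q _ h1 h2 h3 => by show (stp Y i Q) ^ 2 = 0; rw [st4 i Q h1 h2 h3]; ring)]
      have a1 := st1 i hi'
      have a2 := st2 i
      have a3 := st3 i hi'
      have b1 : (stp Y i (q + 1)) ^ 2 ≤ 20 ^ 2 := pow_le_pow_left₀ (by linarith) a1.2 2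
      have b2 : (stp Y i (q + 2)) ^ 2 ≤ 5 ^ 2 := pow_le_pow_left₀ (by linarith) a2.2 2
      have b3 : (stp Y i (q + 3)) ^ 2 ≤ 20 ^ 2 := pow_le_pow_left₀ (by linarith) a3.2 2
      linarith
    refine le_trans (sum_le_sum hb) ?_
    rw [sum_const, card_range, nsmul_eq_mul]
    linarith
  · have hb : ∀ i ∈ range ν, |∑ Q ∈ B, ((Y i Q) ^ 2 - (Y (i + 1) Q) ^ 2)|
        = (1 / ν) * |o0 ^ 2 + m0 ^ 2 + y0 ^ 2 - (o1 ^ 2 + m1 ^ 2 + y1 ^ 2)| := by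
      intro i hi
      have hi' := mem_range.mp hi
      rw [sum_three B q hB (fun Q => (Y i Q) ^ 2 - (Y (i + 1) Q) ^ 2)
        (fun Q _ h1 h2 h3 => by
          show (Y i Q) ^ 2 - (Y (i + 1) Q) ^ 2 = 0
          rw [v4 i Q h1 h2 h3, v4 (i + 1) Q h1 h2 h3]; ring)]
      rw [v1, v1, v2, v2, v3, v3, tstep]
      have g1 := (gq_facts o1 o0 s (1 - (i : ℝ) / ν) hs ho1 ho0 (by linarith [tle i hi']) (by linarith [tnn i])).1
      have g2 := (gq_facts o1 o0 s (1 - ((i : ℝ) / ν + 1 / ν)) hs ho1 ho0 (by linarith [tle i hi'])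
        (by linarith [tnn i])).1
      have g3 := (gq_facts y0 y1 s ((i : ℝ) / ν) hs hy0 hy1 (tnn i) (by linarith [tle i hi'])).1
      have g4 := (gq_facts y0 y1 s ((i : ℝ) / ν + 1 / ν) hs hy0 hy1 (by linarith [tnn i]) (tle i hi')).1
      have z : 0 ≤ (4 / 5 * s) ^ 2 := by positivity
      rw [neg_sq, neg_sq, Real.sq_sqrt (le_trans z g1), Real.sq_sqrt (le_trans z g2),
        Real.sq_sqrt (le_trans z g3), Real.sq_sqrt (le_trans z g4)]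
      rw [← abs_of_pos hδpos, ← abs_mul]
      rw [abs_of_pos hδpos]
      congr 1
      unfold gq
      have hm1 : m1 = m0 - 2 * s := by linarith
      rw [hm1]
      ring
    rw [sum_congr rfl hb, sum_const, card_range, nsmul_eq_mul, ← mul_assoc, mul_one_div,
      div_self hν0.ne', one_mul]

end Pool.Agent.Dicut
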