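import Mathlib
import Pool.Agent.Dicut.Blocks

set_option autoImplicit false

namespace Pool.Agent.Dicut

open Finset

/-- clamping of `y` to the interval `[-A, A]` -/
def cl (A y : ℤ) : ℤ := max (-A) (min A y)

/-- the difference of two truncations at distance `|l-j|` -/
def GG (σ : ℤ) (A : ℤ → ℤ) (j l : ℤ) : ℤ := min (A (j + 1)) (σ * |l - j|) - min (A j) (σ * |l - j|)

def DD (σ : ℤ) (A : ℤ → ℤ) (j l : ℤ) : ℤ := cl (A (j + 1)) (σ * (l - j)) - cl (A j) (σ * (l - j))

def dA (A : ℤ → ℤ) (j : ℤ) : ℤ := |A (j + 1) - A j|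

lemma sum_insert_Ico {β : Type} [AddCommMonoid β] (f : ℤ → β) (a b : ℤ) (hab : a ≤ b) :
    ∑ j ∈ Ico a (b + 1), f j = ∑ j ∈ Ico a b, f j + f b := by
  have hins : Ico a (b + 1) = insert b (Ico a b) := by
    ext z; simp only [mem_Ico, mem_insert]; omega
  rw [hins, sum_insert (by simp), add_comm]

lemma tele_Ico (f : ℤ → ℤ) (a b : ℤ) (hab : a ≤ b) :
    ∑ j ∈ Ico a b, (f (j + 1) - f j) = f b - f a := by
  induction b, hab using Int.leInduction with
  | base => simp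
  | succ b hb ih => rw [sum_insert_Ico _ _ _ hb, ih]; ring

lemma abs_sub_le_sum_dA (A : ℤ → ℤ) (a b : ℤ) (hab : a ≤ b) :
    |A b - A a| ≤ ∑ j ∈ Ico a b, dA A j := by
  rw [← tele_Ico A a b hab]
  exact abs_sum_le_sum_abs _ _

lemma after_sum (σ : ℤ) (A : ℤ → ℤ) (l q M : ℤ) (hq : q + 1 ≤ M) :
    ∑ j ∈ Ico (q + 1) M, (cl (A j) (σ * (l - j + 1)) - cl (A j) (σ * (l - j)))
      = cl (A q) (σ * (l - q)) + ∑ j ∈ Ico q M, DD σ A j l - cl (A M) (σ * (l - M + 1)) := by
  induction M, hq using Int.leInduction with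
  | base =>
    rw [sum_insert_Ico _ _ _ (le_refl q)]
    simp only [Ico_self, sum_empty, DD]
    have : l - (q + 1) + 1 = l - q := by ring
    rw [this]; ring
  | succ M hM ih =>
    rw [sum_insert_Ico _ _ _ hM, sum_insert_Ico _ _ _ (by omega : q ≤ M), ih]
    simp only [DD]
    have : l - (M + 1) + 1 = l - M := by ring
    rw [this]; ring

lemma before_sum (σ : ℤ) (A : ℤ → ℤ) (l q : ℤ) (hq : 0 ≤ q) :
    ∑ j ∈ Ico 0 q, (cl (A j) (σ * (l - j + 1)) - cl (A j) (σ * (l - j)))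
      = - cl (A q) (σ * (l - q + 1)) + ∑ j ∈ Ico (-1) q, DD σ A j l + cl (A (-1)) (σ * (l + 1)) := by
  induction q, hq using Int.leInduction with
  | base =>
    have : Ico (-1 : ℤ) 0 = {-1} := by
      ext z; simp only [mem_Ico, mem_singleton]; omega
    rw [this]
    simp [DD]
    ring
  | succ q hq ih =>
    rw [sum_insert_Ico _ _ _ hq, sum_insert_Ico _ _ _ (by omega : (-1 : ℤ) ≤ q), ih]
    simp only [DD]
    have : l - (q + 1) + 1 = l - q := by ring
    rw [this]; ring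

lemma DD_of_le (σ : ℤ) (hσ : 0 ≤ σ) (A : ℤ → ℤ) (hA : ∀ j, 0 ≤ A j) (j l : ℤ) (h : l ≤ j) :
    DD σ A j l = - GG σ A j l := by
  unfold DD GG cl
  have h1 : |l - j| = j - l := by rw [abs_sub_comm]; exact abs_of_nonneg (by omega)
  rw [h1]
  have h2 : σ * (l - j) = - (σ * (j - l)) := by ring
  rw [h2]
  have h3 : 0 ≤ σ * (j - l) := mul_nonneg hσ (by omega)
  have h4 := hA j
  have h5 := hA (j + 1)
  omega

lemma DD_of_gt (σ : ℤ) (hσ : 0 ≤ σ) (A : ℤ → ℤ) (hA : ∀ j, 0 ≤ A j) (j l : ℤ) (h : j < l) :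
    DD σ A j l = GG σ A j l := by
  unfold DD GG cl
  have h1 : |l - j| = l - j := abs_of_nonneg (by omega)
  rw [h1]
  have h3 : 0 ≤ σ * (l - j) := mul_nonneg hσ (by omega)
  have h4 := hA j
  have h5 := hA (j + 1)
  omega

/-- correction term of the column with label `l` -/
noncomputable def CC (σ : ℤ) (A : ℤ → ℤ) (M l : ℤ) : ℤ := - ∑ j ∈ Ico (-1) M, GG σ A j l

/-- residual at row `q`, column `l` -/
noncomputable def RR (σ : ℤ) (A : ℤ → ℤ) (M q l : ℤ) : ℤ :=
  ∑ j ∈ Ico q M, DD σ A j l - ∑ j ∈ Ico (-1) q, DD σ A j l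

lemma RR_sub_CC_right (σ : ℤ) (hσ : 0 ≤ σ) (A : ℤ → ℤ) (hA : ∀ j, 0 ≤ A j) (M q l : ℤ)
    (hq : -1 ≤ q) (hqM : q ≤ M) (hql : q ≤ l) :
    RR σ A M q l - CC σ A M l = 2 * ∑ j ∈ (Ico q M).filter (fun j => j < l), GG σ A j l := by
  unfold RR CC
  have h1 : Ico (-1) M = Ico (-1) q ∪ Ico q M := by
    ext z; simp only [mem_Ico, mem_union]; omega
  have h2 : Disjoint (Ico (-1) q) (Ico q M) := by
    rw [disjoint_left]; intro z; simp only [mem_Ico]; omega
  rw [h1, sum_union h2]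
  have h3 : ∑ j ∈ Ico (-1) q, DD σ A j l = ∑ j ∈ Ico (-1) q, GG σ A j l := by
    apply sum_congr rfl; intro j hj
    exact DD_of_gt σ hσ A hA j l (by have := mem_Ico.mp hj; omega)
  have h4 : ∑ j ∈ Ico q M, DD σ A j l
      = 2 * ∑ j ∈ (Ico q M).filter (fun j => j < l), GG σ A j l - ∑ j ∈ Ico q M, GG σ A j l := by
    rw [mul_sum, ← sum_filter_add_sum_filter_not (Ico q M) (fun j => j < l) (fun j => DD σ A j l),
      ← sum_filter_add_sum_filter_not (Ico q M) (fun j => j < l) (fun j => GG σ A j l)]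
    have h5 : ∑ j ∈ (Ico q M).filter (fun j => j < l), DD σ A j l
        = ∑ j ∈ (Ico q M).filter (fun j => j < l), GG σ A j l := by
      apply sum_congr rfl; intro j hj
      exact DD_of_gt σ hσ A hA j l (mem_filter.mp hj).2
    have h6 : ∑ j ∈ (Ico q M).filter (fun j => ¬ j < l), DD σ A j l
        = - ∑ j ∈ (Ico q M).filter (fun j => ¬ j < l), GG σ A j l := by
      rw [← sum_neg_distrib]
      apply sum_congr rfl; intro j hj
      exact DD_of_le σ hσ A hA j l (by have := (mem_filter.mp hj).2; omega)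
    rw [h5, h6, ← mul_sum]; ring
  rw [h3, h4]; ring

lemma RR_sub_CC_left (σ : ℤ) (hσ : 0 ≤ σ) (A : ℤ → ℤ) (hA : ∀ j, 0 ≤ A j) (M q l : ℤ)
    (hq : -1 ≤ q) (hqM : q ≤ M) (hql : l ≤ q) :
    RR σ A M q l - CC σ A M l = 2 * ∑ j ∈ (Ico (-1) q).filter (fun j => l ≤ j), GG σ A j l := by
  unfold RR CC
  have h1 : Ico (-1) M = Ico (-1) q ∪ Ico q M := by
    ext z; simp only [mem_Ico, mem_union]; omega
  have h2 : Disjoint (Ico (-1) q) (Ico q M) := by
    rw [disjoint_left]; intro z; simp only [mem_Ico]; omega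
  rw [h1, sum_union h2]
  have h3 : ∑ j ∈ Ico q M, DD σ A j l = - ∑ j ∈ Ico q M, GG σ A j l := by
    rw [← sum_neg_distrib]
    apply sum_congr rfl; intro j hj
    exact DD_of_le σ hσ A hA j l (by have := mem_Ico.mp hj; omega)
  have h4 : ∑ j ∈ Ico (-1) q, DD σ A j l
      = ∑ j ∈ Ico (-1) q, GG σ A j l - 2 * ∑ j ∈ (Ico (-1) q).filter (fun j => l ≤ j), GG σ A j l := by
    rw [mul_sum, ← sum_filter_add_sum_filter_not (Ico (-1) q) (fun j => l ≤ j) (fun j => DD σ A j l),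
      ← sum_filter_add_sum_filter_not (Ico (-1) q) (fun j => l ≤ j) (fun j => GG σ A j l)]
    have h5 : ∑ j ∈ (Ico (-1) q).filter (fun j => l ≤ j), DD σ A j l
        = - ∑ j ∈ (Ico (-1) q).filter (fun j => l ≤ j), GG σ A j l := by
      rw [← sum_neg_distrib]
      apply sum_congr rfl; intro j hj
      exact DD_of_le σ hσ A hA j l (mem_filter.mp hj).2
    have h6 : ∑ j ∈ (Ico (-1) q).filter (fun j => ¬ l ≤ j), DD σ A j l
        = ∑ j ∈ (Ico (-1) q).filter (fun j => ¬ l ≤ j), GG σ A j l := by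
      apply sum_congr rfl; intro j hj
      exact DD_of_gt σ hσ A hA j l (by have := (mem_filter.mp hj).2; omega)
    rw [h5, h6, ← mul_sum]; ring
  rw [h3, h4]; ring

lemma abs_GG_le (σ : ℤ) (A : ℤ → ℤ) (j l : ℤ) : |GG σ A j l| ≤ dA A j := by
  unfold GG dA
  generalize σ * |l - j| = y
  rcases le_total (A j) (A (j+1)) with h | h
  · rw [abs_of_nonneg (by omega : 0 ≤ min (A (j + 1)) y - min (A j) y),
      abs_of_nonneg (by omega : 0 ≤ A (j + 1) - A j)]
    omega
  · rw [abs_of_nonpos (by omega : min (A (j + 1)) y - min (A j) y ≤ 0),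
      abs_of_nonpos (by omega : A (j + 1) - A j ≤ 0)]
    omega

/-- length of the `k`-th cell on one side of a row of half-length `a` -/
def len (σ a k : ℤ) : ℤ := min a (σ * (k + 1)) - min a (σ * k)

lemma len_nonneg (σ a k : ℤ) (hσ : 0 ≤ σ) : 0 ≤ len σ a k := by
  unfold len
  have : σ * (k + 1) = σ * k + σ := by ring
  omega

lemma key_term (σ : ℤ) (hσ : 0 ≤ σ) (A : ℤ → ℤ) (a : ℤ) (j l k : ℤ)
    (hle : |l - j| ≤ k) :
    len σ a k * |GG σ A j l| ≤
      dA A j * (max (min (min (A j) (A (j+1))) a) (min a (σ * (k + 1)))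
        - max (min (min (A j) (A (j+1))) a) (min a (σ * k))) := by
  have h1 := abs_GG_le σ A j l
  have h2 := len_nonneg σ a k hσ
  have hy : σ * |l - j| ≤ σ * k := mul_le_mul_of_nonneg_left hle hσ
  have hk : σ * (k + 1) = σ * k + σ := by ring
  set m := min (A j) (A (j+1)) with hm
  by_cases hG : GG σ A j l = 0
  · rw [hG, abs_zero, mul_zero]
    apply mul_nonneg
    · exact abs_nonneg _
    · omega
  · have hlt : m < σ * k := by
      by_contra hcon
      apply hG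
      unfold GG
      -- y <= sigma k <= m
      have : σ * |l - j| ≤ m := by omega
      omega
    have heq : max (min m a) (min a (σ * (k + 1))) - max (min m a) (min a (σ * k)) = len σ a k := by
      unfold len
      omega
    rw [heq, mul_comm]
    exact mul_le_mul_of_nonneg_right h1 h2

lemma sum_key (σ : ℤ) (A : ℤ → ℤ) (a : ℤ) (j T : ℤ) (hT : 0 ≤ T) (ha : 0 ≤ a) (hA : ∀ j, 0 ≤ A j) :
    ∑ k ∈ Ico 0 T, dA A j * (max (min (min (A j) (A (j+1))) a) (min a (σ * (k + 1)))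
        - max (min (min (A j) (A (j+1))) a) (min a (σ * k)))
      ≤ dA A j * (a - min (min (A j) (A (j+1))) a) := by
  rw [← mul_sum]
  apply mul_le_mul_of_nonneg_left _ (abs_nonneg _)
  have h := tele_Ico (fun k => max (min (min (A j) (A (j+1))) a) (min a (σ * k))) 0 T hT
  rw [h]
  have h1 := hA j
  have h2 := hA (j+1)
  simp only [mul_zero]
  omega

end Pool.Agent.Dicut
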