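import Mathlib
import Pool.Agent.Dicut.Chain

set_option autoImplicit false

namespace Pool.Agent.Dicut

open Finset

lemma dA_nonneg (A : ℤ → ℤ) (j : ℤ) : 0 ≤ dA A j := abs_nonneg _

lemma gdiff_nonneg (σ : ℤ) (hσ : 0 ≤ σ) (m a k : ℤ) :
    0 ≤ max m (min a (σ * (k + 1))) - max m (min a (σ * k)) := by
  have hk : σ * (k + 1) = σ * k + σ := by ring
  omega

lemma row_right (σ : ℤ) (hσ : 0 ≤ σ) (A : ℤ → ℤ) (hA : ∀ j, 0 ≤ A j) (M q T : ℤ)
    (hq : -1 ≤ q) (hqM : q ≤ M) (hT : 0 ≤ T) :
    ∑ k ∈ Ico 0 T, len σ (A q) k * |RR σ A M q (q + k) - CC σ A M (q + k)|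
      ≤ 2 * (∑ j ∈ Ico q (q + T), dA A j) ^ 2 := by
  set S := ∑ j ∈ Ico q (q + T), dA A j with hS
  have hterm : ∀ k ∈ Ico 0 T, len σ (A q) k * |RR σ A M q (q + k) - CC σ A M (q + k)|
      ≤ 2 * ∑ j ∈ Ico q (q + T), dA A j * (max (min (min (A j) (A (j+1))) (A q)) (min (A q) (σ * (k + 1)))
        - max (min (min (A j) (A (j+1))) (A q)) (min (A q) (σ * k))) := by
    intro k hk
    have hk' := mem_Ico.mp hk
    rw [RR_sub_CC_right σ hσ A hA M q (q + k) hq hqM (by omega), abs_mul]
    have h2 : |(2 : ℤ)| = 2 := by norm_num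
    rw [h2]
    have h3 : |∑ j ∈ (Ico q M).filter (fun j => j < q + k), GG σ A j (q + k)|
        ≤ ∑ j ∈ (Ico q M).filter (fun j => j < q + k), |GG σ A j (q + k)| := abs_sum_le_sum_abs _ _
    have h4 : len σ (A q) k * ∑ j ∈ (Ico q M).filter (fun j => j < q + k), |GG σ A j (q + k)|
        ≤ ∑ j ∈ Ico q (q + T), dA A j * (max (min (min (A j) (A (j+1))) (A q)) (min (A q) (σ * (k + 1)))
        - max (min (min (A j) (A (j+1))) (A q)) (min (A q) (σ * k))) := by
      rw [mul_sum]
      calc ∑ j ∈ (Ico q M).filter (fun j => j < q + k), len σ (A q) k * |GG σ A j (q + k)|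
          ≤ ∑ j ∈ (Ico q M).filter (fun j => j < q + k), dA A j * (max (min (min (A j) (A (j+1))) (A q)) (min (A q) (σ * (k + 1)))
        - max (min (min (A j) (A (j+1))) (A q)) (min (A q) (σ * k))) := by
            apply sum_le_sum
            intro j hj
            have hj' := mem_filter.mp hj
            have hj'' := mem_Ico.mp hj'.1
            apply key_term σ hσ A (A q) j (q + k) k
            rw [abs_of_nonneg (by omega)]
            omega
        _ ≤ _ := by
            apply sum_le_sum_of_subset_of_nonneg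
            · intro j hj
              have hj' := mem_filter.mp hj
              have hj'' := mem_Ico.mp hj'.1
              rw [mem_Ico]; omega
            · intro j _ _
              exact mul_nonneg (dA_nonneg A j) (gdiff_nonneg σ hσ _ _ _)
    have h5 := len_nonneg σ (A q) k hσ
    calc len σ (A q) k * (2 * |∑ j ∈ (Ico q M).filter (fun j => j < q + k), GG σ A j (q + k)|)
        = 2 * (len σ (A q) k * |∑ j ∈ (Ico q M).filter (fun j => j < q + k), GG σ A j (q + k)|) := by ring
      _ ≤ 2 * (len σ (A q) k * ∑ j ∈ (Ico q M).filter (fun j => j < q + k), |GG σ A j (q + k)|) := by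
          have := mul_le_mul_of_nonneg_left h3 h5
          omega
      _ ≤ _ := by omega
  calc ∑ k ∈ Ico 0 T, len σ (A q) k * |RR σ A M q (q + k) - CC σ A M (q + k)|
      ≤ ∑ k ∈ Ico 0 T, 2 * ∑ j ∈ Ico q (q + T), dA A j * (max (min (min (A j) (A (j+1))) (A q)) (min (A q) (σ * (k + 1)))
        - max (min (min (A j) (A (j+1))) (A q)) (min (A q) (σ * k))) := sum_le_sum hterm
    _ = 2 * ∑ j ∈ Ico q (q + T), ∑ k ∈ Ico 0 T, dA A j * (max (min (min (A j) (A (j+1))) (A q)) (min (A q) (σ * (k + 1)))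
        - max (min (min (A j) (A (j+1))) (A q)) (min (A q) (σ * k))) := by
          rw [← mul_sum, sum_comm]
    _ ≤ 2 * ∑ j ∈ Ico q (q + T), dA A j * S := by
          apply mul_le_mul_of_nonneg_left _ (by norm_num)
          apply sum_le_sum
          intro j hj
          have hj' := mem_Ico.mp hj
          refine le_trans (sum_key σ A (A q) j T hT (hA q) hA) ?_
          apply mul_le_mul_of_nonneg_left _ (dA_nonneg A j)
          have h1 : |A j - A q| ≤ S := by
            refine le_trans (abs_sub_le_sum_dA A q j hj'.1) ?_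
            apply sum_le_sum_of_subset_of_nonneg
            · intro z hz; have := mem_Ico.mp hz; rw [mem_Ico]; omega
            · intro z _ _; exact dA_nonneg A z
          have h2 : |A (j+1) - A q| ≤ S := by
            refine le_trans (abs_sub_le_sum_dA A q (j+1) (by omega)) ?_
            apply sum_le_sum_of_subset_of_nonneg
            · intro z hz; have := mem_Ico.mp hz; rw [mem_Ico]; omega
            · intro z _ _; exact dA_nonneg A z
          have h3 : 0 ≤ S := sum_nonneg (fun z _ => dA_nonneg A z)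
          have h4 := abs_le.mp h1
          have h5 := abs_le.mp h2
          omega
    _ = 2 * S ^ 2 := by rw [← sum_mul]; ring

lemma row_left (σ : ℤ) (hσ : 0 ≤ σ) (A : ℤ → ℤ) (hA : ∀ j, 0 ≤ A j) (M q T : ℤ)
    (hq : -1 ≤ q) (hqM : q ≤ M) (hT : 0 ≤ T) :
    ∑ k ∈ Ico 0 T, len σ (A q) k * |RR σ A M q (q - 1 - k) - CC σ A M (q - 1 - k)|
      ≤ 2 * (∑ j ∈ Ico (q - T) q, dA A j) ^ 2 := by
  set S := ∑ j ∈ Ico (q - T) q, dA A j with hS
  have hterm : ∀ k ∈ Ico 0 T, len σ (A q) k * |RR σ A M q (q - 1 - k) - CC σ A M (q - 1 - k)|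
      ≤ 2 * ∑ j ∈ Ico (q - T) q, dA A j * (max (min (min (A j) (A (j+1))) (A q)) (min (A q) (σ * (k + 1)))
        - max (min (min (A j) (A (j+1))) (A q)) (min (A q) (σ * k))) := by
    intro k hk
    have hk' := mem_Ico.mp hk
    rw [RR_sub_CC_left σ hσ A hA M q (q - 1 - k) hq hqM (by omega), abs_mul]
    have h2 : |(2 : ℤ)| = 2 := by norm_num
    rw [h2]
    have h3 : |∑ j ∈ (Ico (-1) q).filter (fun j => q - 1 - k ≤ j), GG σ A j (q - 1 - k)|
        ≤ ∑ j ∈ (Ico (-1) q).filter (fun j => q - 1 - k ≤ j), |GG σ A j (q - 1 - k)| := abs_sum_le_sum_abs _ _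
    have h4 : len σ (A q) k * ∑ j ∈ (Ico (-1) q).filter (fun j => q - 1 - k ≤ j), |GG σ A j (q - 1 - k)|
        ≤ ∑ j ∈ Ico (q - T) q, dA A j * (max (min (min (A j) (A (j+1))) (A q)) (min (A q) (σ * (k + 1)))
        - max (min (min (A j) (A (j+1))) (A q)) (min (A q) (σ * k))) := by
      rw [mul_sum]
      calc ∑ j ∈ (Ico (-1) q).filter (fun j => q - 1 - k ≤ j), len σ (A q) k * |GG σ A j (q - 1 - k)|
          ≤ ∑ j ∈ (Ico (-1) q).filter (fun j => q - 1 - k ≤ j), dA A j * (max (min (min (A j) (A (j+1))) (A q)) (min (A q) (σ * (k + 1)))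
        - max (min (min (A j) (A (j+1))) (A q)) (min (A q) (σ * k))) := by
            apply sum_le_sum
            intro j hj
            have hj' := mem_filter.mp hj
            have hj'' := mem_Ico.mp hj'.1
            apply key_term σ hσ A (A q) j (q - 1 - k) k
            rw [abs_sub_comm, abs_of_nonneg (by omega)]
            omega
        _ ≤ _ := by
            apply sum_le_sum_of_subset_of_nonneg
            · intro j hj
              have hj' := mem_filter.mp hj
              have hj'' := mem_Ico.mp hj'.1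
              rw [mem_Ico]; omega
            · intro j _ _
              exact mul_nonneg (dA_nonneg A j) (gdiff_nonneg σ hσ _ _ _)
    have h5 := len_nonneg σ (A q) k hσ
    calc len σ (A q) k * (2 * |∑ j ∈ (Ico (-1) q).filter (fun j => q - 1 - k ≤ j), GG σ A j (q - 1 - k)|)
        = 2 * (len σ (A q) k * |∑ j ∈ (Ico (-1) q).filter (fun j => q - 1 - k ≤ j), GG σ A j (q - 1 - k)|) := by ring
      _ ≤ 2 * (len σ (A q) k * ∑ j ∈ (Ico (-1) q).filter (fun j => q - 1 - k ≤ j), |GG σ A j (q - 1 - k)|) := by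
          have := mul_le_mul_of_nonneg_left h3 h5
          omega
      _ ≤ _ := by omega
  calc ∑ k ∈ Ico 0 T, len σ (A q) k * |RR σ A M q (q - 1 - k) - CC σ A M (q - 1 - k)|
      ≤ ∑ k ∈ Ico 0 T, 2 * ∑ j ∈ Ico (q - T) q, dA A j * (max (min (min (A j) (A (j+1))) (A q)) (min (A q) (σ * (k + 1)))
        - max (min (min (A j) (A (j+1))) (A q)) (min (A q) (σ * k))) := sum_le_sum hterm
    _ = 2 * ∑ j ∈ Ico (q - T) q, ∑ k ∈ Ico 0 T, dA A j * (max (min (min (A j) (A (j+1))) (A q)) (min (A q) (σ * (k + 1)))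
        - max (min (min (A j) (A (j+1))) (A q)) (min (A q) (σ * k))) := by
          rw [← mul_sum, sum_comm]
    _ ≤ 2 * ∑ j ∈ Ico (q - T) q, dA A j * S := by
          apply mul_le_mul_of_nonneg_left _ (by norm_num)
          apply sum_le_sum
          intro j hj
          have hj' := mem_Ico.mp hj
          refine le_trans (sum_key σ A (A q) j T hT (hA q) hA) ?_
          apply mul_le_mul_of_nonneg_left _ (dA_nonneg A j)
          have h1 : |A q - A j| ≤ S := by
            refine le_trans (abs_sub_le_sum_dA A j q (by omega)) ?_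
            apply sum_le_sum_of_subset_of_nonneg
            · intro z hz; have := mem_Ico.mp hz; rw [mem_Ico]; omega
            · intro z _ _; exact dA_nonneg A z
          have h2 : |A q - A (j+1)| ≤ S := by
            refine le_trans (abs_sub_le_sum_dA A (j+1) q (by omega)) ?_
            apply sum_le_sum_of_subset_of_nonneg
            · intro z hz; have := mem_Ico.mp hz; rw [mem_Ico]; omega
            · intro z _ _; exact dA_nonneg A z
          have h3 : 0 ≤ S := sum_nonneg (fun z _ => dA_nonneg A z)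
          have h4 := abs_le.mp h1
          have h5 := abs_le.mp h2
          omega
    _ = 2 * S ^ 2 := by rw [← sum_mul]; ring

/-- bound for the column correction -/
lemma abs_CC_le (σ : ℤ) (hσ : 0 ≤ σ) (A : ℤ → ℤ) (M l T : ℤ) (hT : 1 ≤ T)
    (hsupp : ∀ j, j < 0 ∨ M ≤ j → A j = 0) (hAT : ∀ j, A j ≤ σ * T) :
    |CC σ A M l| ≤ 2 * ∑ j ∈ Ico (l - T + 1) (l + T), dA A j := by
  unfold CC
  rw [abs_neg]
  -- extend the range
  set a := min (-1) (l - T + 1) with ha
  set b := max M (l + T) with hb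
  have hext : ∑ j ∈ Ico (-1) M, GG σ A j l = ∑ j ∈ Ico a b, GG σ A j l := by
    apply sum_subset
    · intro z hz; have := mem_Ico.mp hz; rw [mem_Ico]; omega
    · intro z hz hz'
      have h1 := mem_Ico.mp hz
      have h2 : ¬ (-1 ≤ z ∧ z < M) := by simpa [mem_Ico] using hz'
      have h3 : A z = 0 := hsupp z (by omega)
      have h4 : A (z + 1) = 0 := hsupp (z + 1) (by omega)
      unfold GG
      rw [h3, h4]; ring
  rw [hext]
  have hsplit : Ico a b = (Ico a (l - T + 1) ∪ Ico (l - T + 1) (l + T)) ∪ Ico (l + T) b := by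
    ext z; simp only [mem_Ico, mem_union]; omega
  have hd1 : Disjoint (Ico a (l - T + 1) ∪ Ico (l - T + 1) (l + T)) (Ico (l + T) b) := by
    rw [disjoint_left]; intro z; simp only [mem_Ico, mem_union]; omega
  have hd2 : Disjoint (Ico a (l - T + 1)) (Ico (l - T + 1) (l + T)) := by
    rw [disjoint_left]; intro z; simp only [mem_Ico]; omega
  rw [hsplit, sum_union hd1, sum_union hd2]
  have hleft : ∑ j ∈ Ico a (l - T + 1), GG σ A j l = A (l - T + 1) - A a := by
    rw [← tele_Ico A a (l - T + 1) (by omega)]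
    apply sum_congr rfl
    intro j hj
    have hj' := mem_Ico.mp hj
    unfold GG
    have h1 : T ≤ |l - j| := by rw [abs_of_nonneg (by omega)]; omega
    have h2 : σ * T ≤ σ * |l - j| := mul_le_mul_of_nonneg_left h1 hσ
    have h3 := hAT j
    have h4 := hAT (j + 1)
    omega
  have hright : ∑ j ∈ Ico (l + T) b, GG σ A j l = A b - A (l + T) := by
    rw [← tele_Ico A (l + T) b (by omega)]
    apply sum_congr rfl
    intro j hj
    have hj' := mem_Ico.mp hj
    unfold GG
    have h1 : T ≤ |l - j| := by rw [abs_sub_comm, abs_of_nonneg (by omega)]; omega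
    have h2 : σ * T ≤ σ * |l - j| := mul_le_mul_of_nonneg_left h1 hσ
    have h3 := hAT j
    have h4 := hAT (j + 1)
    omega
  rw [hleft, hright, hsupp a (by omega), hsupp b (by omega)]
  have h5 : |A (l + T) - A (l - T + 1)| ≤ ∑ j ∈ Ico (l - T + 1) (l + T), dA A j :=
    abs_sub_le_sum_dA A (l - T + 1) (l + T) (by omega)
  have h6 : |∑ j ∈ Ico (l - T + 1) (l + T), GG σ A j l| ≤ ∑ j ∈ Ico (l - T + 1) (l + T), dA A j :=
    le_trans (abs_sum_le_sum_abs _ _) (sum_le_sum (fun j _ => abs_GG_le σ A j l))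
  have h7 := abs_le.mp h5
  have h8 := abs_le.mp h6
  rw [abs_le]
  constructor <;> omega

end Pool.Agent.Dicut
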