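import Mathlib
import Pool.Agent.Dicut.Chain2

set_option autoImplicit false

namespace Pool.Agent.Dicut

open Finset

/-- cut points of a row with centre `ctr q` and half-length `A q` -/
def cut (ctr A : ℤ → ℤ) (σ q k : ℤ) : ℤ := ctr q + cl (A q) (σ * k)

/-- the `k`-th cell of row `q` -/
noncomputable def cell (ctr A : ℤ → ℤ) (σ q k : ℤ) : Finset ℤ := Ico (cut ctr A σ q k) (cut ctr A σ q (k + 1))

lemma cl_mono (A : ℤ) {y y' : ℤ} (h : y ≤ y') : cl A y ≤ cl A y' := by unfold cl; omega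

lemma cut_mono (ctr A : ℤ → ℤ) (σ : ℤ) (hσ : 0 ≤ σ) (q : ℤ) {k k' : ℤ} (h : k ≤ k') :
    cut ctr A σ q k ≤ cut ctr A σ q k' := by
  unfold cut
  have := cl_mono (A q) (mul_le_mul_of_nonneg_left h hσ)
  omega

lemma cut_ge (ctr A : ℤ → ℤ) (σ q k : ℤ) : ctr q - A q ≤ cut ctr A σ q k := by
  unfold cut cl; omega

lemma cut_le (ctr A : ℤ → ℤ) (σ q k : ℤ) (hA : 0 ≤ A q) : cut ctr A σ q k ≤ ctr q + A q := by
  unfold cut cl; omega

lemma cut_top (ctr A : ℤ → ℤ) (σ q T k : ℤ) (hσ : 0 ≤ σ) (hA : 0 ≤ A q) (hT : A q ≤ σ * T)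
    (hk : T ≤ k) : cut ctr A σ q k = ctr q + A q := by
  unfold cut cl
  have : σ * T ≤ σ * k := mul_le_mul_of_nonneg_left hk hσ
  omega

lemma cut_bot (ctr A : ℤ → ℤ) (σ q T k : ℤ) (hσ : 0 ≤ σ) (hT : A q ≤ σ * T)
    (hk : k ≤ -T) : cut ctr A σ q k = ctr q - A q := by
  unfold cut cl
  have h1 : σ * T ≤ σ * (-k) := mul_le_mul_of_nonneg_left (by omega) hσ
  have h2 : σ * (-k) = - (σ * k) := by ring
  omega

lemma sum_cells {β : Type} [AddCommMonoid β] (c : ℤ → ℤ) (hc : ∀ k k', k ≤ k' → c k ≤ c k')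
    (g : ℤ → β) (a b : ℤ) (hab : a ≤ b) :
    ∑ k ∈ Ico a b, ∑ v ∈ Ico (c k) (c (k + 1)), g v = ∑ v ∈ Ico (c a) (c b), g v := by
  induction b, hab using Int.leInduction with
  | base => simp
  | succ b hb ih =>
    rw [sum_insert_Ico _ _ _ hb, ih]
    have h1 := hc a b hb
    have h2 := hc b (b + 1) (by omega)
    have hsplit : Ico (c a) (c (b + 1)) = Ico (c a) (c b) ∪ Ico (c b) (c (b + 1)) := by
      ext z; simp only [mem_Ico, mem_union]; omega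
    have hd : Disjoint (Ico (c a) (c b)) (Ico (c b) (c (b + 1))) := by
      rw [disjoint_left]; intro z; simp only [mem_Ico]; omega
    rw [hsplit, sum_union hd]

lemma sum_row {β : Type} [AddCommMonoid β] (ctr A : ℤ → ℤ) (σ q T : ℤ) (hσ : 0 ≤ σ)
    (hA : 0 ≤ A q) (hT0 : 0 ≤ T) (hT : A q ≤ σ * T) (g : ℤ → β) :
    ∑ v ∈ Ico (ctr q - A q) (ctr q + A q), g v = ∑ k ∈ Ico (-T) T, ∑ v ∈ cell ctr A σ q k, g v := by
  unfold cell
  rw [sum_cells (fun k => cut ctr A σ q k) (fun k k' h => cut_mono ctr A σ hσ q h) g (-T) T (by omega)]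
  rw [cut_top ctr A σ q T T hσ hA hT le_rfl, cut_bot ctr A σ q T (-T) hσ hT le_rfl]

/-- reindexing of the sum over labels -/
lemma sum_label {β : Type} [AddCommMonoid β] (M T q : ℤ) (hq : 0 ≤ q) (hqM : q < M)
    (g : ℤ → β) (hg : ∀ k, k < -T ∨ T ≤ k → g k = 0) :
    ∑ l ∈ Ico (-T) (M + T), g (l - q) = ∑ k ∈ Ico (-T) T, g k := by
  have h1 : ∑ l ∈ Ico (-T) (M + T), g (l - q) = ∑ k ∈ Ico (-T - q) (M + T - q), g k := by
    apply sum_nbij' (fun l => l - q) (fun k => k + q)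
    · intro l hl; simp only [mem_Ico] at hl ⊢; omega
    · intro k hk; simp only [mem_Ico] at hk ⊢; omega
    · intro l _; ring
    · intro k _; ring
    · intro l _; rfl
  rw [h1]
  symm
  apply sum_subset
  · intro z hz; simp only [mem_Ico] at hz ⊢; omega
  · intro z _ hz'
    have : ¬ (-T ≤ z ∧ z < T) := by simpa [mem_Ico] using hz'
    exact hg z (by omega)

/-- indicator that `u` and `v` lie in the column with label `l`, in rows `q`, `q'`, and `u < v` -/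
noncomputable def ind (ctr A : ℤ → ℤ) (σ l q q' u v : ℤ) : ℕ :=
  if u ∈ cell ctr A σ q (l - q) ∧ v ∈ cell ctr A σ q' (l - q') ∧ u < v then 1 else 0

/-- multiplicities of the column cliques -/
noncomputable def colMult (ctr A : ℤ → ℤ) (σ M T u v : ℤ) : ℕ :=
  ∑ l ∈ Ico (-T) (M + T), ∑ q ∈ Ico 0 M, ∑ q' ∈ Ico 0 M, ind ctr A σ l q q' u v

/-- the functional of a weight function on a finite set `B` of integers -/
noncomputable def Fun (B : Finset ℤ) (μ : ℤ → ℤ → ℕ) (x : ℤ → ℝ) : ℝ :=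
  ∑ u ∈ B, ∑ v ∈ B, (μ u v : ℝ) * (x u - x v - x u * x v)

lemma sum_ite_sub (B C : Finset ℤ) (hC : C ⊆ B) (g : ℤ → ℝ) :
    ∑ v ∈ B, (if v ∈ C then g v else 0) = ∑ v ∈ C, g v := by
  rw [sum_ite_mem, inter_eq_right.mpr hC]

lemma ind_sum (B C C' : Finset ℤ) (hC : C ⊆ B) (hC' : C' ⊆ B) (f : ℤ → ℤ → ℝ) :
    ∑ u ∈ B, ∑ v ∈ B, ((if u ∈ C ∧ v ∈ C' ∧ u < v then 1 else 0 : ℕ) : ℝ) * f u v
      = ∑ u ∈ C, ∑ v ∈ C', if u < v then f u v else 0 := by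
  rw [← sum_ite_sub B C hC]
  apply sum_congr rfl
  intro u _
  by_cases hu : u ∈ C
  · rw [if_pos hu, ← sum_ite_sub B C' hC']
    apply sum_congr rfl
    intro v _
    by_cases hv : v ∈ C'
    · by_cases huv : u < v
      · simp [hu, hv, huv]
      · simp [hv, huv]
    · simp [hv]
  · rw [if_neg hu]
    apply sum_eq_zero
    intro v _
    simp [hu]

lemma colMult_sum (ctr A : ℤ → ℤ) (σ M T : ℤ) (B : Finset ℤ)
    (hB : ∀ q ∈ Ico 0 M, ∀ k, cell ctr A σ q k ⊆ B) (f : ℤ → ℤ → ℝ) :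
    ∑ u ∈ B, ∑ v ∈ B, (colMult ctr A σ M T u v : ℝ) * f u v
      = ∑ l ∈ Ico (-T) (M + T), ∑ q ∈ Ico 0 M, ∑ q' ∈ Ico 0 M,
          ∑ u ∈ cell ctr A σ q (l - q), ∑ v ∈ cell ctr A σ q' (l - q'), if u < v then f u v else 0 := by
  unfold colMult
  have h1 : ∀ u ∈ B, ∀ v ∈ B, ((∑ l ∈ Ico (-T) (M + T), ∑ q ∈ Ico 0 M, ∑ q' ∈ Ico 0 M,
        ind ctr A σ l q q' u v : ℕ) : ℝ) * f u v
      = ∑ l ∈ Ico (-T) (M + T), ∑ q ∈ Ico 0 M, ∑ q' ∈ Ico 0 M,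
          ((ind ctr A σ l q q' u v : ℕ) : ℝ) * f u v := by
    intro u _ v _
    push_cast
    rw [sum_mul]
    apply sum_congr rfl; intro l _
    rw [sum_mul]
    apply sum_congr rfl; intro q _
    rw [sum_mul]
  rw [sum_congr rfl (fun u hu => sum_congr rfl (fun v hv => h1 u hu v hv))]
  -- move sums over u, v inside
  have h2 : ∑ u ∈ B, ∑ v ∈ B, ∑ l ∈ Ico (-T) (M + T), ∑ q ∈ Ico 0 M, ∑ q' ∈ Ico 0 M,
          ((ind ctr A σ l q q' u v : ℕ) : ℝ) * f u v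
      = ∑ l ∈ Ico (-T) (M + T), ∑ q ∈ Ico 0 M, ∑ q' ∈ Ico 0 M, ∑ u ∈ B, ∑ v ∈ B,
          ((ind ctr A σ l q q' u v : ℕ) : ℝ) * f u v := by
    calc ∑ u ∈ B, ∑ v ∈ B, ∑ l ∈ Ico (-T) (M + T), ∑ q ∈ Ico 0 M, ∑ q' ∈ Ico 0 M,
          ((ind ctr A σ l q q' u v : ℕ) : ℝ) * f u v
        = ∑ u ∈ B, ∑ l ∈ Ico (-T) (M + T), ∑ v ∈ B, ∑ q ∈ Ico 0 M, ∑ q' ∈ Ico 0 M,
          ((ind ctr A σ l q q' u v : ℕ) : ℝ) * f u v := by
            apply sum_congr rfl; intro u _; rw [sum_comm]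
      _ = ∑ l ∈ Ico (-T) (M + T), ∑ u ∈ B, ∑ v ∈ B, ∑ q ∈ Ico 0 M, ∑ q' ∈ Ico 0 M,
          ((ind ctr A σ l q q' u v : ℕ) : ℝ) * f u v := by rw [sum_comm]
      _ = ∑ l ∈ Ico (-T) (M + T), ∑ u ∈ B, ∑ q ∈ Ico 0 M, ∑ v ∈ B, ∑ q' ∈ Ico 0 M,
          ((ind ctr A σ l q q' u v : ℕ) : ℝ) * f u v := by
            apply sum_congr rfl; intro l _; apply sum_congr rfl; intro u _; rw [sum_comm]
      _ = ∑ l ∈ Ico (-T) (M + T), ∑ q ∈ Ico 0 M, ∑ u ∈ B, ∑ v ∈ B, ∑ q' ∈ Ico 0 M,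
          ((ind ctr A σ l q q' u v : ℕ) : ℝ) * f u v := by
            apply sum_congr rfl; intro l _; rw [sum_comm]
      _ = ∑ l ∈ Ico (-T) (M + T), ∑ q ∈ Ico 0 M, ∑ u ∈ B, ∑ q' ∈ Ico 0 M, ∑ v ∈ B,
          ((ind ctr A σ l q q' u v : ℕ) : ℝ) * f u v := by
            apply sum_congr rfl; intro l _; apply sum_congr rfl; intro q _
            apply sum_congr rfl; intro u _; rw [sum_comm]
      _ = _ := by
            apply sum_congr rfl; intro l _; apply sum_congr rfl; intro q _; rw [sum_comm]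
  rw [h2]
  apply sum_congr rfl; intro l _
  apply sum_congr rfl; intro q hq
  apply sum_congr rfl; intro q' hq'
  unfold ind
  exact ind_sum B _ _ (hB q hq _) (hB q' hq' _) f

lemma Fun_col (ctr A : ℤ → ℤ) (σ M T : ℤ) (B : Finset ℤ)
    (hB : ∀ q ∈ Ico 0 M, ∀ k, cell ctr A σ q k ⊆ B) (x : ℤ → ℝ) :
    Fun B (fun u v => colMult ctr A σ M T u v) x
      = ∑ l ∈ Ico (-T) (M + T), ∑ q ∈ Ico 0 M, ∑ q' ∈ Ico 0 M,
          ∑ u ∈ cell ctr A σ q (l - q), ∑ v ∈ cell ctr A σ q' (l - q'), pairf x u v := by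
  unfold Fun pairf
  exact colMult_sum ctr A σ M T B hB (fun u v => x u - x v - x u * x v)

end Pool.Agent.Dicut
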