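import Mathlib
import Pool.Agent.Dicut.Step

set_option autoImplicit false

namespace Pool.Agent.Dicut

open Finset

/-- The data of a chain of rows: row `q` (for `0 ≤ q < M`) is the interval
`[ctr q - A q, ctr q + A q)`, the rows are disjoint and increasing, and all cells fit. -/
structure Chain (M : ℤ) (a b : ℤ) (ctr A : ℤ → ℤ) : Prop where
  nonneg : ∀ q, 0 ≤ A q
  supp : ∀ q, q < 0 ∨ M ≤ q → A q = 0
  ord : ∀ q ∈ Ico 0 M, ∀ q' ∈ Ico 0 M, q < q' → ctr q + A q ≤ ctr q' - A q'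
  box : ∀ q ∈ Ico 0 M, a ≤ ctr q - A q ∧ ctr q + A q ≤ b

lemma cl_zero (y : ℤ) : cl 0 y = 0 := by unfold cl; omega

lemma AB_eq (σ : ℤ) (A : ℤ → ℤ) (M q l : ℤ) (hq : 0 ≤ q) (hqM : q < M)
    (hsupp : ∀ q, q < 0 ∨ M ≤ q → A q = 0) :
    ∑ j ∈ Ico (q + 1) M, (cl (A j) (σ * (l - j + 1)) - cl (A j) (σ * (l - j)))
      - ∑ j ∈ Ico 0 q, (cl (A j) (σ * (l - j + 1)) - cl (A j) (σ * (l - j)))
      = cl (A q) (σ * (l - q)) + cl (A q) (σ * (l - q + 1)) + RR σ A M q l := by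
  rw [after_sum σ A l q M (by omega), before_sum σ A l q hq, hsupp M (Or.inr le_rfl),
    hsupp (-1) (Or.inl (by norm_num)), cl_zero, cl_zero]
  unfold RR
  ring

lemma card_Ico_real (a b : ℤ) (h : a ≤ b) : ((Ico a b).card : ℝ) = (b : ℝ) - a := by
  rw [Int.card_Ico]
  have h : ((b - a).toNat : ℤ) = b - a := Int.toNat_of_nonneg (by omega)
  exact_mod_cast h

lemma abs_sum_x_le (x : ℤ → ℝ) (hx : ∀ v, x v * x v = 1) (a b : ℤ) (h : a ≤ b) :
    |∑ v ∈ Ico a b, x v| ≤ (b : ℝ) - a := by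
  rw [← card_Ico_real a b h]
  refine le_trans (abs_sum_le_sum_abs _ _) ?_
  have h1 : ∀ v ∈ Ico a b, |x v| ≤ 1 := by
    intro v _
    have := hx v
    rw [abs_le]
    constructor <;> nlinarith
  calc ∑ v ∈ Ico a b, |x v| ≤ ∑ v ∈ Ico a b, (1 : ℝ) := sum_le_sum h1
    _ = _ := by simp

theorem step (M a b T σ : ℤ) (ctr A : ℤ → ℤ) (hch : Chain M a b ctr A) (hσ : 0 ≤ σ)
    (hT0 : 0 ≤ T) (hT : ∀ q, A q ≤ σ * T) (x : ℤ → ℝ) (hx : ∀ v, x v * x v = 1) :
    (∑ q ∈ Ico 0 M, ∑ v ∈ Ico (ctr q - A q) (ctr q + A q), (2 * (ctr q : ℝ) - 1 - 2 * v) * x v)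
      + Fun (Ico a b) (fun u v => colMult ctr A σ M T u v) x
    ≤ 2 * (∑ k ∈ Ico (-T) T, ∑ q ∈ Ico 0 M, ∑ v ∈ cell ctr A σ q k,
          ((cut ctr A σ q k : ℝ) + cut ctr A σ q (k + 1) - 1 - 2 * v) * x v)
      + (1 / 2) * ∑ l ∈ Ico (-T) (M + T), ((CC σ A M l : ℝ)) ^ 2
      + ∑ q ∈ Ico 0 M, ∑ k ∈ Ico (-T) T, ((cut ctr A σ q (k + 1) : ℝ) - cut ctr A σ q k) *
          |(RR σ A M q (q + k) : ℝ) - CC σ A M (q + k)|
      + ∑ q ∈ Ico 0 M, (A q : ℝ) := by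
  have hcellsub : ∀ q ∈ Ico 0 M, ∀ k, cell ctr A σ q k ⊆ Ico a b := by
    intro q hq k v hv
    unfold cell at hv
    have h1 := mem_Ico.mp hv
    have h2 := cut_ge ctr A σ q k
    have h3 := cut_le ctr A σ q (k + 1) (hch.nonneg q)
    have h4 := hch.box q hq
    rw [mem_Ico]; omega
  have hcutle : ∀ q k, cut ctr A σ q k ≤ cut ctr A σ q (k + 1) := fun q k =>
    cut_mono ctr A σ hσ q (by omega)
  -- cells outside the range are empty
  have hempty : ∀ q k, k < -T ∨ T ≤ k → cut ctr A σ q k = cut ctr A σ q (k + 1) := by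
    intro q k hk
    rcases hk with hk | hk
    · rw [cut_bot ctr A σ q T k hσ (hT q) (by omega), cut_bot ctr A σ q T (k + 1) hσ (hT q) (by omega)]
    · rw [cut_top ctr A σ q T k hσ (hch.nonneg q) (hT q) (by omega),
        cut_top ctr A σ q T (k + 1) hσ (hch.nonneg q) (hT q) (by omega)]
  -- rewrite the row sum
  have hrow : (∑ q ∈ Ico 0 M, ∑ v ∈ Ico (ctr q - A q) (ctr q + A q), (2 * (ctr q : ℝ) - 1 - 2 * v) * x v)
      = ∑ l ∈ Ico (-T) (M + T), ∑ q ∈ Ico 0 M, ∑ v ∈ cell ctr A σ q (l - q),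
          (2 * (ctr q : ℝ) - 1 - 2 * v) * x v := by
    rw [sum_comm]
    apply sum_congr rfl
    intro q hq
    have hq' := mem_Ico.mp hq
    rw [sum_row ctr A σ q T hσ (hch.nonneg q) hT0 (hT q) (fun v => (2 * (ctr q : ℝ) - 1 - 2 * v) * x v)]
    rw [← sum_label M T q hq'.1 hq'.2 (fun k => ∑ v ∈ cell ctr A σ q k, (2 * (ctr q : ℝ) - 1 - 2 * v) * x v)]
    intro k hk
    unfold cell
    rw [← hempty q k hk]
    simp
  have hcol := Fun_col ctr A σ M T (Ico a b) hcellsub x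
  -- blocks for each label
  have hblock : ∀ l ∈ Ico (-T) (M + T),
      ∑ q ∈ Ico 0 M, ∑ q' ∈ Ico 0 M,
          ∑ u ∈ cell ctr A σ q (l - q), ∑ v ∈ cell ctr A σ q' (l - q'), pairf x u v
      = ∑ q ∈ Ico 0 M, (∑ u ∈ cell ctr A σ q (l - q), x u) *
            ((cut ctr A σ q (l - q) : ℝ) + cut ctr A σ q (l - q + 1) - 2 * ctr q + RR σ A M q l)
        - (1 / 2) * (∑ q ∈ Ico 0 M, ∑ u ∈ cell ctr A σ q (l - q), x u) ^ 2
        + ∑ q ∈ Ico 0 M, (∑ v ∈ cell ctr A σ q (l - q),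
            ((cut ctr A σ q (l - q) : ℝ) + cut ctr A σ q (l - q + 1) - 1 - 2 * v) * x v
            + ((cut ctr A σ q (l - q + 1) : ℝ) - cut ctr A σ q (l - q)) / 2) := by
    intro l _
    unfold cell
    rw [blocks x hx (fun q => cut ctr A σ q (l - q)) (fun q => cut ctr A σ q (l - q + 1)) (Ico 0 M)
      (fun q _ => hcutle q (l - q))
      (fun q hq q' hq' hqq' => by
        have h1 := cut_le ctr A σ q (l - q + 1) (hch.nonneg q)
        have h2 := cut_ge ctr A σ q' (l - q')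
        have h3 := hch.ord q hq q' hq' hqq'
        omega)]
    congr 2
    apply sum_congr rfl
    intro q hq
    have hq' := mem_Ico.mp hq
    congr 1
    have hf1 : (Ico 0 M).filter (fun q' => q < q') = Ico (q + 1) M := by
      ext z; simp only [mem_filter, mem_Ico]; omega
    have hf2 : (Ico 0 M).filter (fun q' => q' < q) = Ico 0 q := by
      ext z; simp only [mem_filter, mem_Ico]; omega
    rw [hf1, hf2]
    have hAB := AB_eq σ A M q l hq'.1 hq'.2 hch.supp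
    have hcast : ((∑ j ∈ Ico (q + 1) M, (cl (A j) (σ * (l - j + 1)) - cl (A j) (σ * (l - j)))
      - ∑ j ∈ Ico 0 q, (cl (A j) (σ * (l - j + 1)) - cl (A j) (σ * (l - j))) : ℤ) : ℝ)
      = ((cl (A q) (σ * (l - q)) + cl (A q) (σ * (l - q + 1)) + RR σ A M q l : ℤ) : ℝ) := by
      rw [hAB]
    push_cast at hcast
    have hs1 : ∀ s : Finset ℤ, ∑ q' ∈ s, ((cut ctr A σ q' (l - q' + 1) : ℝ) - cut ctr A σ q' (l - q'))
        = ∑ q' ∈ s, ((cl (A q') (σ * (l - q' + 1)) : ℝ) - cl (A q') (σ * (l - q'))) := by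
      intro s
      apply sum_congr rfl
      intro q' _
      unfold cut
      push_cast
      ring
    rw [hs1, hs1, hcast]
    unfold cut
    push_cast
    ring
  rw [hrow, hcol, sum_congr rfl hblock, ← sum_add_distrib]
  -- bound each label
  have hlab : ∀ l ∈ Ico (-T) (M + T),
      (∑ q ∈ Ico 0 M, ∑ v ∈ cell ctr A σ q (l - q), (2 * (ctr q : ℝ) - 1 - 2 * v) * x v)
      + (∑ q ∈ Ico 0 M, (∑ u ∈ cell ctr A σ q (l - q), x u) *
            ((cut ctr A σ q (l - q) : ℝ) + cut ctr A σ q (l - q + 1) - 2 * ctr q + RR σ A M q l)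
        - (1 / 2) * (∑ q ∈ Ico 0 M, ∑ u ∈ cell ctr A σ q (l - q), x u) ^ 2
        + ∑ q ∈ Ico 0 M, (∑ v ∈ cell ctr A σ q (l - q),
            ((cut ctr A σ q (l - q) : ℝ) + cut ctr A σ q (l - q + 1) - 1 - 2 * v) * x v
            + ((cut ctr A σ q (l - q + 1) : ℝ) - cut ctr A σ q (l - q)) / 2))
      ≤ (1 / 2) * ((CC σ A M l : ℝ)) ^ 2
        + ∑ q ∈ Ico 0 M, (2 * ∑ v ∈ cell ctr A σ q (l - q),
            ((cut ctr A σ q (l - q) : ℝ) + cut ctr A σ q (l - q + 1) - 1 - 2 * v) * x v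
          + ((cut ctr A σ q (l - q + 1) : ℝ) - cut ctr A σ q (l - q)) * |(RR σ A M q l : ℝ) - CC σ A M l|
          + ((cut ctr A σ q (l - q + 1) : ℝ) - cut ctr A σ q (l - q)) / 2) := by
    intro l _
    set X : ℤ → ℝ := fun q => ∑ u ∈ cell ctr A σ q (l - q), x u with hX
    set c : ℤ → ℝ := fun q => (cut ctr A σ q (l - q) : ℝ) with hc
    set c' : ℤ → ℝ := fun q => (cut ctr A σ q (l - q + 1) : ℝ) with hc'
    have hXabs : ∀ q, |X q| ≤ c' q - c q := by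
      intro q
      exact abs_sum_x_le x hx _ _ (hcutle q (l - q))
    have hterm : ∀ q ∈ Ico 0 M,
        (∑ v ∈ cell ctr A σ q (l - q), (2 * (ctr q : ℝ) - 1 - 2 * v) * x v)
        + X q * (c q + c' q - 2 * ctr q + RR σ A M q l)
        + (∑ v ∈ cell ctr A σ q (l - q), (c q + c' q - 1 - 2 * v) * x v)
        = 2 * (∑ v ∈ cell ctr A σ q (l - q), (c q + c' q - 1 - 2 * v) * x v)
          + CC σ A M l * X q + X q * ((RR σ A M q l : ℝ) - CC σ A M l) := by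
      intro q _
      have h1 : (∑ v ∈ cell ctr A σ q (l - q), (2 * (ctr q : ℝ) - 1 - 2 * v) * x v)
          = (∑ v ∈ cell ctr A σ q (l - q), (c q + c' q - 1 - 2 * v) * x v)
            + (2 * ctr q - c q - c' q) * X q := by
        rw [hX, mul_sum, ← sum_add_distrib]
        apply sum_congr rfl
        intro v _
        ring
      rw [h1]; ring
    have hsum : (∑ q ∈ Ico 0 M, ∑ v ∈ cell ctr A σ q (l - q), (2 * (ctr q : ℝ) - 1 - 2 * v) * x v)
      + (∑ q ∈ Ico 0 M, X q * (c q + c' q - 2 * ctr q + RR σ A M q l)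
        - (1 / 2) * (∑ q ∈ Ico 0 M, X q) ^ 2
        + ∑ q ∈ Ico 0 M, (∑ v ∈ cell ctr A σ q (l - q), (c q + c' q - 1 - 2 * v) * x v
            + (c' q - c q) / 2))
      = ∑ q ∈ Ico 0 M, (2 * (∑ v ∈ cell ctr A σ q (l - q), (c q + c' q - 1 - 2 * v) * x v)
          + CC σ A M l * X q + X q * ((RR σ A M q l : ℝ) - CC σ A M l) + (c' q - c q) / 2)
        - (1 / 2) * (∑ q ∈ Ico 0 M, X q) ^ 2 := by
      have h2 : ∀ q ∈ Ico 0 M, (2 * (∑ v ∈ cell ctr A σ q (l - q), (c q + c' q - 1 - 2 * v) * x v)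
          + CC σ A M l * X q + X q * ((RR σ A M q l : ℝ) - CC σ A M l) + (c' q - c q) / 2)
          = (∑ v ∈ cell ctr A σ q (l - q), (2 * (ctr q : ℝ) - 1 - 2 * v) * x v)
        + X q * (c q + c' q - 2 * ctr q + RR σ A M q l)
        + ((∑ v ∈ cell ctr A σ q (l - q), (c q + c' q - 1 - 2 * v) * x v) + (c' q - c q) / 2) := by
        intro q hq
        rw [← hterm q hq]; ring
      have h5 : ∑ q ∈ Ico 0 M, ((∑ v ∈ cell ctr A σ q (l - q), (2 * (ctr q : ℝ) - 1 - 2 * v) * x v)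
        + X q * (c q + c' q - 2 * ctr q + RR σ A M q l)
        + ((∑ v ∈ cell ctr A σ q (l - q), (c q + c' q - 1 - 2 * v) * x v) + (c' q - c q) / 2))
        = ∑ q ∈ Ico 0 M, (∑ v ∈ cell ctr A σ q (l - q), (2 * (ctr q : ℝ) - 1 - 2 * v) * x v)
        + ∑ q ∈ Ico 0 M, X q * (c q + c' q - 2 * ctr q + RR σ A M q l)
        + ∑ q ∈ Ico 0 M, ((∑ v ∈ cell ctr A σ q (l - q), (c q + c' q - 1 - 2 * v) * x v) + (c' q - c q) / 2) := by
        rw [sum_add_distrib, sum_add_distrib]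
      rw [sum_congr rfl h2, h5]
      ring
    have hgoal : ∑ q ∈ Ico 0 M, (2 * (∑ v ∈ cell ctr A σ q (l - q), (c q + c' q - 1 - 2 * v) * x v)
          + CC σ A M l * X q + X q * ((RR σ A M q l : ℝ) - CC σ A M l) + (c' q - c q) / 2)
        - (1 / 2) * (∑ q ∈ Ico 0 M, X q) ^ 2
        ≤ (1 / 2) * ((CC σ A M l : ℝ)) ^ 2
        + ∑ q ∈ Ico 0 M, (2 * (∑ v ∈ cell ctr A σ q (l - q), (c q + c' q - 1 - 2 * v) * x v)
          + (c' q - c q) * |(RR σ A M q l : ℝ) - CC σ A M l| + (c' q - c q) / 2) := by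
      have h3 : ∀ q ∈ Ico 0 M, X q * ((RR σ A M q l : ℝ) - CC σ A M l)
          ≤ (c' q - c q) * |(RR σ A M q l : ℝ) - CC σ A M l| := by
        intro q _
        calc X q * ((RR σ A M q l : ℝ) - CC σ A M l) ≤ |X q * ((RR σ A M q l : ℝ) - CC σ A M l)| := le_abs_self _
          _ = |X q| * |(RR σ A M q l : ℝ) - CC σ A M l| := abs_mul _ _
          _ ≤ _ := mul_le_mul_of_nonneg_right (hXabs q) (abs_nonneg _)
      have h4 : ∑ q ∈ Ico 0 M, (2 * (∑ v ∈ cell ctr A σ q (l - q), (c q + c' q - 1 - 2 * v) * x v)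
          + CC σ A M l * X q + X q * ((RR σ A M q l : ℝ) - CC σ A M l) + (c' q - c q) / 2)
          ≤ ∑ q ∈ Ico 0 M, (2 * (∑ v ∈ cell ctr A σ q (l - q), (c q + c' q - 1 - 2 * v) * x v)
          + (c' q - c q) * |(RR σ A M q l : ℝ) - CC σ A M l| + (c' q - c q) / 2)
            + CC σ A M l * ∑ q ∈ Ico 0 M, X q := by
        rw [mul_sum, ← sum_add_distrib]
        apply sum_le_sum
        intro q hq
        have := h3 q hq
        linarith
      nlinarith [sq_nonneg ((CC σ A M l : ℝ) - ∑ q ∈ Ico 0 M, X q)]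
    rw [hsum]
    exact hgoal
  refine le_trans (sum_le_sum hlab) ?_
  rw [sum_add_distrib, ← mul_sum]
  -- reorganize
  have hre : ∑ l ∈ Ico (-T) (M + T), ∑ q ∈ Ico 0 M, (2 * ∑ v ∈ cell ctr A σ q (l - q),
            ((cut ctr A σ q (l - q) : ℝ) + cut ctr A σ q (l - q + 1) - 1 - 2 * v) * x v
          + ((cut ctr A σ q (l - q + 1) : ℝ) - cut ctr A σ q (l - q)) * |(RR σ A M q l : ℝ) - CC σ A M l|
          + ((cut ctr A σ q (l - q + 1) : ℝ) - cut ctr A σ q (l - q)) / 2)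
      = ∑ q ∈ Ico 0 M, ∑ k ∈ Ico (-T) T, (2 * ∑ v ∈ cell ctr A σ q k,
            ((cut ctr A σ q k : ℝ) + cut ctr A σ q (k + 1) - 1 - 2 * v) * x v
          + ((cut ctr A σ q (k + 1) : ℝ) - cut ctr A σ q k) * |(RR σ A M q (q + k) : ℝ) - CC σ A M (q + k)|
          + ((cut ctr A σ q (k + 1) : ℝ) - cut ctr A σ q k) / 2) := by
    rw [sum_comm]
    apply sum_congr rfl
    intro q hq
    have hq' := mem_Ico.mp hq
    rw [← sum_label M T q hq'.1 hq'.2 (fun k => 2 * ∑ v ∈ cell ctr A σ q k,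
            ((cut ctr A σ q k : ℝ) + cut ctr A σ q (k + 1) - 1 - 2 * v) * x v
          + ((cut ctr A σ q (k + 1) : ℝ) - cut ctr A σ q k) * |(RR σ A M q (q + k) : ℝ) - CC σ A M (q + k)|
          + ((cut ctr A σ q (k + 1) : ℝ) - cut ctr A σ q k) / 2)]
    · apply sum_congr rfl
      intro l _
      have : q + (l - q) = l := by ring
      simp only [this]
    · intro k hk
      unfold cell
      rw [← hempty q k hk]
      simp
  rw [hre]
  have hlast : ∀ q ∈ Ico 0 M, ∑ k ∈ Ico (-T) T, ((cut ctr A σ q (k + 1) : ℝ) - cut ctr A σ q k) / 2 = A q := by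
    intro q _
    rw [← sum_div]
    have h1 := tele_Ico (fun k => cut ctr A σ q k) (-T) T (by omega)
    have h2 : (∑ k ∈ Ico (-T) T, ((cut ctr A σ q (k + 1) : ℝ) - cut ctr A σ q k))
        = ((cut ctr A σ q T - cut ctr A σ q (-T) : ℤ) : ℝ) := by
      rw [← h1]; push_cast; rfl
    rw [h2, cut_top ctr A σ q T T hσ (hch.nonneg q) (hT q) le_rfl,
      cut_bot ctr A σ q T (-T) hσ (hT q) le_rfl]
    push_cast
    ring
  have hfin : ∑ q ∈ Ico 0 M, ∑ k ∈ Ico (-T) T, (2 * ∑ v ∈ cell ctr A σ q k,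
            ((cut ctr A σ q k : ℝ) + cut ctr A σ q (k + 1) - 1 - 2 * v) * x v
          + ((cut ctr A σ q (k + 1) : ℝ) - cut ctr A σ q k) * |(RR σ A M q (q + k) : ℝ) - CC σ A M (q + k)|
          + ((cut ctr A σ q (k + 1) : ℝ) - cut ctr A σ q k) / 2)
      = 2 * (∑ k ∈ Ico (-T) T, ∑ q ∈ Ico 0 M, ∑ v ∈ cell ctr A σ q k,
          ((cut ctr A σ q k : ℝ) + cut ctr A σ q (k + 1) - 1 - 2 * v) * x v)
      + ∑ q ∈ Ico 0 M, ∑ k ∈ Ico (-T) T, ((cut ctr A σ q (k + 1) : ℝ) - cut ctr A σ q k) *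
          |(RR σ A M q (q + k) : ℝ) - CC σ A M (q + k)|
      + ∑ q ∈ Ico 0 M, (A q : ℝ) := by
    rw [sum_comm (s := Ico (-T) T), mul_sum, ← sum_congr rfl hlast, ← sum_add_distrib, ← sum_add_distrib]
    apply sum_congr rfl
    intro q _
    rw [sum_add_distrib, sum_add_distrib, mul_sum]
  rw [hfin]
  linarith

end Pool.Agent.Dicut
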