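import Mathlib
import Pool.Agent.Dicut.Step2

set_option autoImplicit false

namespace Pool.Agent.Dicut

open Finset

/-- windowed Cauchy-Schwarz -/
lemma window (f : ℤ → ℝ) (J I : Finset ℤ) (hf : ∀ j, j ∉ J → f j = 0) (a b : ℤ) (hab : a ≤ b) :
    ∑ l ∈ I, (∑ j ∈ Ico (l + a) (l + b), f j) ^ 2 ≤ ((b : ℝ) - a) ^ 2 * ∑ j ∈ J, f j ^ 2 := by
  have hcard : ∀ l : ℤ, ((Ico (l + a) (l + b)).card : ℝ) = (b : ℝ) - a := by
    intro l
    rw [card_Ico_real _ _ (by omega)]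
    push_cast; ring
  have h1 : ∀ l ∈ I, (∑ j ∈ Ico (l + a) (l + b), f j) ^ 2
      ≤ ((b : ℝ) - a) * ∑ i ∈ Ico a b, f (l + i) ^ 2 := by
    intro l _
    have h2 := sq_sum_le_card_mul_sum_sq (s := Ico (l + a) (l + b)) (f := f)
    rw [hcard l] at h2
    have h3 : ∑ j ∈ Ico (l + a) (l + b), f j ^ 2 = ∑ i ∈ Ico a b, f (l + i) ^ 2 := by
      apply sum_nbij' (fun j => j - l) (fun i => l + i)
      · intro j hj; simp only [mem_Ico] at hj ⊢; omega
      · intro j hj; simp only [mem_Ico] at hj ⊢; omega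
      · intro j _; ring
      · intro j _; ring
      · intro j _
        have : l + (j - l) = j := by ring
        rw [this]
    rw [h3] at h2
    exact h2
  have hba : 0 ≤ (b : ℝ) - a := by
    have : (a : ℝ) ≤ b := by exact_mod_cast hab
    linarith
  calc ∑ l ∈ I, (∑ j ∈ Ico (l + a) (l + b), f j) ^ 2
      ≤ ∑ l ∈ I, ((b : ℝ) - a) * ∑ i ∈ Ico a b, f (l + i) ^ 2 := sum_le_sum h1
    _ = ((b : ℝ) - a) * ∑ i ∈ Ico a b, ∑ l ∈ I, f (l + i) ^ 2 := by rw [← mul_sum, sum_comm]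
    _ ≤ ((b : ℝ) - a) * ∑ i ∈ Ico a b, ∑ j ∈ J, f j ^ 2 := by
        apply mul_le_mul_of_nonneg_left _ hba
        apply sum_le_sum
        intro i _
        -- injective shift
        have h4 : ∑ l ∈ I, f (l + i) ^ 2 = ∑ j ∈ I.image (fun l => l + i), f j ^ 2 := by
          rw [sum_image]
          intro x _ y _ hxy
          simpa using hxy
        rw [h4]
        have h5 : ∑ j ∈ I.image (fun l => l + i), f j ^ 2
            = ∑ j ∈ (I.image (fun l => l + i)).filter (fun j => j ∈ J), f j ^ 2 := by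
          symm
          apply sum_subset (filter_subset _ _)
          intro j hj hj'
          have : j ∉ J := by
            intro h; exact hj' (mem_filter.mpr ⟨hj, h⟩)
          rw [hf j this]; ring
        rw [h5]
        apply sum_le_sum_of_subset_of_nonneg
        · intro j hj; exact (mem_filter.mp hj).2
        · intro j _ _; positivity
    _ = ((b : ℝ) - a) ^ 2 * ∑ j ∈ J, f j ^ 2 := by
        rw [sum_const, nsmul_eq_mul, card_Ico_real a b hab]; ring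

lemma dA_zero_outside (A : ℤ → ℤ) (M : ℤ) (hsupp : ∀ q, q < 0 ∨ M ≤ q → A q = 0) (j : ℤ)
    (hj : j ∉ Ico (-1) M) : dA A j = 0 := by
  have h : ¬ (-1 ≤ j ∧ j < M) := by simpa [mem_Ico] using hj
  unfold dA
  rw [hsupp j (by omega), hsupp (j + 1) (by omega)]
  simp

lemma len_right (ctr A : ℤ → ℤ) (σ q k : ℤ) (hσ : 0 ≤ σ) (hA : 0 ≤ A q) (hk : 0 ≤ k) :
    cut ctr A σ q (k + 1) - cut ctr A σ q k = len σ (A q) k := by
  unfold cut cl len
  have h1 : 0 ≤ σ * k := mul_nonneg hσ hk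
  have h2 : σ * (k + 1) = σ * k + σ := by ring
  omega

lemma len_left (ctr A : ℤ → ℤ) (σ q k : ℤ) (hσ : 0 ≤ σ) (hA : 0 ≤ A q) (hk : 0 ≤ k) :
    cut ctr A σ q (-1 - k + 1) - cut ctr A σ q (-1 - k) = len σ (A q) k := by
  unfold cut cl len
  have h1 : 0 ≤ σ * k := mul_nonneg hσ hk
  have h2 : σ * (k + 1) = σ * k + σ := by ring
  have h3 : σ * (-1 - k + 1) = - (σ * k) := by ring
  have h4 : σ * (-1 - k) = - (σ * k) - σ := by ring
  omega

lemma row_err (ctr A : ℤ → ℤ) (σ M T q : ℤ) (hσ : 0 ≤ σ) (hA : ∀ j, 0 ≤ A j) (hT : 0 ≤ T)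
    (hq : q ∈ Ico 0 M) :
    ∑ k ∈ Ico (-T) T, ((cut ctr A σ q (k + 1) : ℝ) - cut ctr A σ q k) *
          |(RR σ A M q (q + k) : ℝ) - CC σ A M (q + k)|
      ≤ 2 * (∑ j ∈ Ico (q + 0) (q + T), (dA A j : ℝ)) ^ 2 + 2 * (∑ j ∈ Ico (q + -T) (q + 0), (dA A j : ℝ)) ^ 2 := by
  have hq' := mem_Ico.mp hq
  have hsplit : Ico (-T) T = Ico (-T) 0 ∪ Ico 0 T := by
    ext z; simp only [mem_Ico, mem_union]; omega
  have hd : Disjoint (Ico (-T) 0) (Ico 0 T) := by
    rw [disjoint_left]; intro z; simp only [mem_Ico]; omega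
  rw [hsplit, sum_union hd, add_comm]
  apply add_le_add
  · have h1 := row_right σ hσ A hA M q T (by omega) (by omega) hT
    have h2 : ∑ k ∈ Ico 0 T, ((cut ctr A σ q (k + 1) : ℝ) - cut ctr A σ q k) *
          |(RR σ A M q (q + k) : ℝ) - CC σ A M (q + k)|
        = ((∑ k ∈ Ico 0 T, len σ (A q) k * |RR σ A M q (q + k) - CC σ A M (q + k)| : ℤ) : ℝ) := by
      push_cast
      apply sum_congr rfl
      intro k hk
      have hk' := mem_Ico.mp hk
      rw [← len_right ctr A σ q k hσ (hA q) hk'.1]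
      push_cast
      ring
    rw [h2]
    have h3 : ((∑ k ∈ Ico 0 T, len σ (A q) k * |RR σ A M q (q + k) - CC σ A M (q + k)| : ℤ) : ℝ)
        ≤ ((2 * (∑ j ∈ Ico q (q + T), dA A j) ^ 2 : ℤ) : ℝ) := by exact_mod_cast h1
    refine le_trans h3 ?_
    push_cast
    rw [add_zero]
  · have h1 := row_left σ hσ A hA M q T (by omega) (by omega) hT
    have h2 : ∑ k ∈ Ico (-T) 0, ((cut ctr A σ q (k + 1) : ℝ) - cut ctr A σ q k) *
          |(RR σ A M q (q + k) : ℝ) - CC σ A M (q + k)|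
        = ((∑ k ∈ Ico 0 T, len σ (A q) k * |RR σ A M q (q - 1 - k) - CC σ A M (q - 1 - k)| : ℤ) : ℝ) := by
      push_cast
      apply sum_nbij' (fun k => -1 - k) (fun k => -1 - k)
      · intro k hk; simp only [mem_Ico] at hk ⊢; omega
      · intro k hk; simp only [mem_Ico] at hk ⊢; omega
      · intro k _; ring
      · intro k _; ring
      · intro k hk
        have hk' := mem_Ico.mp hk
        have h4 := len_left ctr A σ q (-1 - k) hσ (hA q) (by omega)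
        have h5 : -1 - (-1 - k) = k := by ring
        rw [h5] at h4
        rw [← h4]
        have h6 : q - 1 - (-1 - k) = q + k := by ring
        rw [h6]
        push_cast
        ring
    rw [h2]
    have h3 : ((∑ k ∈ Ico 0 T, len σ (A q) k * |RR σ A M q (q - 1 - k) - CC σ A M (q - 1 - k)| : ℤ) : ℝ)
        ≤ ((2 * (∑ j ∈ Ico (q - T) q, dA A j) ^ 2 : ℤ) : ℝ) := by exact_mod_cast h1
    refine le_trans h3 ?_
    push_cast
    rw [add_zero, sub_eq_add_neg]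

/-- intermediate form of the step, with windowed sums of the variation of `A` -/
theorem step_windows (M a b T σ : ℤ) (ctr A : ℤ → ℤ) (hch : Chain M a b ctr A) (hσ : 0 ≤ σ)
    (hT0 : 1 ≤ T) (hT : ∀ q, A q ≤ σ * T) (x : ℤ → ℝ) (hx : ∀ v, x v * x v = 1) :
    (∑ q ∈ Ico 0 M, ∑ v ∈ Ico (ctr q - A q) (ctr q + A q), (2 * (ctr q : ℝ) - 1 - 2 * v) * x v)
      + Fun (Ico a b) (fun u v => colMult ctr A σ M T u v) x
    ≤ 2 * (∑ k ∈ Ico (-T) T, ∑ q ∈ Ico 0 M, ∑ v ∈ cell ctr A σ q k,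
          ((cut ctr A σ q k : ℝ) + cut ctr A σ q (k + 1) - 1 - 2 * v) * x v)
      + 2 * ∑ l ∈ Ico (-T) (M + T), (∑ j ∈ Ico (l + (-T + 1)) (l + T), (dA A j : ℝ)) ^ 2
      + ∑ q ∈ Ico 0 M, (2 * (∑ j ∈ Ico (q + 0) (q + T), (dA A j : ℝ)) ^ 2
          + 2 * (∑ j ∈ Ico (q + -T) (q + 0), (dA A j : ℝ)) ^ 2)
      + ∑ q ∈ Ico 0 M, (A q : ℝ) := by
  by_cases hM : 0 ≤ M
  · refine le_trans (step M a b T σ ctr A hch hσ (by omega) hT x hx) ?_
    have h1 : (1 / 2 : ℝ) * ∑ l ∈ Ico (-T) (M + T), ((CC σ A M l : ℝ)) ^ 2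
        ≤ 2 * ∑ l ∈ Ico (-T) (M + T), (∑ j ∈ Ico (l + (-T + 1)) (l + T), (dA A j : ℝ)) ^ 2 := by
      rw [mul_sum, mul_sum]
      apply sum_le_sum
      intro l _
      have h2 := abs_CC_le σ hσ A M l T hT0 hch.supp hT
      have h3 : |(CC σ A M l : ℝ)| ≤ 2 * ∑ j ∈ Ico (l + (-T + 1)) (l + T), (dA A j : ℝ) := by
        have h4 : ((|CC σ A M l| : ℤ) : ℝ) ≤ ((2 * ∑ j ∈ Ico (l - T + 1) (l + T), dA A j : ℤ) : ℝ) := by
          exact_mod_cast h2
        push_cast at h4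
        have h5 : l - T + 1 = l + (-T + 1) := by ring
        rw [h5] at h4
        exact h4
      have h6 : (CC σ A M l : ℝ) ^ 2 ≤ (2 * ∑ j ∈ Ico (l + (-T + 1)) (l + T), (dA A j : ℝ)) ^ 2 := by
        rw [← sq_abs]
        exact pow_le_pow_left₀ (abs_nonneg _) h3 2
      nlinarith [h6]
    have h2 : ∑ q ∈ Ico 0 M, ∑ k ∈ Ico (-T) T, ((cut ctr A σ q (k + 1) : ℝ) - cut ctr A σ q k) *
          |(RR σ A M q (q + k) : ℝ) - CC σ A M (q + k)|
        ≤ ∑ q ∈ Ico 0 M, (2 * (∑ j ∈ Ico (q + 0) (q + T), (dA A j : ℝ)) ^ 2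
          + 2 * (∑ j ∈ Ico (q + -T) (q + 0), (dA A j : ℝ)) ^ 2) :=
      sum_le_sum (fun q hq => row_err ctr A σ M T q hσ hch.nonneg (by omega) hq)
    linarith
  · -- no rows
    have hM' : Ico (0 : ℤ) M = ∅ := by
      ext z; simp only [mem_Ico, notMem_empty, iff_false]; omega
    have h0 : Fun (Ico a b) (fun u v => colMult ctr A σ M T u v) x = 0 := by
      unfold Fun colMult
      rw [hM']
      simp
    rw [h0, hM']
    simp only [sum_empty, sum_const_zero, mul_zero, add_zero, zero_add]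
    positivity

/-- the variation energy of the half-lengths -/
noncomputable def energy (A : ℤ → ℤ) (M : ℤ) : ℝ := ∑ j ∈ Ico (-1) M, (dA A j : ℝ) ^ 2

theorem step_energy (M a b T σ : ℤ) (ctr A : ℤ → ℤ) (hch : Chain M a b ctr A) (hσ : 0 ≤ σ)
    (hT0 : 1 ≤ T) (hT : ∀ q, A q ≤ σ * T) (x : ℤ → ℝ) (hx : ∀ v, x v * x v = 1) :
    (∑ q ∈ Ico 0 M, ∑ v ∈ Ico (ctr q - A q) (ctr q + A q), (2 * (ctr q : ℝ) - 1 - 2 * v) * x v)
      + Fun (Ico a b) (fun u v => colMult ctr A σ M T u v) x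
    ≤ 2 * (∑ k ∈ Ico (-T) T, ∑ q ∈ Ico 0 M, ∑ v ∈ cell ctr A σ q k,
          ((cut ctr A σ q k : ℝ) + cut ctr A σ q (k + 1) - 1 - 2 * v) * x v)
      + 12 * (T : ℝ) ^ 2 * energy A M
      + ∑ q ∈ Ico 0 M, (A q : ℝ) := by
  refine le_trans (step_windows M a b T σ ctr A hch hσ hT0 hT x hx) ?_
  have hz : ∀ j, j ∉ Ico (-1) M → (dA A j : ℝ) = 0 := by
    intro j hj
    rw [dA_zero_outside A M hch.supp j hj]; simp
  have h1 := window (fun j => (dA A j : ℝ)) (Ico (-1) M) (Ico (-T) (M + T)) hz (-T + 1) T (by omega)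
  have h2 := window (fun j => (dA A j : ℝ)) (Ico (-1) M) (Ico 0 M) hz 0 T (by omega)
  have h3 := window (fun j => (dA A j : ℝ)) (Ico (-1) M) (Ico 0 M) hz (-T) 0 (by omega)
  rw [sum_add_distrib, ← mul_sum, ← mul_sum]
  have hE : 0 ≤ energy A M := by
    unfold energy; positivity
  have hT1 : (1 : ℝ) ≤ T := by exact_mod_cast hT0
  unfold energy at *
  set E := ∑ j ∈ Ico (-1) M, (dA A j : ℝ) ^ 2 with hEdef
  have h4 : ((T : ℝ) - ((-T + 1 : ℤ) : ℝ)) ^ 2 * E ≤ 4 * (T : ℝ) ^ 2 * E := by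
    apply mul_le_mul_of_nonneg_right _ hE
    push_cast
    nlinarith
  have h5 : ((T : ℝ) - ((0 : ℤ) : ℝ)) ^ 2 * E = (T : ℝ) ^ 2 * E := by push_cast; ring
  have h6 : (((0 : ℤ) : ℝ) - ((-T : ℤ) : ℝ)) ^ 2 * E = (T : ℝ) ^ 2 * E := by push_cast; ring
  rw [h5] at h2
  rw [h6] at h3
  linarith

end Pool.Agent.Dicut
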