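import Mathlib
import Pool.Agent.Dicut.Step3

set_option autoImplicit false

namespace Pool.Agent.Dicut

open Finset

/-- total number of arcs inside `B` -/
noncomputable def Tot (B : Finset ℤ) (μ : ℤ → ℤ → ℕ) : ℝ := ∑ u ∈ B, ∑ v ∈ B, (μ u v : ℝ)

noncomputable def rowSaw (M : ℤ) (ctr A : ℤ → ℤ) (x : ℤ → ℝ) : ℝ :=
  ∑ q ∈ Ico 0 M, ∑ v ∈ Ico (ctr q - A q) (ctr q + A q), (2 * (ctr q : ℝ) - 1 - 2 * v) * x v

lemma Tot_col (M a b T σ : ℤ) (ctr A : ℤ → ℤ) (hch : Chain M a b ctr A) (hσ : 0 ≤ σ)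
    (hT0 : 0 ≤ T) (hT : ∀ q, A q ≤ σ * T) :
    Tot (Ico a b) (fun u v => colMult ctr A σ M T u v)
      ≤ 4 * (T : ℝ) * σ * ∑ q ∈ Ico 0 M, (A q : ℝ) := by
  have hcellsub : ∀ q ∈ Ico 0 M, ∀ k, cell ctr A σ q k ⊆ Ico a b := by
    intro q hq k v hv
    unfold cell at hv
    have h1 := mem_Ico.mp hv
    have h2 := cut_ge ctr A σ q k
    have h3 := cut_le ctr A σ q (k + 1) (hch.nonneg q)
    have h4 := hch.box q hq
    rw [mem_Ico]; omega
  have hcutle : ∀ q k, cut ctr A σ q k ≤ cut ctr A σ q (k + 1) := fun q k =>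
    cut_mono ctr A σ hσ q (by omega)
  have hempty : ∀ q k, k < -T ∨ T ≤ k → cut ctr A σ q k = cut ctr A σ q (k + 1) := by
    intro q k hk
    rcases hk with hk | hk
    · rw [cut_bot ctr A σ q T k hσ (hT q) (by omega), cut_bot ctr A σ q T (k + 1) hσ (hT q) (by omega)]
    · rw [cut_top ctr A σ q T k hσ (hch.nonneg q) (hT q) (by omega),
        cut_top ctr A σ q T (k + 1) hσ (hch.nonneg q) (hT q) (by omega)]
  have hcellcard : ∀ q k, ((cell ctr A σ q k).card : ℝ) = (cut ctr A σ q (k + 1) : ℝ) - cut ctr A σ q k := by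
    intro q k
    unfold cell
    exact card_Ico_real _ _ (hcutle q k)
  have hcellle : ∀ q k, ((cell ctr A σ q k).card : ℝ) ≤ σ := by
    intro q k
    rw [hcellcard]
    have : cut ctr A σ q (k + 1) - cut ctr A σ q k ≤ σ := by
      unfold cut cl
      have h2 : σ * (k + 1) = σ * k + σ := by ring
      omega
    exact_mod_cast this
  have h := colMult_sum ctr A σ M T (Ico a b) hcellsub (fun _ _ => 1)
  simp only [mul_one] at h
  unfold Tot
  rw [h]
  have hTR : (0 : ℝ) ≤ T := by exact_mod_cast hT0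
  have hσR : (0 : ℝ) ≤ σ := by exact_mod_cast hσ
  have h1 : ∀ l ∈ Ico (-T) (M + T), ∀ q ∈ Ico 0 M,
      ∑ q' ∈ Ico 0 M, ∑ u ∈ cell ctr A σ q (l - q), ∑ v ∈ cell ctr A σ q' (l - q'), (if u < v then (1 : ℝ) else 0)
      ≤ 2 * T * σ * ((cell ctr A σ q (l - q)).card : ℝ) := by
    intro l _ q _
    have h2 : ∀ q' ∈ Ico 0 M, ∑ u ∈ cell ctr A σ q (l - q), ∑ v ∈ cell ctr A σ q' (l - q'), (if u < v then (1 : ℝ) else 0)
        ≤ ((cell ctr A σ q (l - q)).card : ℝ) * ((cell ctr A σ q' (l - q')).card : ℝ) := by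
      intro q' _
      calc ∑ u ∈ cell ctr A σ q (l - q), ∑ v ∈ cell ctr A σ q' (l - q'), (if u < v then (1 : ℝ) else 0)
          ≤ ∑ u ∈ cell ctr A σ q (l - q), ∑ v ∈ cell ctr A σ q' (l - q'), (1 : ℝ) := by
            apply sum_le_sum; intro u _; apply sum_le_sum; intro v _
            split_ifs <;> norm_num
        _ = _ := by simp
    have h3 : ∑ q' ∈ Ico 0 M, ((cell ctr A σ q' (l - q')).card : ℝ) ≤ 2 * T * σ := by
      have h4 : ∑ q' ∈ Ico 0 M, ((cell ctr A σ q' (l - q')).card : ℝ)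
          ≤ ∑ q' ∈ Ico (l - T + 1) (l + T + 1), (σ : ℝ) := by
        calc ∑ q' ∈ Ico 0 M, ((cell ctr A σ q' (l - q')).card : ℝ)
            = ∑ q' ∈ (Ico 0 M).filter (fun q' => q' ∈ Ico (l - T + 1) (l + T + 1)), ((cell ctr A σ q' (l - q')).card : ℝ) := by
              symm
              apply sum_subset (filter_subset _ _)
              intro q' hq' hn
              have hn' : ¬ (l - T + 1 ≤ q' ∧ q' < l + T + 1) := by
                intro hh; exact hn (mem_filter.mpr ⟨hq', mem_Ico.mpr hh⟩)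
              rw [hcellcard, hempty q' (l - q') (by omega)]
              simp
          _ ≤ ∑ q' ∈ Ico (l - T + 1) (l + T + 1), ((cell ctr A σ q' (l - q')).card : ℝ) := by
              apply sum_le_sum_of_subset_of_nonneg
              · intro z hz; exact (mem_filter.mp hz).2
              · intro z _ _; positivity
          _ ≤ _ := sum_le_sum (fun q' _ => hcellle q' _)
      refine le_trans h4 ?_
      rw [sum_const, nsmul_eq_mul, card_Ico_real _ _ (by omega)]
      push_cast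
      apply le_of_eq; ring
    calc ∑ q' ∈ Ico 0 M, ∑ u ∈ cell ctr A σ q (l - q), ∑ v ∈ cell ctr A σ q' (l - q'), (if u < v then (1 : ℝ) else 0)
        ≤ ∑ q' ∈ Ico 0 M, ((cell ctr A σ q (l - q)).card : ℝ) * ((cell ctr A σ q' (l - q')).card : ℝ) := sum_le_sum h2
      _ = ((cell ctr A σ q (l - q)).card : ℝ) * ∑ q' ∈ Ico 0 M, ((cell ctr A σ q' (l - q')).card : ℝ) := by rw [mul_sum]
      _ ≤ ((cell ctr A σ q (l - q)).card : ℝ) * (2 * T * σ) := by
          apply mul_le_mul_of_nonneg_left h3; positivity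
      _ = _ := by ring
  calc ∑ l ∈ Ico (-T) (M + T), ∑ q ∈ Ico 0 M, ∑ q' ∈ Ico 0 M, ∑ u ∈ cell ctr A σ q (l - q),
        ∑ v ∈ cell ctr A σ q' (l - q'), (if u < v then (1 : ℝ) else 0)
      ≤ ∑ l ∈ Ico (-T) (M + T), ∑ q ∈ Ico 0 M, 2 * T * σ * ((cell ctr A σ q (l - q)).card : ℝ) :=
        sum_le_sum (fun l hl => sum_le_sum (fun q hq => h1 l hl q hq))
    _ = 2 * T * σ * ∑ q ∈ Ico 0 M, ∑ l ∈ Ico (-T) (M + T), ((cell ctr A σ q (l - q)).card : ℝ) := by
        rw [sum_comm, mul_sum]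
        apply sum_congr rfl; intro q _
        rw [mul_sum]
    _ = 2 * T * σ * ∑ q ∈ Ico 0 M, 2 * (A q : ℝ) := by
        congr 1
        apply sum_congr rfl
        intro q hq
        have hq' := mem_Ico.mp hq
        rw [sum_label M T q hq'.1 hq'.2 (fun k => ((cell ctr A σ q k).card : ℝ))
          (fun k hk => by rw [hcellcard, hempty q k hk]; simp)]
        have h5 : ∀ k ∈ Ico (-T) T, ((cell ctr A σ q k).card : ℝ) = ((cut ctr A σ q (k + 1) - cut ctr A σ q k : ℤ) : ℝ) := by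
          intro k _; rw [hcellcard]; push_cast; ring
        rw [sum_congr rfl h5, ← Int.cast_sum, tele_Ico (fun k => cut ctr A σ q k) (-T) T (by omega),
          cut_top ctr A σ q T T hσ (hch.nonneg q) (hT q) le_rfl,
          cut_bot ctr A σ q T (-T) hσ (hT q) le_rfl]
        push_cast; ring
    _ = _ := by rw [← mul_sum]; ring

lemma energy_side (σ T a a' : ℤ) (hσ : 0 ≤ σ) (hT : 0 ≤ T) (ha : 0 ≤ a) (ha' : 0 ≤ a')
    (haT : a ≤ σ * T) (haT' : a' ≤ σ * T) :
    ∑ k ∈ Ico 0 T, (len σ a' k - len σ a k) ^ 2 ≤ (a' - a) ^ 2 := by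
  wlog h : a ≤ a' generalizing a a' with H
  · have := H a' a ha' ha haT' haT (by omega)
    calc ∑ k ∈ Ico 0 T, (len σ a' k - len σ a k) ^ 2 = ∑ k ∈ Ico 0 T, (len σ a k - len σ a' k) ^ 2 := by
          apply sum_congr rfl; intro k _; ring
      _ ≤ (a - a') ^ 2 := this
      _ = _ := by ring
  have hnn : ∀ k ∈ Ico 0 T, 0 ≤ len σ a' k - len σ a k := by
    intro k _
    unfold len
    have h2 : σ * (k + 1) = σ * k + σ := by ring
    omega
  have hsum : ∑ k ∈ Ico 0 T, (len σ a' k - len σ a k) = a' - a := by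
    have h1 := tele_Ico (fun k => min a' (σ * k) - min a (σ * k)) 0 T hT
    have h2 : ∑ k ∈ Ico 0 T, (len σ a' k - len σ a k)
        = ∑ k ∈ Ico 0 T, ((min a' (σ * (k + 1)) - min a (σ * (k + 1))) - (min a' (σ * k) - min a (σ * k))) := by
      apply sum_congr rfl; intro k _
      unfold len; ring
    rw [h2, h1]
    simp only [mul_zero]
    omega
  have hle : ∀ k ∈ Ico 0 T, (len σ a' k - len σ a k) ^ 2 ≤ (a' - a) * (len σ a' k - len σ a k) := by
    intro k hk
    have h1 : len σ a' k - len σ a k ≤ a' - a := by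
      rw [← hsum]
      exact single_le_sum hnn hk
    rw [sq]
    exact mul_le_mul_of_nonneg_right h1 (hnn k hk)
  calc ∑ k ∈ Ico 0 T, (len σ a' k - len σ a k) ^ 2
      ≤ ∑ k ∈ Ico 0 T, (a' - a) * (len σ a' k - len σ a k) := sum_le_sum hle
    _ = (a' - a) ^ 2 := by rw [← mul_sum, hsum]; ring

/-- half-lengths of the chain formed by the cells with index `k` -/
noncomputable def childA (ctr A : ℤ → ℤ) (σ k q : ℤ) : ℤ := (cut ctr A σ q (k + 1) - cut ctr A σ q k) / 2
/-- centres of the chain formed by the cells with index `k` -/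
noncomputable def childC (ctr A : ℤ → ℤ) (σ k q : ℤ) : ℤ := (cut ctr A σ q (k + 1) + cut ctr A σ q k) / 2

lemma cl_dvd (d a y : ℤ) (h1 : d ∣ a) (h2 : d ∣ y) : d ∣ cl a y := by
  unfold cl
  rcases max_choice (-a) (min a y) with h | h
  · rw [h]; exact (dvd_neg).mpr h1
  · rw [h]
    rcases min_choice a y with h' | h'
    · rw [h']; exact h1
    · rw [h']; exact h2

lemma diff_dvd (ctr A : ℤ → ℤ) (σ d k q : ℤ) (h1 : d ∣ A q) (h2 : d ∣ σ) :
    d ∣ cut ctr A σ q (k + 1) - cut ctr A σ q k := by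
  unfold cut
  have h3 : d ∣ cl (A q) (σ * (k + 1)) := cl_dvd d _ _ h1 (Dvd.dvd.mul_right h2 _)
  have h4 : d ∣ cl (A q) (σ * k) := cl_dvd d _ _ h1 (Dvd.dvd.mul_right h2 _)
  have : ctr q + cl (A q) (σ * (k + 1)) - (ctr q + cl (A q) (σ * k))
    = cl (A q) (σ * (k + 1)) - cl (A q) (σ * k) := by ring
  rw [this]
  exact dvd_sub h3 h4

lemma child_spec (ctr A : ℤ → ℤ) (σ k q : ℤ) (h1 : 2 ∣ A q) (h2 : 2 ∣ σ) :
    2 * childA ctr A σ k q = cut ctr A σ q (k + 1) - cut ctr A σ q k ∧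
    2 * childC ctr A σ k q = cut ctr A σ q (k + 1) + cut ctr A σ q k ∧
    childC ctr A σ k q - childA ctr A σ k q = cut ctr A σ q k ∧
    childC ctr A σ k q + childA ctr A σ k q = cut ctr A σ q (k + 1) := by
  have hd := diff_dvd ctr A σ 2 k q h1 h2
  unfold childA childC
  omega

lemma child_chain (M a b σ k : ℤ) (ctr A : ℤ → ℤ) (hch : Chain M a b ctr A) (hσ : 0 ≤ σ)
    (h1 : ∀ q, 2 ∣ A q) (h2 : 2 ∣ σ) :
    Chain M a b (childC ctr A σ k) (childA ctr A σ k) := by
  have hcutle : ∀ q k, cut ctr A σ q k ≤ cut ctr A σ q (k + 1) := fun q k =>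
    cut_mono ctr A σ hσ q (by omega)
  constructor
  · intro q
    have h := child_spec ctr A σ k q (h1 q) h2
    have := hcutle q k
    omega
  · intro q hq
    have h := child_spec ctr A σ k q (h1 q) h2
    have hA := hch.supp q hq
    unfold cut at h
    rw [hA, cl_zero, cl_zero] at h
    omega
  · intro q hq q' hq' hqq'
    have h := child_spec ctr A σ k q (h1 q) h2
    have h' := child_spec ctr A σ k q' (h1 q') h2
    have h3 := cut_le ctr A σ q (k + 1) (hch.nonneg q)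
    have h4 := cut_ge ctr A σ q' k
    have h5 := hch.ord q hq q' hq' hqq'
    omega
  · intro q hq
    have h := child_spec ctr A σ k q (h1 q) h2
    have h3 := cut_le ctr A σ q (k + 1) (hch.nonneg q)
    have h4 := cut_ge ctr A σ q k
    have h5 := hch.box q hq
    omega

lemma child_energy (M a b T σ : ℤ) (ctr A : ℤ → ℤ) (hch : Chain M a b ctr A) (hσ : 0 ≤ σ)
    (hT0 : 0 ≤ T) (hT : ∀ q, A q ≤ σ * T)
    (h1 : ∀ q, 2 ∣ A q) (h2 : 2 ∣ σ) :
    ∑ k ∈ Ico (-T) T, energy (childA ctr A σ k) M ≤ (1 / 2) * energy A M := by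
  unfold energy
  rw [sum_comm, mul_sum]
  apply sum_le_sum
  intro j _
  have hkey : ∀ k, (dA (childA ctr A σ k) j : ℝ) ^ 2
      = (1 / 4) * (((cut ctr A σ (j + 1) (k + 1) - cut ctr A σ (j + 1) k)
        - (cut ctr A σ j (k + 1) - cut ctr A σ j k) : ℤ) : ℝ) ^ 2 := by
    intro k
    have e1 := (child_spec ctr A σ k (j + 1) (h1 (j + 1)) h2).1
    have e2 := (child_spec ctr A σ k j (h1 j) h2).1
    rw [← e1, ← e2]
    unfold dA
    push_cast
    rw [sq_abs]
    ring
  rw [sum_congr rfl (fun k _ => hkey k), ← mul_sum]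
  have hsplit : Ico (-T) T = Ico (-T) 0 ∪ Ico 0 T := by
    ext z; simp only [mem_Ico, mem_union]; omega
  have hd : Disjoint (Ico (-T) 0) (Ico 0 T) := by
    rw [disjoint_left]; intro z; simp only [mem_Ico]; omega
  have hs := energy_side σ T (A j) (A (j + 1)) hσ hT0 (hch.nonneg j) (hch.nonneg (j + 1)) (hT j) (hT (j + 1))
  have hR : ∑ k ∈ Ico 0 T, (((cut ctr A σ (j + 1) (k + 1) - cut ctr A σ (j + 1) k)
        - (cut ctr A σ j (k + 1) - cut ctr A σ j k) : ℤ) : ℝ) ^ 2 ≤ ((A (j + 1) - A j : ℤ) : ℝ) ^ 2 := by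
    have h3 : ∑ k ∈ Ico 0 T, (((cut ctr A σ (j + 1) (k + 1) - cut ctr A σ (j + 1) k)
        - (cut ctr A σ j (k + 1) - cut ctr A σ j k) : ℤ) : ℝ) ^ 2
        = ((∑ k ∈ Ico 0 T, (len σ (A (j + 1)) k - len σ (A j) k) ^ 2 : ℤ) : ℝ) := by
      push_cast
      apply sum_congr rfl; intro k hk
      have hk' := mem_Ico.mp hk
      rw [← len_right ctr A σ (j + 1) k hσ (hch.nonneg _) hk'.1, ← len_right ctr A σ j k hσ (hch.nonneg _) hk'.1]
      push_cast; ring
    rw [h3]
    exact_mod_cast hs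
  have hL : ∑ k ∈ Ico (-T) 0, (((cut ctr A σ (j + 1) (k + 1) - cut ctr A σ (j + 1) k)
        - (cut ctr A σ j (k + 1) - cut ctr A σ j k) : ℤ) : ℝ) ^ 2 ≤ ((A (j + 1) - A j : ℤ) : ℝ) ^ 2 := by
    have h3 : ∑ k ∈ Ico (-T) 0, (((cut ctr A σ (j + 1) (k + 1) - cut ctr A σ (j + 1) k)
        - (cut ctr A σ j (k + 1) - cut ctr A σ j k) : ℤ) : ℝ) ^ 2
        = ((∑ k ∈ Ico 0 T, (len σ (A (j + 1)) k - len σ (A j) k) ^ 2 : ℤ) : ℝ) := by
      push_cast
      apply sum_nbij' (fun k => -1 - k) (fun k => -1 - k)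
      · intro k hk; simp only [mem_Ico] at hk ⊢; omega
      · intro k hk; simp only [mem_Ico] at hk ⊢; omega
      · intro k _; ring
      · intro k _; ring
      · intro k hk
        have hk' := mem_Ico.mp hk
        have e1 := len_left ctr A σ (j + 1) (-1 - k) hσ (hch.nonneg _) (by omega)
        have e2 := len_left ctr A σ j (-1 - k) hσ (hch.nonneg _) (by omega)
        have h5 : -1 - (-1 - k) = k := by ring
        rw [h5] at e1 e2
        rw [← e1, ← e2]
        push_cast; ring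
    rw [h3]
    exact_mod_cast hs
  rw [hsplit, sum_union hd]
  have h6 : (dA A j : ℝ) ^ 2 = ((A (j + 1) - A j : ℤ) : ℝ) ^ 2 := by
    unfold dA
    push_cast
    rw [sq_abs]
  rw [h6]
  linarith

/-- The inductive statement: compensation of the imbalances of a chain of rows by a multigraph. -/
theorem good (T : ℤ) (hT4 : 4 ≤ T) (hTeven : 2 ∣ T) (L : ℕ) :
    ∀ (M a b : ℤ) (ctr A : ℤ → ℤ), Chain M a b ctr A → (∀ q, A q ≤ T ^ L) → (∀ q, (2 : ℤ) ^ L ∣ A q) →
      ∃ μ : ℤ → ℤ → ℕ, (∀ u v, μ u v ≠ 0 → u < v) ∧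
        Tot (Ico a b) μ ≤ 16 * (T : ℝ) ^ L * ∑ q ∈ Ico 0 M, (A q : ℝ) ∧
        ∀ x : ℤ → ℝ, (∀ v, x v * x v = 1) →
          rowSaw M ctr A x + Fun (Ico a b) μ x
            ≤ 12 * (T : ℝ) ^ 2 * L * energy A M + (3 * 2 ^ L - 1) * ∑ q ∈ Ico 0 M, (A q : ℝ) := by
  induction L with
  | zero =>
    intro M a b ctr A hch hA _
    have hsum : 0 ≤ ∑ q ∈ Ico 0 M, (A q : ℝ) := by
      apply sum_nonneg; intro q _; exact_mod_cast hch.nonneg q
    refine ⟨fun _ _ => 0, by simp, ?_, ?_⟩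
    · unfold Tot; simp only [Nat.cast_zero, sum_const_zero]; positivity
    · intro x hx
      unfold rowSaw Fun
      simp only [Nat.cast_zero, zero_mul, sum_const_zero, add_zero, mul_zero, pow_zero, mul_one, zero_add]
      rw [mul_sum]
      apply sum_le_sum
      intro q _
      have h1 := hch.nonneg q
      have h2 : A q ≤ 1 := by simpa using hA q
      have h3 : A q = 0 ∨ A q = 1 := by omega
      rcases h3 with h3 | h3
      · rw [h3]; simp
      · rw [h3]
        have h4 : Ico (ctr q - 1) (ctr q + 1) = {ctr q - 1, ctr q} := by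
          ext z; simp only [mem_Ico, mem_insert, mem_singleton]; omega
        rw [h4, sum_pair (by omega)]
        have h5 : ∀ v, x v ≤ 1 ∧ -1 ≤ x v := by
          intro v
          have := hx v
          constructor <;> nlinarith
        have h6 := h5 (ctr q - 1)
        have h7 := h5 (ctr q)
        push_cast
        nlinarith
  | succ L ih =>
    intro M a b ctr A hch hA hdvd
    set σ : ℤ := 2 * T ^ L with hσdef
    have hTL : 0 < T ^ L := pow_pos (by omega) L
    have hσ : 0 ≤ σ := by omega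
    have hAσ : ∀ q, A q ≤ σ * T := by
      intro q
      have := hA q
      have h1 : T ^ (L + 1) = T ^ L * T := pow_succ T L
      have h2 : σ * T = 2 * (T ^ L * T) := by rw [hσdef]; ring
      have h3 : 0 < T ^ L * T := mul_pos hTL (by omega)
      omega
    have h2A : ∀ q, 2 ∣ A q := fun q => dvd_trans (dvd_pow_self 2 (by omega)) (hdvd q)
    have h2σ : (2 : ℤ) ∣ σ := ⟨T ^ L, rfl⟩
    have h2Lσ : (2 : ℤ) ^ (L + 1) ∣ σ := by
      rw [hσdef, pow_succ, mul_comm]
      exact mul_dvd_mul_left 2 (pow_dvd_pow_of_dvd hTeven L)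
    -- children
    have hchild : ∀ k, ∃ μ : ℤ → ℤ → ℕ, (∀ u v, μ u v ≠ 0 → u < v) ∧
        Tot (Ico a b) μ ≤ 16 * (T : ℝ) ^ L * ∑ q ∈ Ico 0 M, (childA ctr A σ k q : ℝ) ∧
        ∀ x : ℤ → ℝ, (∀ v, x v * x v = 1) →
          rowSaw M (childC ctr A σ k) (childA ctr A σ k) x + Fun (Ico a b) μ x
            ≤ 12 * (T : ℝ) ^ 2 * L * energy (childA ctr A σ k) M
              + (3 * 2 ^ L - 1) * ∑ q ∈ Ico 0 M, (childA ctr A σ k q : ℝ) := by
      intro k
      apply ih M a b (childC ctr A σ k) (childA ctr A σ k) (child_chain M a b σ k ctr A hch hσ h2A h2σ)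
      · intro q
        have h := (child_spec ctr A σ k q (h2A q) h2σ).1
        have : cut ctr A σ q (k + 1) - cut ctr A σ q k ≤ σ := by
          unfold cut cl
          have h2 : σ * (k + 1) = σ * k + σ := by ring
          omega
        omega
      · intro q
        have h := (child_spec ctr A σ k q (h2A q) h2σ).1
        have h3 := diff_dvd ctr A σ (2 ^ (L + 1)) k q (hdvd q) h2Lσ
        rw [← h, pow_succ, mul_comm] at h3
        exact (mul_dvd_mul_iff_left (by norm_num : (2 : ℤ) ≠ 0)).mp h3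
    choose μc hμ1 hμ2 hμ3 using hchild
    -- sums of half-lengths of the children
    have hsumA : ∑ k ∈ Ico (-T) T, ∑ q ∈ Ico 0 M, (childA ctr A σ k q : ℝ) = ∑ q ∈ Ico 0 M, (A q : ℝ) := by
      rw [sum_comm]
      apply sum_congr rfl
      intro q _
      have h5 : ∀ k ∈ Ico (-T) T, (childA ctr A σ k q : ℝ)
          = (1 / 2) * ((cut ctr A σ q (k + 1) - cut ctr A σ q k : ℤ) : ℝ) := by
        intro k _
        have h := (child_spec ctr A σ k q (h2A q) h2σ).1
        rw [← h]; push_cast; ring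
      rw [sum_congr rfl h5, ← mul_sum, ← Int.cast_sum, tele_Ico (fun k => cut ctr A σ q k) (-T) T (by omega),
        cut_top ctr A σ q T T hσ (hch.nonneg q) (hAσ q) le_rfl,
        cut_bot ctr A σ q T (-T) hσ (hAσ q) le_rfl]
      push_cast; ring
    have hsum : 0 ≤ ∑ q ∈ Ico 0 M, (A q : ℝ) := by
      apply sum_nonneg; intro q _; exact_mod_cast hch.nonneg q
    have hT4R : (4 : ℝ) ≤ T := by exact_mod_cast hT4
    refine ⟨fun u v => colMult ctr A σ M T u v + 2 * ∑ k ∈ Ico (-T) T, μc k u v, ?_, ?_, ?_⟩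
    · intro u v h
      by_contra hcon
      apply h
      have h1 : colMult ctr A σ M T u v = 0 := by
        unfold colMult
        apply sum_eq_zero; intro l _; apply sum_eq_zero; intro q _; apply sum_eq_zero; intro q' _
        unfold ind
        rw [if_neg]
        intro hh; exact hcon hh.2.2
      have h2 : ∑ k ∈ Ico (-T) T, μc k u v = 0 := by
        apply sum_eq_zero; intro k _
        by_contra h3
        exact hcon (hμ1 k u v h3)
      show colMult ctr A σ M T u v + 2 * ∑ k ∈ Ico (-T) T, μc k u v = 0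
      rw [h1, h2]
    · have h1 := Tot_col M a b T σ ctr A hch hσ (by omega) hAσ
      have h2 : Tot (Ico a b) (fun u v => colMult ctr A σ M T u v + 2 * ∑ k ∈ Ico (-T) T, μc k u v)
          = Tot (Ico a b) (fun u v => colMult ctr A σ M T u v) + 2 * ∑ k ∈ Ico (-T) T, Tot (Ico a b) (μc k) := by
        unfold Tot
        have h3 : ∀ u ∈ Ico a b, ∑ v ∈ Ico a b, ((colMult ctr A σ M T u v + 2 * ∑ k ∈ Ico (-T) T, μc k u v : ℕ) : ℝ)
            = ∑ v ∈ Ico a b, (colMult ctr A σ M T u v : ℝ) + 2 * ∑ k ∈ Ico (-T) T, ∑ v ∈ Ico a b, (μc k u v : ℝ) := by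
          intro u _
          rw [sum_comm, mul_sum, ← sum_add_distrib]
          apply sum_congr rfl; intro v _
          push_cast; ring
        rw [sum_congr rfl h3, sum_add_distrib, ← mul_sum, sum_comm (s := Ico a b) (t := Ico (-T) T)]
      rw [h2]
      have h4 : ∑ k ∈ Ico (-T) T, Tot (Ico a b) (μc k)
          ≤ ∑ k ∈ Ico (-T) T, 16 * (T : ℝ) ^ L * ∑ q ∈ Ico 0 M, (childA ctr A σ k q : ℝ) :=
        sum_le_sum (fun k _ => hμ2 k)
      rw [← mul_sum, hsumA] at h4
      have h5 : (σ : ℝ) = 2 * (T : ℝ) ^ L := by rw [hσdef]; push_cast; ring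
      rw [h5] at h1
      have h6 : (T : ℝ) ^ (L + 1) = (T : ℝ) ^ L * T := pow_succ _ _
      have h7 : 0 ≤ (T : ℝ) ^ L * ∑ q ∈ Ico 0 M, (A q : ℝ) := by positivity
      have h8 : 4 * ((T : ℝ) ^ L * ∑ q ∈ Ico 0 M, (A q : ℝ)) ≤ T * ((T : ℝ) ^ L * ∑ q ∈ Ico 0 M, (A q : ℝ)) :=
        mul_le_mul_of_nonneg_right hT4R h7
      rw [h6]
      nlinarith
    · intro x hx
      have hstep := step_energy M a b T σ ctr A hch hσ (by omega) hAσ x hx
      have h2 : Fun (Ico a b) (fun u v => colMult ctr A σ M T u v + 2 * ∑ k ∈ Ico (-T) T, μc k u v) x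
          = Fun (Ico a b) (fun u v => colMult ctr A σ M T u v) x + 2 * ∑ k ∈ Ico (-T) T, Fun (Ico a b) (μc k) x := by
        unfold Fun
        have h3 : ∀ u ∈ Ico a b, ∑ v ∈ Ico a b, ((colMult ctr A σ M T u v + 2 * ∑ k ∈ Ico (-T) T, μc k u v : ℕ) : ℝ)
              * (x u - x v - x u * x v)
            = ∑ v ∈ Ico a b, (colMult ctr A σ M T u v : ℝ) * (x u - x v - x u * x v)
              + 2 * ∑ k ∈ Ico (-T) T, ∑ v ∈ Ico a b, (μc k u v : ℝ) * (x u - x v - x u * x v) := by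
          intro u _
          rw [sum_comm, mul_sum, ← sum_add_distrib]
          apply sum_congr rfl; intro v _
          push_cast
          rw [← sum_mul]
          ring
        rw [sum_congr rfl h3, sum_add_distrib, ← mul_sum, sum_comm (s := Ico a b) (t := Ico (-T) T)]
      rw [h2]
      have h4 : ∀ k ∈ Ico (-T) T, ∑ q ∈ Ico 0 M, ∑ v ∈ cell ctr A σ q k,
          ((cut ctr A σ q k : ℝ) + cut ctr A σ q (k + 1) - 1 - 2 * v) * x v
          = rowSaw M (childC ctr A σ k) (childA ctr A σ k) x := by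
        intro k _
        unfold rowSaw
        apply sum_congr rfl; intro q _
        obtain ⟨_, e2, e3, e4⟩ := child_spec ctr A σ k q (h2A q) h2σ
        rw [e3, e4]
        unfold cell
        apply sum_congr rfl; intro v _
        have : (2 : ℝ) * childC ctr A σ k q = cut ctr A σ q (k + 1) + cut ctr A σ q k := by exact_mod_cast e2
        rw [this]; ring
      rw [sum_congr rfl h4] at hstep
      have h5 : ∑ k ∈ Ico (-T) T, (rowSaw M (childC ctr A σ k) (childA ctr A σ k) x + Fun (Ico a b) (μc k) x)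
          ≤ ∑ k ∈ Ico (-T) T, (12 * (T : ℝ) ^ 2 * L * energy (childA ctr A σ k) M
              + (3 * 2 ^ L - 1) * ∑ q ∈ Ico 0 M, (childA ctr A σ k q : ℝ)) :=
        sum_le_sum (fun k _ => hμ3 k x hx)
      rw [sum_add_distrib, sum_add_distrib, ← mul_sum, ← mul_sum, hsumA] at h5
      have h6 := child_energy M a b T σ ctr A hch hσ (by omega) hAσ h2A h2σ
      have h7 : 12 * (T : ℝ) ^ 2 * L * ∑ k ∈ Ico (-T) T, energy (childA ctr A σ k) M
          ≤ 12 * (T : ℝ) ^ 2 * L * ((1 / 2) * energy A M) := by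
        apply mul_le_mul_of_nonneg_left h6; positivity
      have h8 : rowSaw M ctr A x + Fun (Ico a b) (fun u v => colMult ctr A σ M T u v) x
          ≤ 2 * ∑ k ∈ Ico (-T) T, rowSaw M (childC ctr A σ k) (childA ctr A σ k) x
            + 12 * (T : ℝ) ^ 2 * energy A M + ∑ q ∈ Ico 0 M, (A q : ℝ) := hstep
      have e1 : 12 * (T : ℝ) ^ 2 * ((L + 1 : ℕ) : ℝ) * energy A M
          = 12 * (T : ℝ) ^ 2 * L * energy A M + 12 * (T : ℝ) ^ 2 * energy A M := by
        push_cast; ring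
      have e2 : (3 * (2 : ℝ) ^ (L + 1) - 1) * ∑ q ∈ Ico 0 M, (A q : ℝ)
          = 2 * ((3 * (2 : ℝ) ^ L - 1) * ∑ q ∈ Ico 0 M, (A q : ℝ)) + ∑ q ∈ Ico 0 M, (A q : ℝ) := by
        ring
      rw [e1, e2]
      linarith

end Pool.Agent.Dicut
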