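import Mathlib
import Pool.Agent.Dicut.Core
import Pool.Agent.Dicut.Multi

set_option autoImplicit false

namespace Pool.Agent.Dicut

open Finset

/-- sign function of a set of vertices -/
noncomputable def sg (B : Finset ℤ) (X : Finset {z : ℤ // z ∈ B}) (z : ℤ) : ℝ :=
  if h : z ∈ B then (if (⟨z, h⟩ : {z : ℤ // z ∈ B}) ∈ X then 1 else -1) else -1

lemma sg_sq (B : Finset ℤ) (X : Finset {z : ℤ // z ∈ B}) (z : ℤ) : sg B X z * sg B X z = 1 := by
  unfold sg
  split_ifs <;> norm_num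

lemma sg_coe (B : Finset ℤ) (X : Finset {z : ℤ // z ∈ B}) (u : {z : ℤ // z ∈ B}) :
    sg B X u = if u ∈ X then (1 : ℝ) else -1 := by
  unfold sg
  rw [dif_pos u.2]

lemma Fun_sub (B : Finset ℤ) (μ : ℤ → ℤ → ℕ) (X : Finset {z : ℤ // z ∈ B}) :
    4 * ((dicutWeight (fun u v : {z : ℤ // z ∈ B} => μ u v) X : ℕ) : ℝ)
      = Tot B μ + Fun B μ (sg B X) := by
  have h1 : ((dicutWeight (fun u v : {z : ℤ // z ∈ B} => μ u v) X : ℕ) : ℝ)
      = dicutWeight (fun u v : {z : ℤ // z ∈ B} => (μ u v : ℝ)) X := by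
    unfold dicutWeight; push_cast; rfl
  rw [h1, four_dicut]
  unfold Tot Fun
  congr 1
  · rw [← Finset.sum_coe_sort B]
    apply sum_congr rfl; intro u _
    rw [← Finset.sum_coe_sort B]
  · rw [← Finset.sum_coe_sort B]
    apply sum_congr rfl; intro u _
    rw [← Finset.sum_coe_sort B]
    apply sum_congr rfl; intro v _
    rw [sg_coe, sg_coe]

lemma PM_of_fun (B : Finset ℤ) (μ : ℤ → ℤ → ℕ) (hμ : ∀ u v, μ u v ≠ 0 → u < v) (m : ℕ) (K : ℝ)
    (hm : ∑ u ∈ B, ∑ v ∈ B, μ u v = m)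
    (hF : ∀ x : ℤ → ℝ, (∀ v, x v * x v = 1) → Fun B μ x ≤ 4 * K) : PM m K := by
  refine ⟨{z : ℤ // z ∈ B}, inferInstance, inferInstance, fun u v => μ u v, ?_, ?_, ?_⟩
  · apply acyclic_of_lt _ (fun u : {z : ℤ // z ∈ B} => (u : ℤ))
    intro u v h
    exact hμ u v h
  · rw [← hm, ← Finset.sum_coe_sort B]
    apply sum_congr rfl; intro u _
    rw [← Finset.sum_coe_sort B]
  · intro X
    have h1 := Fun_sub B μ X
    have h2 := hF (sg B X) (sg_sq B X)
    have h3 : Tot B μ = m := by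
      unfold Tot
      rw [← hm]; push_cast; rfl
    linarith

lemma dicutSize_eq (B : Finset ℤ) (μ : ℤ → ℤ → ℕ) (hμ1 : ∀ u v, μ u v ≤ 1) (X : Finset {z : ℤ // z ∈ B}) :
    dicutSize (univ.filter (fun e : {z : ℤ // z ∈ B} × {z : ℤ // z ∈ B} => μ e.1 e.2 ≠ 0)) X
      = dicutWeight (fun u v : {z : ℤ // z ∈ B} => μ u v) X := by
  unfold dicutSize dicutWeight
  rw [filter_filter]
  rw [card_filter, ← univ_product_univ, sum_product]
  rw [← sum_filter_add_sum_filter_not univ (fun u => u ∈ X)]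
  have h2 : ∑ u ∈ univ.filter (fun u => u ∉ X), ∑ v : {z : ℤ // z ∈ B},
      (if μ (u : ℤ) (v : ℤ) ≠ 0 ∧ u ∈ X ∧ v ∉ X then 1 else 0) = 0 := by
    apply sum_eq_zero; intro u hu
    apply sum_eq_zero; intro v _
    have := (mem_filter.mp hu).2
    rw [if_neg]; tauto
  rw [h2, add_zero]
  have h3 : univ.filter (fun u => u ∈ X) = X := by ext; simp
  rw [h3]
  apply sum_congr rfl; intro u hu
  have h4 : Xᶜ = univ.filter (fun v => v ∉ X) := by ext; simp
  rw [h4, sum_filter]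
  apply sum_congr rfl; intro v _
  have h5 := hμ1 u v
  by_cases hv : v ∈ X
  · simp [hv]
  · by_cases h0 : μ u v = 0
    · simp [h0]
    · have h6 : μ u v = 1 := by omega
      simp [hu, hv, h6]

lemma PS_of_fun (B : Finset ℤ) (μ : ℤ → ℤ → ℕ) (hμ : ∀ u v, μ u v ≠ 0 → u < v)
    (hμ1 : ∀ u v, μ u v ≤ 1) (m : ℕ) (K : ℝ)
    (hm : ∑ u ∈ B, ∑ v ∈ B, μ u v = m)
    (hF : ∀ x : ℤ → ℝ, (∀ v, x v * x v = 1) → Fun B μ x ≤ 4 * K) : PS m K := by
  refine ⟨{z : ℤ // z ∈ B}, inferInstance, inferInstance,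
    univ.filter (fun e : {z : ℤ // z ∈ B} × {z : ℤ // z ∈ B} => μ e.1 e.2 ≠ 0), ?_, ?_, ?_⟩
  · apply acyclic_of_lt _ (fun u : {z : ℤ // z ∈ B} => (u : ℤ))
    intro u v h
    have := (mem_filter.mp h).2
    exact hμ u v this
  · rw [card_filter, ← univ_product_univ, sum_product, ← hm, ← Finset.sum_coe_sort B]
    apply sum_congr rfl; intro u _
    rw [← Finset.sum_coe_sort B]
    apply sum_congr rfl; intro v _
    have h5 := hμ1 u v
    by_cases h0 : μ u v = 0
    · simp [h0]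
    · have h6 : μ u v = 1 := by omega
      simp [h6]
  · intro X
    rw [dicutSize_eq B μ hμ1 X]
    have h1 := Fun_sub B μ X
    have h2 := hF (sg B X) (sg_sq B X)
    have h3 : Tot B μ = m := by
      unfold Tot
      rw [← hm]; push_cast; rfl
    linarith

/-- arcs on the left -/
def eL (V W : Type) : V × V ↪ (V ⊕ W) × (V ⊕ W) :=
  ⟨fun e => (Sum.inl e.1, Sum.inl e.2), fun e e' h => by
      simp only [Prod.mk.injEq, Sum.inl.injEq] at h; exact Prod.ext h.1 h.2⟩

/-- arcs on the right -/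
def eR (V W : Type) : W × W ↪ (V ⊕ W) × (V ⊕ W) :=
  ⟨fun e => (Sum.inr e.1, Sum.inr e.2), fun e e' h => by
      simp only [Prod.mk.injEq, Sum.inr.injEq] at h; exact Prod.ext h.1 h.2⟩

@[simp] lemma eL_apply (V W : Type) (e : V × V) : eL V W e = (Sum.inl e.1, Sum.inl e.2) := rfl
@[simp] lemma eR_apply (V W : Type) (e : W × W) : eR V W e = (Sum.inr e.1, Sum.inr e.2) := rfl

lemma PS_add {m₁ m₂ : ℕ} {K₁ K₂ : ℝ} (h₁ : PS m₁ K₁) (h₂ : PS m₂ K₂) : PS (m₁ + m₂) (K₁ + K₂) := by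
  obtain ⟨V, _, _, A, hac, htot, hX⟩ := h₁
  obtain ⟨W, _, _, A', hbc, hbtot, hY⟩ := h₂
  refine ⟨V ⊕ W, inferInstance, inferInstance, A.map (eL V W) ∪ A'.map (eR V W), ?_, ?_, ?_⟩
  · apply acyclic_mono _ (Sum.LiftRel (fun u v => (u, v) ∈ A) (fun u v => (u, v) ∈ A')) _ (acyclic_sum _ _ hac hbc)
    intro u v h
    simp only [mem_union, mem_map, eL_apply, eR_apply, Prod.mk.injEq, Prod.exists] at h
    rcases h with ⟨a, b, hab, rfl, rfl⟩ | ⟨a, b, hab, rfl, rfl⟩
    · exact Sum.LiftRel.inl hab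
    · exact Sum.LiftRel.inr hab
  · rw [card_union_of_disjoint, card_map, card_map, htot, hbtot]
    rw [disjoint_left]
    intro e he he'
    simp only [mem_map] at he he'
    obtain ⟨x, _, rfl⟩ := he
    obtain ⟨y, _, hy⟩ := he'
    simp at hy
  · intro Z
    have hXZ := hX (univ.filter (fun u => Sum.inl u ∈ Z))
    have hYZ := hY (univ.filter (fun u => Sum.inr u ∈ Z))
    have key : dicutSize (A.map (eL V W) ∪ A'.map (eR V W)) Z
        ≤ dicutSize A (univ.filter (fun u => Sum.inl u ∈ Z))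
        + dicutSize A' (univ.filter (fun u => Sum.inr u ∈ Z)) := by
      unfold dicutSize
      rw [filter_union]
      refine le_trans (card_union_le _ _) ?_
      rw [filter_map, filter_map, card_map, card_map]
      apply le_of_eq
      congr 2
      · ext e; simp
      · ext e; simp
    have key' : ((dicutSize (A.map (eL V W) ∪ A'.map (eR V W)) Z : ℕ) : ℝ)
        ≤ (dicutSize A (univ.filter (fun u => Sum.inl u ∈ Z)) : ℝ)
        + (dicutSize A' (univ.filter (fun u => Sum.inr u ∈ Z)) : ℝ) := by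
      exact_mod_cast key
    refine le_trans key' ?_
    push_cast
    linarith

lemma PS_one : PS 1 1 := by
  refine ⟨Bool, inferInstance, inferInstance, {(false, true)}, ?_, ?_, ?_⟩
  · apply acyclic_of_lt _ (fun b => if b then 1 else 0)
    intro u v h
    cases u <;> cases v <;> simp at h ⊢
  · simp
  · intro X
    have h1 : dicutSize ({(false, true)} : Finset (Bool × Bool)) X ≤ 1 := by
      unfold dicutSize
      refine le_trans (card_le_card (filter_subset _ _)) ?_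
      simp
    have h2 : ((dicutSize ({(false, true)} : Finset (Bool × Bool)) X : ℕ) : ℝ) ≤ 1 := by exact_mod_cast h1
    push_cast
    linarith

lemma PS_zero : PS 0 0 := by
  refine ⟨Bool, inferInstance, inferInstance, ∅, ?_, ?_, ?_⟩
  · apply acyclic_of_lt _ (fun b => if b then 1 else 0)
    intro u v h
    simp at h
  · simp
  · intro X
    simp [dicutSize]

lemma PS_trivial (m : ℕ) : PS m m := by
  induction m with
  | zero => simpa using PS_zero
  | succ n ih =>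
    have := PS_add ih PS_one
    push_cast
    exact this

/-- greedy completion -/
lemma greedy (P : ℕ → ℝ → Prop)
    (hadd : ∀ m₁ m₂ K₁ K₂, P m₁ K₁ → P m₂ K₂ → P (m₁ + m₂) (K₁ + K₂))
    (hmono : ∀ m K K', P m K → K ≤ K' → P m K')
    (htriv : ∀ m : ℕ, P m m) (θ δ K C : ℝ) (hθ0 : 0 < θ) (hθ1 : θ ≤ 1) (hδ1 : δ ≤ 1)
    (hC0 : 0 ≤ C) (hK : K ≤ C * (δ * θ)) (m0 Mx : ℕ) (hC : (m0 : ℝ) ≤ C)
    (hstep : ∀ m : ℕ, m0 ≤ m → m ≤ Mx → ∃ m' : ℕ, 1 ≤ m' ∧ m' ≤ m ∧ δ * m ≤ m' ∧ P m' (K * (m : ℝ) ^ θ)) :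
    ∀ m : ℕ, m ≤ Mx → P m (C * (m : ℝ) ^ θ) := by
  intro m
  induction m using Nat.strong_induction_on with
  | _ m ih =>
    intro hm
    rcases Nat.eq_zero_or_pos m with h0 | hpos
    · subst h0
      have := htriv 0
      apply hmono _ _ _ this
      push_cast
      rw [Real.zero_rpow hθ0.ne']
      simp
    have hm1 : (1 : ℝ) ≤ m := by exact_mod_cast hpos
    rcases lt_or_ge m m0 with hlt | hge
    · apply hmono _ _ _ (htriv m)
      have h1 : (m : ℝ) ≤ m0 := by exact_mod_cast hlt.le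
      have h2 : (1 : ℝ) ≤ (m : ℝ) ^ θ := Real.one_le_rpow hm1 hθ0.le
      nlinarith
    · obtain ⟨m', h1, h2, h3, h4⟩ := hstep m hge hm
      have h5 := ih (m - m') (by omega) (by omega)
      have h6 := hadd _ _ _ _ h4 h5
      have h7 : m' + (m - m') = m := by omega
      rw [h7] at h6
      apply hmono _ _ _ h6
      have h8 : ((m - m' : ℕ) : ℝ) = (m : ℝ) - m' := by
        rw [Nat.cast_sub h2]
      have h9 : ((m - m' : ℕ) : ℝ) ^ θ ≤ ((1 - δ) * m) ^ θ := by
        apply Real.rpow_le_rpow (Nat.cast_nonneg _) _ hθ0.le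
        rw [h8]; linarith
      have h10 : ((1 - δ) * (m : ℝ)) ^ θ = (1 - δ) ^ θ * (m : ℝ) ^ θ :=
        Real.mul_rpow (by linarith) (by linarith)
      have h11 : (1 - δ) ^ θ ≤ 1 - δ * θ := by
        have := rpow_one_add_le_one_add_mul_self (s := -δ) (by linarith) hθ0.le hθ1
        have h : 1 + -δ = 1 - δ := by ring
        rw [h] at this
        linarith
      have h12 : (0 : ℝ) ≤ (m : ℝ) ^ θ := by positivity
      have h13 : C * ((m - m' : ℕ) : ℝ) ^ θ ≤ C * ((1 - δ * θ) * (m : ℝ) ^ θ) := by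
        apply mul_le_mul_of_nonneg_left _ hC0
        refine le_trans h9 ?_
        rw [h10]
        exact mul_le_mul_of_nonneg_right h11 h12
      nlinarith

end Pool.Agent.Dicut
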