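import Mathlib
import Pool.Agent.Dicut.Core2

set_option autoImplicit false

namespace Pool.Agent.Dicut

open Finset

/-- the `q`-th row -/
noncomputable def row (ctr A : ℤ → ℤ) (q : ℤ) : Finset ℤ := Ico (ctr q - A q) (ctr q + A q)

/-- multiplicities of the row cliques -/
noncomputable def rowMult (ctr A : ℤ → ℤ) (M u v : ℤ) : ℕ :=
  ∑ q ∈ Ico 0 M, if u ∈ row ctr A q ∧ v ∈ row ctr A q ∧ u < v then 1 else 0

lemma rowMult_lt (ctr A : ℤ → ℤ) (M u v : ℤ) (h : rowMult ctr A M u v ≠ 0) : u < v := by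
  unfold rowMult at h
  obtain ⟨q, _, hq⟩ := exists_ne_zero_of_sum_ne_zero h
  by_contra hlt
  apply hq
  rw [if_neg]
  tauto

lemma rowMult_sum (ctr A : ℤ → ℤ) (M : ℤ) (B : Finset ℤ) (hB : ∀ q ∈ Ico 0 M, row ctr A q ⊆ B)
    (f : ℤ → ℤ → ℝ) :
    ∑ u ∈ B, ∑ v ∈ B, (rowMult ctr A M u v : ℝ) * f u v
      = ∑ q ∈ Ico 0 M, ∑ u ∈ row ctr A q, ∑ v ∈ row ctr A q, if u < v then f u v else 0 := by
  unfold rowMult
  have h1 : ∑ u ∈ B, ∑ v ∈ B, ((∑ q ∈ Ico 0 M, if u ∈ row ctr A q ∧ v ∈ row ctr A q ∧ u < v then 1 else 0 : ℕ) : ℝ) * f u v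
      = ∑ u ∈ B, ∑ v ∈ B, ∑ q ∈ Ico 0 M,
          ((if u ∈ row ctr A q ∧ v ∈ row ctr A q ∧ u < v then 1 else 0 : ℕ) : ℝ) * f u v := by
    apply sum_congr rfl; intro u _
    apply sum_congr rfl; intro v _
    rw [Nat.cast_sum, sum_mul]
  rw [h1]
  calc ∑ u ∈ B, ∑ v ∈ B, ∑ q ∈ Ico 0 M,
          ((if u ∈ row ctr A q ∧ v ∈ row ctr A q ∧ u < v then 1 else 0 : ℕ) : ℝ) * f u v
      = ∑ u ∈ B, ∑ q ∈ Ico 0 M, ∑ v ∈ B,
          ((if u ∈ row ctr A q ∧ v ∈ row ctr A q ∧ u < v then 1 else 0 : ℕ) : ℝ) * f u v := by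
        apply sum_congr rfl; intro u _; rw [sum_comm]
    _ = ∑ q ∈ Ico 0 M, ∑ u ∈ B, ∑ v ∈ B,
          ((if u ∈ row ctr A q ∧ v ∈ row ctr A q ∧ u < v then 1 else 0 : ℕ) : ℝ) * f u v := by
        rw [sum_comm]
    _ = _ := by
        apply sum_congr rfl; intro q hq
        exact ind_sum B _ _ (hB q hq) (hB q hq) f

lemma pair_count (a b : ℤ) (hab : a ≤ b) :
    ∑ u ∈ Ico a b, ∑ v ∈ Ico a b, (if u < v then (1 : ℝ) else 0) = ((b : ℝ) - a) * ((b : ℝ) - a - 1) / 2 := by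
  induction b, hab using Int.leInduction with
  | base => simp
  | succ b hb ih =>
    rw [sum_insert_Ico _ a b hb]
    have h1 : ∑ v ∈ Ico a (b + 1), (if b < v then (1 : ℝ) else 0) = 0 := by
      apply sum_eq_zero; intro v hv
      rw [if_neg]
      have := mem_Ico.mp hv
      omega
    rw [h1, add_zero]
    have h2 : ∀ u ∈ Ico a b, ∑ v ∈ Ico a (b + 1), (if u < v then (1 : ℝ) else 0)
        = ∑ v ∈ Ico a b, (if u < v then (1 : ℝ) else 0) + 1 := by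
      intro u hu
      rw [sum_insert_Ico _ a b hb, if_pos (mem_Ico.mp hu).2]
    rw [sum_congr rfl h2, sum_add_distrib, ih, sum_const, nsmul_eq_mul, card_Ico_real a b hb]
    push_cast
    ring

lemma Fun_row_le (ctr A : ℤ → ℤ) (M : ℤ) (hA : ∀ q, 0 ≤ A q) (B : Finset ℤ)
    (hB : ∀ q ∈ Ico 0 M, row ctr A q ⊆ B) (x : ℤ → ℝ) (hx : ∀ v, x v * x v = 1) :
    Fun B (fun u v => rowMult ctr A M u v) x ≤ rowSaw M ctr A x + ∑ q ∈ Ico 0 M, (A q : ℝ) := by
  unfold Fun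
  rw [rowMult_sum ctr A M B hB (fun u v => x u - x v - x u * x v)]
  unfold rowSaw
  rw [← sum_add_distrib]
  apply sum_le_sum
  intro q _
  have h := interval_identity x hx (ctr q - A q) (ctr q + A q) (by have := hA q; omega)
  unfold pairf at h
  unfold row
  rw [h]
  push_cast
  have h2 : ∑ v ∈ Ico (ctr q - A q) (ctr q + A q), (((ctr q : ℝ) - A q) + (ctr q + A q) - 1 - 2 * v) * x v
      = ∑ v ∈ Ico (ctr q - A q) (ctr q + A q), (2 * (ctr q : ℝ) - 1 - 2 * v) * x v := by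
    apply sum_congr rfl; intro v _; ring
  rw [h2]
  have h3 : 0 ≤ (∑ v ∈ Ico (ctr q - A q) (ctr q + A q), x v) ^ 2 := sq_nonneg _
  linarith

lemma Tot_row (ctr A : ℤ → ℤ) (M : ℤ) (hA : ∀ q, 0 ≤ A q) (B : Finset ℤ)
    (hB : ∀ q ∈ Ico 0 M, row ctr A q ⊆ B) :
    Tot B (fun u v => rowMult ctr A M u v) = ∑ q ∈ Ico 0 M, (A q : ℝ) * (2 * A q - 1) := by
  have h := rowMult_sum ctr A M B hB (fun _ _ => 1)
  simp only [mul_one] at h
  unfold Tot
  rw [h]
  apply sum_congr rfl; intro q _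
  unfold row
  rw [pair_count _ _ (by have := hA q; omega)]
  push_cast
  ring

/-- the profile of the half-lengths of the rows -/
noncomputable def prof (N q : ℤ) : ℤ := N * max 0 (N - |q - N|)

lemma prof_nonneg (N : ℤ) (hN : 0 ≤ N) (q : ℤ) : 0 ≤ prof N q := by
  unfold prof
  exact mul_nonneg hN (le_max_left _ _)

lemma prof_le (N : ℤ) (hN : 0 ≤ N) (q : ℤ) : prof N q ≤ N * N := by
  unfold prof
  apply mul_le_mul_of_nonneg_left _ hN
  have := abs_nonneg (q - N)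
  omega

lemma prof_supp (N : ℤ) (q : ℤ) (h : q < 0 ∨ 2 * N + 1 ≤ q) : prof N q = 0 := by
  unfold prof
  rcases h with h | h
  · have h1 : max 0 (N - |q - N|) = 0 := by
      rcases abs_cases (q - N) with ⟨h1, _⟩ | ⟨h1, _⟩ <;> rw [h1] <;> omega
    rw [h1]; ring
  · have h1 : max 0 (N - |q - N|) = 0 := by
      rcases abs_cases (q - N) with ⟨h1, _⟩ | ⟨h1, _⟩ <;> rw [h1] <;> omega
    rw [h1]; ring

lemma prof_diff (N : ℤ) (hN : 0 ≤ N) (q : ℤ) : dA (prof N) q ≤ N := by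
  unfold dA prof
  rw [← mul_sub, abs_mul, abs_of_nonneg hN]
  have h1 : |max 0 (N - |q + 1 - N|) - max 0 (N - |q - N|)| ≤ 1 := by
    rw [abs_le]
    rcases abs_cases (q + 1 - N) with ⟨h1, _⟩ | ⟨h1, _⟩ <;> rw [h1] <;>
      rcases abs_cases (q - N) with ⟨h2, _⟩ | ⟨h2, _⟩ <;> rw [h2] <;> omega
  nlinarith

lemma prof_chain (N : ℤ) (hN : 0 ≤ N) :
    Chain (2 * N + 1) (-(N * N)) (4 * N * (N * N) + N * N) (fun q => 2 * (N * N) * q) (prof N) where
  nonneg := prof_nonneg N hN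
  supp := prof_supp N
  ord := by
    intro q _ q' _ hlt
    have h1 := prof_le N hN q
    have h2 := prof_le N hN q'
    have h3 : 0 ≤ N * N := mul_nonneg hN hN
    show 2 * (N * N) * q + prof N q ≤ 2 * (N * N) * q' - prof N q'
    have h4 : q + 1 ≤ q' := hlt
    nlinarith
  box := by
    intro q hq
    have h1 := prof_le N hN q
    have h3 : 0 ≤ N * N := mul_nonneg hN hN
    have h5 := mem_Ico.mp hq
    constructor
    · show -(N * N) ≤ 2 * (N * N) * q - prof N q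
      nlinarith [mul_nonneg h3 h5.1]
    · show 2 * (N * N) * q + prof N q ≤ 4 * N * (N * N) + N * N
      have h6 : q ≤ 2 * N := by omega
      nlinarith [mul_le_mul_of_nonneg_left h6 h3]

lemma prof_energy (N : ℤ) (hN : 1 ≤ N) : energy (prof N) (2 * N + 1) ≤ 4 * (N : ℝ) ^ 3 := by
  unfold energy
  have hN' : (1 : ℝ) ≤ N := by exact_mod_cast hN
  calc ∑ j ∈ Ico (-1) (2 * N + 1), (dA (prof N) j : ℝ) ^ 2
      ≤ ∑ j ∈ Ico (-1) (2 * N + 1), (N : ℝ) ^ 2 := by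
        apply sum_le_sum; intro j _
        have h1 := prof_diff N (by omega) j
        have h2 : 0 ≤ dA (prof N) j := abs_nonneg _
        have h3 : (dA (prof N) j : ℝ) ≤ N := by exact_mod_cast h1
        have h4 : (0 : ℝ) ≤ dA (prof N) j := by exact_mod_cast h2
        exact pow_le_pow_left₀ h4 h3 2
    _ = (2 * (N : ℝ) + 2) * (N : ℝ) ^ 2 := by
        rw [sum_const, nsmul_eq_mul, card_Ico_real _ _ (by omega)]
        push_cast; ring
    _ ≤ 4 * (N : ℝ) ^ 3 := by nlinarith [pow_pos (show (0 : ℝ) < N by linarith) 2]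

lemma prof_sum (N : ℤ) (hN : 1 ≤ N) : ∑ q ∈ Ico 0 (2 * N + 1), (prof N q : ℝ) ≤ 3 * (N : ℝ) ^ 3 := by
  have hN' : (1 : ℝ) ≤ N := by exact_mod_cast hN
  calc ∑ q ∈ Ico 0 (2 * N + 1), (prof N q : ℝ)
      ≤ ∑ q ∈ Ico 0 (2 * N + 1), (N : ℝ) ^ 2 := by
        apply sum_le_sum; intro q _
        have h1 := prof_le N (by omega) q
        have h2 : (prof N q : ℝ) ≤ N * N := by exact_mod_cast h1
        linarith [sq (N : ℝ)]
    _ = (2 * (N : ℝ) + 1) * (N : ℝ) ^ 2 := by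
        rw [sum_const, nsmul_eq_mul, card_Ico_real _ _ (by omega)]
        push_cast; ring
    _ ≤ 3 * (N : ℝ) ^ 3 := by nlinarith [pow_pos (show (0 : ℝ) < N by linarith) 2]

lemma prof_tot_le (N : ℤ) (hN : 1 ≤ N) :
    ∑ q ∈ Ico 0 (2 * N + 1), (prof N q : ℝ) * (2 * prof N q - 1) ≤ 6 * (N : ℝ) ^ 5 := by
  have hN' : (1 : ℝ) ≤ N := by exact_mod_cast hN
  calc ∑ q ∈ Ico 0 (2 * N + 1), (prof N q : ℝ) * (2 * prof N q - 1)
      ≤ ∑ q ∈ Ico 0 (2 * N + 1), 2 * (N : ℝ) ^ 4 := by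
        apply sum_le_sum; intro q _
        have h1 := prof_le N (by omega) q
        have h0 := prof_nonneg N (by omega) q
        have h2 : (prof N q : ℝ) ≤ N * N := by exact_mod_cast h1
        have h3 : (0 : ℝ) ≤ prof N q := by exact_mod_cast h0
        nlinarith [mul_le_mul h2 h2 h3 (by positivity : (0 : ℝ) ≤ (N : ℝ) * N)]
    _ = (2 * (N : ℝ) + 1) * (2 * (N : ℝ) ^ 4) := by
        rw [sum_const, nsmul_eq_mul, card_Ico_real _ _ (by omega)]
        push_cast; ring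
    _ ≤ 6 * (N : ℝ) ^ 5 := by nlinarith [pow_pos (show (0 : ℝ) < N by linarith) 4]

/-- lower bound for the number of arcs, even `N` -/
lemma prof_tot_ge (n : ℤ) (hn : 1 ≤ n) :
    8 * (n : ℝ) ^ 5 ≤ ∑ q ∈ Ico 0 (2 * (2 * n) + 1), (prof (2 * n) q : ℝ) * (2 * prof (2 * n) q - 1) := by
  have hn' : (1 : ℝ) ≤ n := by exact_mod_cast hn
  have hsub : Ico n (3 * n) ⊆ Ico 0 (2 * (2 * n) + 1) := by
    intro z hz; simp only [mem_Ico] at hz ⊢; omega
  have hnn : ∀ q, 0 ≤ (prof (2 * n) q : ℝ) * (2 * prof (2 * n) q - 1) := by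
    intro q
    have h0 := prof_nonneg (2 * n) (by omega) q
    rcases eq_or_lt_of_le h0 with h | h
    · rw [← h]; simp
    · have h1 : (1 : ℝ) ≤ prof (2 * n) q := by exact_mod_cast h
      nlinarith
  calc 8 * (n : ℝ) ^ 5 ≤ (2 * (n : ℝ)) * (4 * (n : ℝ) ^ 4) := by nlinarith
    _ = ∑ q ∈ Ico n (3 * n), 4 * (n : ℝ) ^ 4 := by
        rw [sum_const, nsmul_eq_mul, card_Ico_real _ _ (by omega)]
        push_cast; ring
    _ ≤ ∑ q ∈ Ico n (3 * n), (prof (2 * n) q : ℝ) * (2 * prof (2 * n) q - 1) := by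
        apply sum_le_sum; intro q hq
        have hq' := mem_Ico.mp hq
        have h1 : n ≤ max 0 (2 * n - |q - 2 * n|) := by
          rcases abs_cases (q - 2 * n) with ⟨h2, _⟩ | ⟨h2, _⟩ <;> rw [h2] <;> omega
        have h2 : 2 * n * n ≤ prof (2 * n) q := by
          unfold prof
          exact mul_le_mul_of_nonneg_left h1 (by omega)
        have h3 : 2 * (n : ℝ) * n ≤ prof (2 * n) q := by exact_mod_cast h2
        have h4 : (1 : ℝ) ≤ (n : ℝ) * n := by nlinarith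
        have h5 : (prof (2 * n) q : ℝ) ≤ 2 * prof (2 * n) q - 1 := by linarith
        have h6 : (2 * (n : ℝ) * n) * (2 * (n : ℝ) * n) ≤ (prof (2 * n) q : ℝ) * (2 * prof (2 * n) q - 1) :=
          mul_le_mul h3 (by linarith) (by positivity) (by linarith)
        nlinarith
    _ ≤ _ := sum_le_sum_of_subset_of_nonneg hsub (fun q _ _ => hnn q)

end Pool.Agent.Dicut
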