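import Mathlib
import Pool.Agent.Dicut.Core

set_option autoImplicit false

namespace Pool.Agent.Dicut

open Finset

variable {V : Type} [Fintype V] [DecidableEq V]

/-- the functional -/
noncomputable def Gf (a : V → V → ℝ) (x : V → ℝ) : ℝ := ∑ u, ∑ v, a u v * (x u - x v - x u * x v)

lemma Gf_affine (a : V → V → ℝ) (hloop : ∀ v, a v v = 0) (x : V → ℝ) (b : V) (t : ℝ) :
    Gf a (Function.update x b t)
      = (1 + t) / 2 * Gf a (Function.update x b 1) + (1 - t) / 2 * Gf a (Function.update x b (-1)) := by
  unfold Gf
  rw [mul_sum, mul_sum, ← sum_add_distrib]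
  apply sum_congr rfl; intro u _
  rw [mul_sum, mul_sum, ← sum_add_distrib]
  apply sum_congr rfl; intro v _
  by_cases hu : u = b
  · by_cases hv : v = b
    · subst hu; subst hv; rw [hloop]; ring
    · subst hu
      simp only [Function.update_self, Function.update_of_ne hv]
      ring
  · by_cases hv : v = b
    · subst hv
      simp only [Function.update_self, Function.update_of_ne hu]
      ring
    · simp only [Function.update_of_ne hu, Function.update_of_ne hv]
      ring

lemma Gf_round (a : V → V → ℝ) (hloop : ∀ v, a v v = 0) (G : ℝ)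
    (hG : ∀ X : Finset V, 4 * dicutWeight a X ≤ (∑ u, ∑ v, a u v) + G) :
    ∀ S : Finset V, ∀ x : V → ℝ, (∀ v, |x v| ≤ 1) → (∀ v, v ∉ S → x v = 1 ∨ x v = -1) → Gf a x ≤ G := by
  intro S
  induction S using Finset.induction_on with
  | empty =>
    intro x _ hx
    have h := hG (univ.filter (fun v => x v = 1))
    rw [four_dicut] at h
    have h2 : ∀ u, (if u ∈ univ.filter (fun v => x v = 1) then (1 : ℝ) else -1) = x u := by
      intro u
      rcases hx u (notMem_empty u) with e | e
      · rw [if_pos (by simp [e]), e]
      · rw [if_neg (by simp [e]; norm_num), e]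
    simp only [h2] at h
    unfold Gf
    linarith
  | insert b S hb ih =>
    intro x hx1 hx
    have hself : Function.update x b (x b) = x := Function.update_eq_self b x
    rw [← hself, Gf_affine a hloop x b (x b)]
    have hb1 := abs_le.mp (hx1 b)
    have k1 : Gf a (Function.update x b 1) ≤ G := by
      apply ih
      · intro v
        by_cases hv : v = b
        · subst hv; simp
        · rw [Function.update_of_ne hv]; exact hx1 v
      · intro v hv
        by_cases hvb : v = b
        · subst hvb; simp
        · rw [Function.update_of_ne hvb]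
          exact hx v (by simp [hvb, hv])
    have k2 : Gf a (Function.update x b (-1)) ≤ G := by
      apply ih
      · intro v
        by_cases hv : v = b
        · subst hv; simp
        · rw [Function.update_of_ne hv]; exact hx1 v
      · intro v hv
        by_cases hvb : v = b
        · subst hvb; simp
        · rw [Function.update_of_ne hvb]
          exact hx v (by simp [hvb, hv])
    have c1 : 0 ≤ (1 + x b) / 2 := by linarith
    have c2 : 0 ≤ (1 - x b) / 2 := by linarith
    nlinarith [mul_le_mul_of_nonneg_left k1 c1, mul_le_mul_of_nonneg_left k2 c2]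

lemma Gf_le (a : V → V → ℝ) (hloop : ∀ v, a v v = 0) (G : ℝ)
    (hG : ∀ X : Finset V, 4 * dicutWeight a X ≤ (∑ u, ∑ v, a u v) + G)
    (x : V → ℝ) (hx : ∀ v, |x v| ≤ 1) : Gf a x ≤ G :=
  Gf_round a hloop G hG univ x hx (fun v hv => absurd (mem_univ v) hv)

lemma Gf_par (a : V → V → ℝ) (x y : V → ℝ) :
    Gf a (fun u => x u + y u) + Gf a (fun u => x u - y u)
      = 2 * Gf a x - 2 * ∑ u, ∑ v, a u v * (y u * y v) := by
  unfold Gf
  rw [← sum_add_distrib, mul_sum, mul_sum, ← sum_sub_distrib]
  apply sum_congr rfl; intro u _
  rw [← sum_add_distrib, mul_sum, mul_sum, ← sum_sub_distrib]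
  apply sum_congr rfl; intro v _
  ring

lemma block_lemma (a : V → V → ℝ) (c : V → V) (p : V → ℝ) (J : Finset V) :
    ∃ s : V → ℝ, (∀ b, |s b| ≤ 1) ∧
      - ∑ u, ∑ v, (if c u = c v ∧ c u ∈ J then a u v * (p u * p v) else 0)
        ≤ Gf a (fun u => if c u ∈ J then s (c u) * p u else 0) := by
  induction J using Finset.induction_on with
  | empty =>
    refine ⟨fun _ => 0, by simp, ?_⟩
    unfold Gf
    simp
  | insert b J hb ih =>
    obtain ⟨s, hs, hle⟩ := ih
    set x : V → ℝ := fun u => if c u ∈ J then s (c u) * p u else 0 with hx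
    set y : V → ℝ := fun u => if c u = b then p u else 0 with hy
    have hpar := Gf_par a x y
    have hsplit : ∑ u, ∑ v, (if c u = c v ∧ c u ∈ insert b J then a u v * (p u * p v) else 0)
        = ∑ u, ∑ v, (if c u = c v ∧ c u ∈ J then a u v * (p u * p v) else 0)
          + ∑ u, ∑ v, a u v * (y u * y v) := by
      rw [← sum_add_distrib]
      apply sum_congr rfl; intro u _
      rw [← sum_add_distrib]
      apply sum_congr rfl; intro v _
      simp only [hy]
      by_cases h1 : c u = b
      · by_cases h2 : c v = b
        · have : b ∉ J := hb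
          simp [h1, h2, this]
        · have h3 : ¬ (b = c v) := fun h => h2 h.symm
          simp [h1, h2, h3]
      · by_cases h2 : c u = c v
        · simp [h1, h2]
          have h3 : ¬ (c v = b) := by rw [← h2]; exact h1
          simp [h3]
        · simp [h1, h2]
    have key : ∀ t : ℝ, (fun u => if c u ∈ insert b J then (Function.update s b t) (c u) * p u else 0)
        = fun u => x u + t * y u := by
      intro t
      ext u
      simp only [hx, hy]
      by_cases h1 : c u = b
      · rw [h1]; simp [hb]
      · simp [h1, Function.update_of_ne h1]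
    by_cases hcase : Gf a (fun u => x u + y u) ≥ Gf a x - ∑ u, ∑ v, a u v * (y u * y v)
    · refine ⟨Function.update s b 1, ?_, ?_⟩
      · intro v
        by_cases hv : v = b
        · subst hv; simp
        · rw [Function.update_of_ne hv]; exact hs v
      · rw [key 1, hsplit]
        simp only [one_mul]
        linarith
    · refine ⟨Function.update s b (-1), ?_, ?_⟩
      · intro v
        by_cases hv : v = b
        · subst hv; simp
        · rw [Function.update_of_ne hv]; exact hs v
      · rw [key (-1), hsplit]
        have e : (fun u => x u + -1 * y u) = fun u => x u - y u := by ext u; ring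
        rw [e]
        push Not at hcase
        linarith

lemma star_lemma (a : V → V → ℝ) (hloop : ∀ v, a v v = 0) (G : ℝ)
    (H : ∀ x : V → ℝ, (∀ v, |x v| ≤ 1) → Gf a x ≤ G) (c : V → V) (hc : ∀ u, c (c u) = c u)
    (hl : ∀ u v, c u ≠ u → c v ≠ v → c u = c v → a u v = 0) :
    ∑ u, (if c u ≠ u then a u (c u) + a (c u) u else 0) ≤ G := by
  obtain ⟨s, hs, hle⟩ := block_lemma a c (fun u => if c u = u then 1 else -1) univ
  have h1 := H (fun u => if c u ∈ univ then s (c u) * (if c u = u then 1 else -1) else 0) (by
    intro v
    simp only [mem_univ, if_true]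
    rw [abs_mul]
    have : |(if c v = v then (1 : ℝ) else -1)| = 1 := by split_ifs <;> simp
    rw [this, mul_one]; exact hs _)
  refine le_trans (le_of_eq ?_) (le_trans hle h1)
  rw [← sum_neg_distrib]
  have hpt : ∀ u v : V, -(if c u = c v ∧ c u ∈ univ then a u v * ((if c u = u then (1 : ℝ) else -1) * (if c v = v then 1 else -1)) else 0)
      = (if c u ≠ u ∧ v = c u then a u v else 0) + (if c v ≠ v ∧ u = c v then a u v else 0) := by
    intro u v
    by_cases h1 : c u = c v
    · by_cases h2 : c u = u
      · by_cases h3 : c v = v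
        · have huv : u = v := by rw [← h2, h1, h3]
          subst huv
          rw [hloop]; simp
        · have h4 : u = c v := by rw [← h1, h2]
          have h5 : ¬ (c v = v) := h3
          rw [if_pos ⟨h1, mem_univ _⟩, if_pos h2, if_neg h3, if_neg (by tauto), if_pos ⟨h5, h4⟩]
          ring
      · by_cases h3 : c v = v
        · have h4 : v = c u := by rw [h1, h3]
          rw [if_pos ⟨h1, mem_univ _⟩, if_neg h2, if_pos h3, if_pos ⟨h2, h4⟩, if_neg (by tauto)]
          ring
        · rw [hl u v h2 h3 h1]; simp
    · rw [if_neg (by tauto)]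
      have n1 : ¬ (c u ≠ u ∧ v = c u) := by
        rintro ⟨_, h⟩
        apply h1
        rw [h, hc]
      have n2 : ¬ (c v ≠ v ∧ u = c v) := by
        rintro ⟨_, h⟩
        apply h1
        rw [h, hc]
      rw [if_neg n1, if_neg n2]; ring
  have hsum : ∑ u, -∑ v, (if c u = c v ∧ c u ∈ univ then a u v * ((if c u = u then (1 : ℝ) else -1) * (if c v = v then 1 else -1)) else 0)
      = ∑ u, ∑ v, ((if c u ≠ u ∧ v = c u then a u v else 0) + (if c v ≠ v ∧ u = c v then a u v else 0)) := by
    apply sum_congr rfl; intro u _
    rw [← sum_neg_distrib]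
    apply sum_congr rfl; intro v _
    exact hpt u v
  rw [hsum]
  simp only [sum_add_distrib]
  have e1 : ∑ u, ∑ v, (if c u ≠ u ∧ v = c u then a u v else 0) = ∑ u, (if c u ≠ u then a u (c u) else 0) := by
    apply sum_congr rfl; intro u _
    by_cases h : c u ≠ u
    · simp [h]
    · simp [h]
  have e2 : ∑ u, ∑ v, (if c v ≠ v ∧ u = c v then a u v else 0) = ∑ v, (if c v ≠ v then a (c v) v else 0) := by
    rw [sum_comm]
    apply sum_congr rfl; intro v _
    by_cases h : c v ≠ v
    · simp [h]
    · simp [h]
  rw [e1, e2, ← sum_add_distrib]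
  apply sum_congr rfl; intro u _
  split_ifs <;> ring

end Pool.Agent.Dicut
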