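import Mathlib
import Pool.Agent.Dicut.Lower

set_option autoImplicit false

namespace Pool.Agent.Dicut

open Finset

variable {V : Type} [Fintype V] [DecidableEq V]

/-- the data of the lower bound -/
structure WData (a : V → V → ℝ) (G : ℝ) : Prop where
  wt : ∀ u v, a u v = 0 ∨ 1 ≤ a u v
  ac : Acyclic (fun u v => a u v ≠ 0)
  H : ∀ x : V → ℝ, (∀ v, |x v| ≤ 1) → Gf a x ≤ G

lemma WData.nonneg {a : V → V → ℝ} {G : ℝ} (D : WData a G) (u v : V) : 0 ≤ a u v := by
  rcases D.wt u v with h | h
  · rw [h]
  · linarith

lemma WData.loop {a : V → V → ℝ} {G : ℝ} (D : WData a G) (v : V) : a v v = 0 := by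
  by_contra h
  exact D.ac v (Relation.TransGen.single h)

open Classical in
/-- non-isolated vertices -/
noncomputable def UU (a : V → V → ℝ) : Finset V := univ.filter (fun v => ∃ u, a u v ≠ 0 ∨ a v u ≠ 0)

lemma mem_UU_left {a : V → V → ℝ} {u v : V} (h : a u v ≠ 0) : u ∈ UU a := by
  unfold UU; rw [mem_filter]; exact ⟨mem_univ _, v, Or.inr h⟩

lemma mem_UU_right {a : V → V → ℝ} {u v : V} (h : a u v ≠ 0) : v ∈ UU a := by
  unfold UU; rw [mem_filter]; exact ⟨mem_univ _, u, Or.inl h⟩

/-- matchings -/
def IsMt (a : V → V → ℝ) (M : Finset (V × V)) : Prop :=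
  (∀ e ∈ M, a e.1 e.2 ≠ 0) ∧
    ∀ e ∈ M, ∀ e' ∈ M, e ≠ e' → e.1 ≠ e'.1 ∧ e.1 ≠ e'.2 ∧ e.2 ≠ e'.1 ∧ e.2 ≠ e'.2

lemma card_UU_le {a : V → V → ℝ} {G : ℝ} (D : WData a G) : ((UU a).card : ℝ) ≤ 3 * G := by
  classical
  obtain ⟨M, hM, hmax⟩ := (univ.filter (fun M : Finset (V × V) => IsMt a M)).exists_max_image
    (fun M => M.card) ⟨∅, by rw [mem_filter]; exact ⟨mem_univ _, by simp [IsMt]⟩⟩
  have hM' : IsMt a M := (mem_filter.mp hM).2
  obtain ⟨hM1, hM2⟩ := hM'
  have hne : ∀ e ∈ M, e.1 ≠ e.2 := by
    intro e he h
    have := hM1 e he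
    rw [h, D.loop] at this
    exact this rfl
  have inj2 : ∀ e ∈ M, ∀ e' ∈ M, e.2 = e'.2 → e = e' := by
    intro e he e' he' h
    by_contra hne'
    exact (hM2 e he e' he' hne').2.2.2 h
  have inj1 : ∀ e ∈ M, ∀ e' ∈ M, e.1 = e'.1 → e = e' := by
    intro e he e' he' h
    by_contra hne'
    exact (hM2 e he e' he' hne').1 h
  have cross : ∀ e ∈ M, ∀ e' ∈ M, e.1 ≠ e'.2 := by
    intro e he e' he' h
    by_cases h1 : e = e'
    · subst h1; exact hne e he h
    · exact (hM2 e he e' he' h1).2.1 h
  -- first star map
  have hMcard : ((M.card : ℕ) : ℝ) ≤ G := by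
    set c : V → V := fun u => if h : ∃ e, e ∈ M ∧ e.2 = u then (Classical.choose h).1 else u with hc
    have c2 : ∀ e ∈ M, c e.2 = e.1 := by
      intro e he
      have hex : ∃ e', e' ∈ M ∧ e'.2 = e.2 := ⟨e, he, rfl⟩
      simp only [hc]
      rw [dif_pos hex]
      obtain ⟨h1, h2⟩ := Classical.choose_spec hex
      rw [inj2 _ h1 e he h2]
    have c1 : ∀ e ∈ M, c e.1 = e.1 := by
      intro e he
      simp only [hc]
      rw [dif_neg]
      rintro ⟨e', he', h⟩
      exact cross e he e' he' h.symm
    have cn : ∀ u, c u ≠ u → ∃ e ∈ M, e.2 = u ∧ c u = e.1 := by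
      intro u hu
      by_cases hex : ∃ e, e ∈ M ∧ e.2 = u
      · obtain ⟨e, he, h⟩ := hex
        exact ⟨e, he, h, by rw [← h]; exact c2 e he⟩
      · exfalso; apply hu; simp only [hc]; rw [dif_neg hex]
    have hcc : ∀ u, c (c u) = c u := by
      intro u
      by_cases hu : c u = u
      · rw [hu, hu]
      · obtain ⟨e, he, _, h2⟩ := cn u hu
        rw [h2]; exact c1 e he
    have hst := star_lemma a D.loop G D.H c hcc (by
      intro u v hu hv huv
      obtain ⟨e, he, h1, h2⟩ := cn u hu
      obtain ⟨e', he', h1', h2'⟩ := cn v hv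
      rw [h2, h2'] at huv
      have := inj1 e he e' he' huv
      rw [← h1, ← h1', this]
      exact D.loop _)
    refine le_trans ?_ hst
    have himg : (M.image (fun e => e.2)).card = M.card := by
      apply card_image_of_injOn
      intro e he e' he' h
      exact inj2 e he e' he' h
    calc ((M.card : ℕ) : ℝ) = ∑ u ∈ M.image (fun e => e.2), (1 : ℝ) := by
          rw [sum_const, himg]; simp
      _ ≤ ∑ u ∈ M.image (fun e => e.2), (if c u ≠ u then a u (c u) + a (c u) u else 0) := by
          apply sum_le_sum
          intro u hu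
          obtain ⟨e, he, rfl⟩ := mem_image.mp hu
          rw [c2 e he, if_pos (hne e he)]
          have h1 := hM1 e he
          have h2 := D.nonneg e.2 e.1
          rcases D.wt e.1 e.2 with h3 | h3
          · exact absurd h3 h1
          · linarith
      _ ≤ _ := by
          apply sum_le_sum_of_subset_of_nonneg (subset_univ _)
          intro u _ _
          split_ifs
          · exact add_nonneg (D.nonneg _ _) (D.nonneg _ _)
          · exact le_refl _
  -- second star map
  set VM : Finset V := M.image (fun e => e.1) ∪ M.image (fun e => e.2) with hVM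
  have hVMcard : VM.card ≤ 2 * M.card := by
    rw [hVM]
    refine le_trans (card_union_le _ _) ?_
    have h1 : (M.image (fun e => e.1)).card ≤ M.card := card_image_le
    have h2 : (M.image (fun e => e.2)).card ≤ M.card := card_image_le
    omega
  have hmaxim : ∀ u v, a u v ≠ 0 → u ∈ VM ∨ v ∈ VM := by
    intro u v huv
    by_contra hcon
    push Not at hcon
    obtain ⟨hu, hv⟩ := hcon
    have hnot : (u, v) ∉ M := by
      intro h
      apply hu
      rw [hVM, mem_union]; left
      exact mem_image.mpr ⟨(u, v), h, rfl⟩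
    have hin : ∀ e ∈ M, e.1 ∈ VM ∧ e.2 ∈ VM := by
      intro e he
      rw [hVM, mem_union, mem_union]
      exact ⟨Or.inl (mem_image.mpr ⟨e, he, rfl⟩), Or.inr (mem_image.mpr ⟨e, he, rfl⟩)⟩
    have hnew : IsMt a (insert (u, v) M) := by
      constructor
      · intro e he
        rcases mem_insert.mp he with h | h
        · rw [h]; exact huv
        · exact hM1 e h
      · intro e he e' he' hne'
        rcases mem_insert.mp he with h | h
        · rcases mem_insert.mp he' with h' | h'
          · exact absurd (h.trans h'.symm) hne'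
          · have := hin e' h'
            rw [h]
            refine ⟨?_, ?_, ?_, ?_⟩
            · intro hh; apply hu; rw [show u = e'.1 from hh]; exact this.1
            · intro hh; apply hu; rw [show u = e'.2 from hh]; exact this.2
            · intro hh; apply hv; rw [show v = e'.1 from hh]; exact this.1
            · intro hh; apply hv; rw [show v = e'.2 from hh]; exact this.2
        · rcases mem_insert.mp he' with h' | h'
          · have := hin e h
            rw [h']
            refine ⟨?_, ?_, ?_, ?_⟩
            · intro hh; apply hu; rw [← show e.1 = u from hh]; exact this.1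
            · intro hh; apply hv; rw [← show e.1 = v from hh]; exact this.1
            · intro hh; apply hu; rw [← show e.2 = u from hh]; exact this.2
            · intro hh; apply hv; rw [← show e.2 = v from hh]; exact this.2
          · exact hM2 e h e' h' hne'
    have := hmax (insert (u, v) M) (mem_filter.mpr ⟨mem_univ _, hnew⟩)
    rw [card_insert_of_notMem hnot] at this
    omega
  have hcard2 : (((UU a \ VM).card : ℕ) : ℝ) ≤ G := by
    have hnb : ∀ u ∈ UU a \ VM, ∃ w, w ∈ VM ∧ (a u w ≠ 0 ∨ a w u ≠ 0) := by
      intro u hu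
      rw [mem_sdiff] at hu
      obtain ⟨hu1, hu2⟩ := hu
      unfold UU at hu1
      obtain ⟨w, hw⟩ := (mem_filter.mp hu1).2
      rcases hw with hw | hw
      · exact ⟨w, (hmaxim w u hw).resolve_right hu2, Or.inr hw⟩
      · exact ⟨w, (hmaxim u w hw).resolve_left hu2, Or.inl hw⟩
    set c : V → V := fun u => if h : u ∈ UU a \ VM then Classical.choose (hnb u h) else u with hc
    have cpos : ∀ u (h : u ∈ UU a \ VM), c u ∈ VM ∧ (a u (c u) ≠ 0 ∨ a (c u) u ≠ 0) := by
      intro u h
      simp only [hc]
      rw [dif_pos h]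
      exact Classical.choose_spec (hnb u h)
    have cneg : ∀ u, u ∉ UU a \ VM → c u = u := by
      intro u h; simp only [hc]; rw [dif_neg h]
    have hcc : ∀ u, c (c u) = c u := by
      intro u
      by_cases hu : u ∈ UU a \ VM
      · apply cneg
        intro h
        exact (mem_sdiff.mp h).2 (cpos u hu).1
      · rw [cneg u hu, cneg u hu]
    have hst := star_lemma a D.loop G D.H c hcc (by
      intro u v hu hv _
      have h1 : u ∈ UU a \ VM := by by_contra h; exact hu (cneg u h)
      have h2 : v ∈ UU a \ VM := by by_contra h; exact hv (cneg v h)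
      by_contra h
      rcases hmaxim u v h with h3 | h3
      · exact (mem_sdiff.mp h1).2 h3
      · exact (mem_sdiff.mp h2).2 h3)
    refine le_trans ?_ hst
    calc (((UU a \ VM).card : ℕ) : ℝ) = ∑ u ∈ UU a \ VM, (1 : ℝ) := by rw [sum_const]; simp
      _ ≤ ∑ u ∈ UU a \ VM, (if c u ≠ u then a u (c u) + a (c u) u else 0) := by
          apply sum_le_sum
          intro u hu
          have h1 := cpos u hu
          have hcu : c u ≠ u := by
            intro h
            rw [h] at h1
            exact (mem_sdiff.mp hu).2 h1.1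
          rw [if_pos hcu]
          have h2 := D.nonneg u (c u)
          have h3 := D.nonneg (c u) u
          rcases h1.2 with h4 | h4
          · rcases D.wt u (c u) with h5 | h5
            · exact absurd h5 h4
            · linarith
          · rcases D.wt (c u) u with h5 | h5
            · exact absurd h5 h4
            · linarith
      _ ≤ _ := by
          apply sum_le_sum_of_subset_of_nonneg (subset_univ _)
          intro u _ _
          split_ifs
          · exact add_nonneg (D.nonneg _ _) (D.nonneg _ _)
          · exact le_refl _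
  have h1 : (UU a).card ≤ VM.card + (UU a \ VM).card := by
    have := card_le_card (show UU a ⊆ VM ∪ (UU a \ VM) by
      intro x hx
      by_cases h : x ∈ VM
      · exact mem_union_left _ h
      · exact mem_union_right _ (mem_sdiff.mpr ⟨hx, h⟩))
    exact le_trans this (card_union_le _ _)
  have h2 : ((UU a).card : ℝ) ≤ (VM.card : ℝ) + ((UU a \ VM).card : ℝ) := by exact_mod_cast h1
  have h3 : (VM.card : ℝ) ≤ 2 * (M.card : ℝ) := by exact_mod_cast hVMcard
  linarith

/-- topological numbering of the non-isolated vertices -/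
lemma exists_pos {a : V → V → ℝ} {G : ℝ} (D : WData a G) : ∃ pos : V → ℕ,
    (∀ u v, a u v ≠ 0 → pos u < pos v) ∧ (∀ u ∈ UU a, pos u < (UU a).card) ∧
    (∀ u ∈ UU a, ∀ v ∈ UU a, pos u = pos v → u = v) := by
  classical
  set r : V → V → Prop := Relation.ReflTransGen (fun u v => a u v ≠ 0) with hr
  have hpo : IsPartialOrder V r := by
    refine { refl := ?_, trans := ?_, antisymm := ?_ }
    · intro x; exact Relation.ReflTransGen.refl
    · intro x y z h1 h2; exact Relation.ReflTransGen.trans h1 h2
    · intro x y h1 h2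
      by_contra hne
      have h3 : Relation.TransGen (fun u v => a u v ≠ 0) x y := by
        rcases Relation.reflTransGen_iff_eq_or_transGen.mp h1 with h | h
        · exact absurd h.symm hne
        · exact h
      exact D.ac x (Relation.TransGen.trans_left h3 h2)
  obtain ⟨s, hs, hrs⟩ := extend_partialOrder r
  set pos : V → ℕ := fun v => ((UU a).filter (fun u => s u v ∧ u ≠ v)).card with hpos
  have mono : ∀ u v, u ∈ UU a → s u v → u ≠ v → pos u < pos v := by
    intro u v hu huv hne
    simp only [hpos]
    apply card_lt_card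
    rw [ssubset_iff_of_subset]
    · refine ⟨u, ?_, ?_⟩
      · rw [mem_filter]; exact ⟨hu, huv, hne⟩
      · rw [mem_filter]; tauto
    · intro w hw
      rw [mem_filter] at hw ⊢
      refine ⟨hw.1, hs.trans w u v hw.2.1 huv, ?_⟩
      intro h
      subst h
      exact hw.2.2 (hs.antisymm _ _ hw.2.1 huv)
  refine ⟨pos, ?_, ?_, ?_⟩
  · intro u v huv
    apply mono u v (mem_UU_left huv)
    · exact hrs u v (Relation.ReflTransGen.single huv)
    · intro h
      rw [h, D.loop] at huv
      exact huv rfl
  · intro u hu
    simp only [hpos]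
    apply card_lt_card
    rw [ssubset_iff_of_subset (filter_subset _ _)]
    refine ⟨u, hu, ?_⟩
    rw [mem_filter]; tauto
  · intro u hu v hv h
    by_contra hne
    rcases hs.total u v with h1 | h1
    · have := mono u v hu h1 hne; omega
    · have := mono v u hv h1 (Ne.symm hne); omega

end Pool.Agent.Dicut
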