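import Mathlib
import Pool.Agent.Dicut.Lower2

set_option autoImplicit false

namespace Pool.Agent.Dicut

open Finset

variable {V : Type} [Fintype V] [DecidableEq V]

lemma len_class {a : V → V → ℝ} {G : ℝ} (D : WData a G) (pos : V → ℕ)
    (hpos2 : ∀ u ∈ UU a, ∀ v ∈ UU a, pos u = pos v → u = v) (l e : ℕ) (hl : 1 ≤ l) (he : e < 2) :
    ∑ v, ∑ u, (if pos v = pos u + l ∧ (pos v / l) % 2 = e then a u v else 0) ≤ G := by
  classical
  set c : V → V := fun v => if h : v ∈ UU a ∧ (pos v / l) % 2 = e ∧ ∃ u, u ∈ UU a ∧ pos u + l = pos v then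
    Classical.choose h.2.2 else v with hc
  have cpos : ∀ v, (v ∈ UU a ∧ (pos v / l) % 2 = e ∧ ∃ u, u ∈ UU a ∧ pos u + l = pos v) →
      c v ∈ UU a ∧ pos (c v) + l = pos v := by
    intro v h
    simp only [hc]
    rw [dif_pos h]
    exact Classical.choose_spec h.2.2
  have cneg : ∀ v, ¬ (v ∈ UU a ∧ (pos v / l) % 2 = e ∧ ∃ u, u ∈ UU a ∧ pos u + l = pos v) → c v = v := by
    intro v h; simp only [hc]; rw [dif_neg h]
  have cne : ∀ v, c v ≠ v → (v ∈ UU a ∧ (pos v / l) % 2 = e ∧ ∃ u, u ∈ UU a ∧ pos u + l = pos v) := by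
    intro v h; by_contra h'; exact h (cneg v h')
  have hcc : ∀ u, c (c u) = c u := by
    intro u
    by_cases hu : (u ∈ UU a ∧ (pos u / l) % 2 = e ∧ ∃ v, v ∈ UU a ∧ pos v + l = pos u)
    · apply cneg
      intro h
      have h1 := (cpos u hu).2
      have h2 := h.2.1
      have h3 : pos u / l = pos (c u) / l + 1 := by
        rw [← h1]; exact Nat.add_div_right _ (by omega)
      have h4 := hu.2.1
      rw [h3] at h4
      omega
    · rw [cneg u hu, cneg u hu]
  have hst := star_lemma a D.loop G D.H c hcc (by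
    intro u v hu hv huv
    have h1 := cne u hu
    have h2 := cne v hv
    have h3 := (cpos u h1).2
    have h4 := (cpos v h2).2
    rw [huv] at h3
    have h5 : u = v := hpos2 u h1.1 v h2.1 (by omega)
    rw [h5]; exact D.loop v)
  refine le_trans ?_ hst
  apply sum_le_sum
  intro v _
  by_cases hv : (v ∈ UU a ∧ (pos v / l) % 2 = e ∧ ∃ u, u ∈ UU a ∧ pos u + l = pos v)
  · obtain ⟨h1, h2⟩ := cpos v hv
    have hcv : c v ≠ v := by
      intro h; rw [h] at h2; omega
    rw [if_pos hcv]
    have h3 : ∑ u, (if pos v = pos u + l ∧ (pos v / l) % 2 = e then a u v else 0) ≤ a (c v) v := by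
      calc ∑ u, (if pos v = pos u + l ∧ (pos v / l) % 2 = e then a u v else 0)
          ≤ ∑ u, (if u = c v then a u v else 0) := by
            apply sum_le_sum; intro u _
            split_ifs with g1 g2 g2
            · exact le_refl _
            · by_contra h
              have hne : a u v ≠ 0 := by
                intro h0; rw [h0] at h; exact h (le_refl _)
              apply g2
              exact hpos2 u (mem_UU_left hne) (c v) h1 (by omega)
            · exact D.nonneg _ _
            · exact le_refl _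
        _ = a (c v) v := by simp
    have := D.nonneg v (c v)
    linarith
  · rw [if_neg (by rw [cneg v hv]; simp)]
    apply le_of_eq
    apply sum_eq_zero
    intro u _
    split_ifs with g1
    · by_contra h
      exact hv ⟨mem_UU_right h, g1.2, u, mem_UU_left h, g1.1.symm⟩
    · rfl

lemma len_le {a : V → V → ℝ} {G : ℝ} (D : WData a G) (pos : V → ℕ)
    (hpos2 : ∀ u ∈ UU a, ∀ v ∈ UU a, pos u = pos v → u = v) (l : ℕ) (hl : 1 ≤ l) :
    ∑ v, ∑ u, (if pos v = pos u + l then a u v else 0) ≤ 2 * G := by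
  have h0 := len_class D pos hpos2 l 0 hl (by norm_num)
  have h1 := len_class D pos hpos2 l 1 hl (by norm_num)
  have h2 : ∑ v, ∑ u, (if pos v = pos u + l then a u v else 0)
      = ∑ v, ∑ u, (if pos v = pos u + l ∧ (pos v / l) % 2 = 0 then a u v else 0)
        + ∑ v, ∑ u, (if pos v = pos u + l ∧ (pos v / l) % 2 = 1 then a u v else 0) := by
    rw [← sum_add_distrib]
    apply sum_congr rfl; intro v _
    rw [← sum_add_distrib]
    apply sum_congr rfl; intro u _
    by_cases g : pos v = pos u + l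
    · rcases Nat.mod_two_eq_zero_or_one (pos v / l) with g2 | g2
      · rw [if_pos g, if_pos ⟨g, g2⟩, if_neg (by omega)]; ring
      · rw [if_pos g, if_neg (by omega), if_pos ⟨g, g2⟩]; ring
    · rw [if_neg g, if_neg (by tauto), if_neg (by tauto)]; ring
  linarith

lemma prefix_sq {a : V → V → ℝ} {G : ℝ} (D : WData a G) (pos : V → ℕ)
    (hpos0 : ∀ u v, a u v ≠ 0 → pos u < pos v) (w : ℝ) (hw : ∑ v, ∑ u, a u v = w) (hw0 : 0 < w) (p : ℕ) :
    (∑ v, ∑ u, (if pos u ≤ p ∧ p < pos v then a u v else 0)) ^ 2 ≤ G * w := by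
  set c : ℝ := ∑ v, ∑ u, (if pos u ≤ p ∧ p < pos v then a u v else 0) with hc
  have hc0 : 0 ≤ c := by
    rw [hc]
    apply sum_nonneg; intro v _
    apply sum_nonneg; intro u _
    split_ifs
    · exact D.nonneg _ _
    · exact le_refl _
  have hcw : c ≤ w := by
    rw [hc, ← hw]
    apply sum_le_sum; intro v _
    apply sum_le_sum; intro u _
    split_ifs
    · exact le_refl _
    · exact D.nonneg _ _
  set ε : ℝ := c / w with hε
  have hε0 : 0 ≤ ε := div_nonneg hc0 hw0.le
  have hε1 : ε ≤ 1 := (div_le_one hw0).mpr hcw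
  have hH := D.H (fun u => if pos u ≤ p then ε else -ε) (by
    intro v
    show |(if pos v ≤ p then ε else -ε)| ≤ 1
    split_ifs
    · rw [abs_of_nonneg hε0]; exact hε1
    · rw [abs_neg, abs_of_nonneg hε0]; exact hε1)
  have hlow : 2 * ε * c - ε ^ 2 * w ≤ Gf a (fun u => if pos u ≤ p then ε else -ε) := by
    unfold Gf
    rw [sum_comm, hc, ← hw, mul_sum, mul_sum, ← sum_sub_distrib]
    apply sum_le_sum; intro v _
    rw [mul_sum, mul_sum, ← sum_sub_distrib]
    apply sum_le_sum; intro u _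
    have ha := D.nonneg u v
    by_cases h0 : a u v = 0
    · rw [h0]; simp
    · have hlt := hpos0 u v h0
      by_cases h1 : pos u ≤ p
      · by_cases h2 : pos v ≤ p
        · rw [if_neg (by omega)]
          simp only [h1, h2, if_true]
          nlinarith
        · rw [if_pos ⟨h1, by omega⟩]
          simp only [h1, h2, if_true, if_false]
          nlinarith [mul_nonneg ha (sq_nonneg ε)]
      · have h2 : ¬ pos v ≤ p := by omega
        rw [if_neg (by omega)]
        simp only [h1, h2, if_false]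
        nlinarith
  have h1 : 2 * ε * c - ε ^ 2 * w = c ^ 2 / w := by
    rw [hε]; field_simp; ring
  rw [h1] at hlow
  have h2 : c ^ 2 / w ≤ G := le_trans hlow hH
  rwa [div_le_iff₀ hw0] at h2

lemma final_ineq {a : V → V → ℝ} {G : ℝ} (D : WData a G) (w : ℝ) (hw : ∑ v, ∑ u, a u v = w)
    (hw1 : 1 ≤ w) : 0 < G ∧ w ^ 3 ≤ 576 * G ^ 5 := by
  obtain ⟨pos, hpos0, hpos1, hpos2⟩ := exists_pos D
  have hn := card_UU_le D
  set n := (UU a).card with hndef
  have hw0 : 0 < w := by linarith
  -- G is positive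
  have hGpos : 0 < G := by
    have hex : ∃ v u, a u v ≠ 0 := by
      by_contra h
      push Not at h
      have : ∑ v, ∑ u, a u v = 0 := sum_eq_zero (fun v _ => sum_eq_zero (fun u _ => h v u))
      linarith
    obtain ⟨v, u, huv⟩ := hex
    have h1 : 1 ≤ n := by
      rw [hndef]
      exact card_pos.mpr ⟨u, mem_UU_left huv⟩
    have h2 : (1 : ℝ) ≤ n := by exact_mod_cast h1
    linarith
  refine ⟨hGpos, ?_⟩
  set K : ℕ := ⌊w / (4 * G)⌋₊ with hK
  have hK1 : (K : ℝ) ≤ w / (4 * G) := Nat.floor_le (by positivity)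
  have hK2 : w / (4 * G) < K + 1 := Nat.lt_floor_add_one _
  set cr : ℕ → ℝ := fun p => ∑ v, ∑ u, (if pos u ≤ p ∧ p < pos v then a u v else 0) with hcr
  set lg : ℝ := ∑ v, ∑ u, (if pos u + K < pos v then a u v else 0) with hlg
  have hsplit : w = lg + ∑ l ∈ Icc 1 K, ∑ v, ∑ u, (if pos v = pos u + l then a u v else 0) := by
    rw [← hw, hlg, sum_comm (s := Icc 1 K), ← sum_add_distrib]
    apply sum_congr rfl; intro v _
    rw [sum_comm (s := Icc 1 K), ← sum_add_distrib]
    apply sum_congr rfl; intro u _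
    by_cases h0 : a u v = 0
    · rw [h0]; simp
    · have hlt := hpos0 u v h0
      by_cases h1 : pos u + K < pos v
      · rw [if_pos h1, sum_eq_zero, add_zero]
        intro l hl
        rw [mem_Icc] at hl
        rw [if_neg (by omega)]
      · rw [if_neg h1, zero_add]
        rw [sum_eq_single (pos v - pos u)]
        · rw [if_pos (by omega)]
        · intro l _ hne
          rw [if_neg (by omega)]
        · intro h
          exfalso; apply h
          rw [mem_Icc]; omega
  have hshort : ∑ l ∈ Icc 1 K, ∑ v, ∑ u, (if pos v = pos u + l then a u v else 0) ≤ w / 2 := by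
    have h1 : ∑ l ∈ Icc 1 K, ∑ v, ∑ u, (if pos v = pos u + l then a u v else 0)
        ≤ ∑ l ∈ Icc 1 K, 2 * G := by
      apply sum_le_sum; intro l hl
      rw [mem_Icc] at hl
      exact len_le D pos hpos2 l hl.1
    rw [sum_const, Nat.card_Icc, nsmul_eq_mul] at h1
    have h2 : ((K + 1 - 1 : ℕ) : ℝ) = K := by
      have : K + 1 - 1 = K := by omega
      rw [this]
    rw [h2] at h1
    have h3 : (K : ℝ) * (2 * G) ≤ w / (4 * G) * (2 * G) := mul_le_mul_of_nonneg_right hK1 (by linarith)
    have h4 : w / (4 * G) * (2 * G) = w / 2 := by field_simp; ring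
    linarith
  have hlg2 : w / 2 ≤ lg := by linarith
  have hcrsum : ((K : ℝ) + 1) * lg ≤ ∑ p ∈ range n, cr p := by
    have e1 : ∑ p ∈ range n, cr p
        = ∑ v, ∑ u, ∑ p ∈ range n, (if pos u ≤ p ∧ p < pos v then a u v else 0) := by
      simp only [hcr]
      rw [sum_comm]
      apply sum_congr rfl; intro v _
      rw [sum_comm]
    rw [e1, hlg, mul_sum]
    apply sum_le_sum; intro v _
    rw [mul_sum]
    apply sum_le_sum; intro u _
    by_cases h0 : a u v = 0
    · rw [h0]; simp
    · have hvn := hpos1 v (mem_UU_right h0)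
      rw [← sum_filter, sum_const, nsmul_eq_mul]
      have h2 : (range n).filter (fun p => pos u ≤ p ∧ p < pos v) = Ico (pos u) (pos v) := by
        ext p
        simp only [mem_filter, mem_range, mem_Ico]
        omega
      rw [h2, Nat.card_Ico]
      have ha := D.nonneg u v
      split_ifs with h1
      · apply mul_le_mul_of_nonneg_right _ ha
        have : K + 1 ≤ pos v - pos u := by omega
        exact_mod_cast this
      · rw [mul_zero]
        positivity
  have hcr2 : (∑ p ∈ range n, cr p) ^ 2 ≤ 9 * G ^ 3 * w := by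
    have h1 := sq_sum_le_card_mul_sum_sq (s := range n) (f := cr)
    rw [card_range] at h1
    have h2 : ∑ p ∈ range n, cr p ^ 2 ≤ ∑ p ∈ range n, G * w := by
      apply sum_le_sum; intro p _
      exact prefix_sq D pos hpos0 w hw hw0 p
    rw [sum_const, card_range, nsmul_eq_mul] at h2
    have hn0 : (0 : ℝ) ≤ n := Nat.cast_nonneg _
    have h3 : (n : ℝ) * ∑ p ∈ range n, cr p ^ 2 ≤ n * (n * (G * w)) := mul_le_mul_of_nonneg_left h2 hn0
    have h4 : (n : ℝ) * n ≤ (3 * G) * (3 * G) := mul_le_mul hn hn hn0 (by linarith)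
    have h5 : (n : ℝ) * (n * (G * w)) ≤ (3 * G) * (3 * G) * (G * w) := by
      rw [← mul_assoc]
      exact mul_le_mul_of_nonneg_right h4 (by positivity)
    calc (∑ p ∈ range n, cr p) ^ 2 ≤ (3 * G) * (3 * G) * (G * w) := by linarith
      _ = 9 * G ^ 3 * w := by ring
  have hbig : w ^ 2 / (8 * G) ≤ ∑ p ∈ range n, cr p := by
    have h1 : w / (4 * G) * (w / 2) ≤ ((K : ℝ) + 1) * lg :=
      mul_le_mul hK2.le hlg2 (by positivity) (by positivity)
    have h2 : w / (4 * G) * (w / 2) = w ^ 2 / (8 * G) := by field_simp; ring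
    linarith
  have h3 : (w ^ 2 / (8 * G)) ^ 2 ≤ 9 * G ^ 3 * w :=
    le_trans (pow_le_pow_left₀ (by positivity) hbig 2) hcr2
  have h4 : (w ^ 2 / (8 * G)) ^ 2 = w ^ 4 / (64 * G ^ 2) := by
    rw [div_pow]; ring
  rw [h4, div_le_iff₀ (by positivity)] at h3
  have h5 : w * w ^ 3 ≤ w * (576 * G ^ 5) := by nlinarith
  exact le_of_mul_le_mul_left h5 hw0

/-- the lower bound for weighted digraphs -/
theorem lower_weight {a : V → V → ℝ} (h1 : ∀ u v, a u v = 0 ∨ 1 ≤ a u v)
    (h2 : Acyclic (fun u v => a u v ≠ 0)) (w : ℝ) (hw : ∑ u, ∑ v, a u v = w) (hw1 : 1 ≤ w) :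
    ∃ X : Finset V, w / 4 + 1 / 16 * w ^ (3 / 5 : ℝ) ≤ dicutWeight a X := by
  obtain ⟨X, _, hX⟩ := (univ : Finset (Finset V)).exists_max_image (fun X => dicutWeight a X) ⟨∅, mem_univ _⟩
  refine ⟨X, ?_⟩
  set G : ℝ := 4 * dicutWeight a X - w with hG
  have hloop : ∀ v, a v v = 0 := by
    intro v
    by_contra h
    exact h2 v (Relation.TransGen.single h)
  have D : WData a G := ⟨h1, h2, fun x hx => Gf_le a hloop G (by
    intro Y
    rw [hw, hG]
    have := hX Y (mem_univ _)
    linarith) x hx⟩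
  obtain ⟨hG0, hfin⟩ := final_ineq D w (by rw [sum_comm]; exact hw) hw1
  have h3 : w ^ 3 ≤ (4 * G) ^ 5 := by
    have : (4 * G) ^ 5 = 1024 * G ^ 5 := by ring
    rw [this]
    have : 0 < G ^ 5 := by positivity
    linarith
  have h4 : w ^ (3 / 5 : ℝ) ≤ 4 * G := by
    have e1 : w ^ (3 / 5 : ℝ) = (w ^ 3) ^ (1 / 5 : ℝ) := by
      rw [← Real.rpow_natCast, ← Real.rpow_mul (by linarith)]
      norm_num
    have e2 : 4 * G = ((4 * G) ^ 5) ^ (1 / 5 : ℝ) := by
      rw [← Real.rpow_natCast, ← Real.rpow_mul (by positivity)]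
      norm_num
    rw [e1, e2]
    exact Real.rpow_le_rpow (by positivity) h3 (by norm_num)
  linarith

end Pool.Agent.Dicut
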