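import Mathlib
import Pool.Agent.Dicut.Core3

set_option autoImplicit false

namespace Pool.Agent.Dicut

open Finset

lemma Tot_add (B : Finset ℤ) (μ ν : ℤ → ℤ → ℕ) :
    Tot B (fun u v => μ u v + ν u v) = Tot B μ + Tot B ν := by
  unfold Tot
  rw [← sum_add_distrib]
  apply sum_congr rfl; intro u _
  rw [← sum_add_distrib]
  apply sum_congr rfl; intro v _
  push_cast; ring

lemma Fun_add (B : Finset ℤ) (μ ν : ℤ → ℤ → ℕ) (x : ℤ → ℝ) :
    Fun B (fun u v => μ u v + ν u v) x = Fun B μ x + Fun B ν x := by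
  unfold Fun
  rw [← sum_add_distrib]
  apply sum_congr rfl; intro u _
  rw [← sum_add_distrib]
  apply sum_congr rfl; intro v _
  push_cast; ring

lemma Tot_cast (B : Finset ℤ) (μ : ℤ → ℤ → ℕ) :
    (((∑ u ∈ B, ∑ v ∈ B, μ u v : ℕ)) : ℝ) = Tot B μ := by
  unfold Tot; push_cast; rfl

lemma row_sub (M a b : ℤ) (ctr A : ℤ → ℤ) (hch : Chain M a b ctr A) :
    ∀ q ∈ Ico 0 M, row ctr A q ⊆ Ico a b := by
  intro q hq v hv
  have h1 := hch.box q hq
  unfold row at hv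
  have h2 := mem_Ico.mp hv
  rw [mem_Ico]
  omega

lemma PM_of_chain (T : ℤ) (hT4 : 4 ≤ T) (hTe : 2 ∣ T) (L : ℕ) (M a b : ℤ) (ctr A : ℤ → ℤ)
    (hch : Chain M a b ctr A) (hle : ∀ q, A q ≤ T ^ L) (hdiv : ∀ q, (2 : ℤ) ^ L ∣ A q) :
    ∃ m' : ℕ, ∑ q ∈ Ico 0 M, (A q : ℝ) * (2 * A q - 1) ≤ m' ∧
      (m' : ℝ) ≤ ∑ q ∈ Ico 0 M, (A q : ℝ) * (2 * A q - 1) + 16 * (T : ℝ) ^ L * ∑ q ∈ Ico 0 M, (A q : ℝ) ∧
      PM m' ((12 * (T : ℝ) ^ 2 * L * energy A M + 3 * 2 ^ L * ∑ q ∈ Ico 0 M, (A q : ℝ)) / 4) := by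
  obtain ⟨μ, hμlt, hμtot, hμF⟩ := good T hT4 hTe L M a b ctr A hch hle hdiv
  have hB := row_sub M a b ctr A hch
  have hRtot := Tot_row ctr A M hch.nonneg (Ico a b) hB
  refine ⟨∑ u ∈ Ico a b, ∑ v ∈ Ico a b, (rowMult ctr A M u v + μ u v), ?_, ?_, ?_⟩
  · rw [Tot_cast (Ico a b) (fun u v => rowMult ctr A M u v + μ u v), Tot_add, hRtot]
    have h0 : 0 ≤ Tot (Ico a b) (fun u v => μ u v) := by unfold Tot; positivity
    linarith
  · rw [Tot_cast (Ico a b) (fun u v => rowMult ctr A M u v + μ u v), Tot_add, hRtot]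
    linarith
  · apply PM_of_fun (Ico a b) (fun u v => rowMult ctr A M u v + μ u v) _ _ _ rfl
    · intro x hx
      rw [Fun_add]
      have h1 := Fun_row_le ctr A M hch.nonneg (Ico a b) hB x hx
      have h2 := hμF x hx
      have h9 : (3 * (2 : ℝ) ^ L - 1) * ∑ q ∈ Ico 0 M, (A q : ℝ)
          = (3 * (2 : ℝ) ^ L) * ∑ q ∈ Ico 0 M, (A q : ℝ) - ∑ q ∈ Ico 0 M, (A q : ℝ) := by ring
      rw [h9] at h2
      have h3 : Fun (Ico a b) (fun u v => μ u v) x = Fun (Ico a b) μ x := rfl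
      rw [h3]
      linarith
    · intro u v h
      rcases Nat.eq_zero_or_pos (μ u v) with h0 | h0
      · apply rowMult_lt ctr A M
        intro h1
        apply h
        show rowMult ctr A M u v + μ u v = 0
        omega
      · exact hμlt u v (by omega)

lemma multi_block (l : ℕ) (hl : 1 ≤ l) : ∃ m' : ℕ, (2 : ℝ) ^ (5 * l ^ 2) ≤ 4 * m' ∧
    (m' : ℝ) ≤ 54 * 2 ^ (5 * l ^ 2) ∧ PM m' (15 * 32 ^ l * 2 ^ (3 * l ^ 2)) := by
  have hl2 : 0 < l ^ 2 := by positivity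
  obtain ⟨e, he⟩ : ∃ e, l ^ 2 = e + 1 := ⟨l ^ 2 - 1, by omega⟩
  obtain ⟨n, hn⟩ : ∃ n : ℤ, n = 2 ^ e := ⟨_, rfl⟩
  obtain ⟨N, hN⟩ : ∃ N : ℤ, N = 2 * n := ⟨_, rfl⟩
  have hNl : N = 2 ^ (l ^ 2) := by rw [hN, hn, he, pow_succ]; ring
  have hn1 : 1 ≤ n := by rw [hn]; exact one_le_pow₀ (by norm_num)
  have hN1 : 1 ≤ N := by omega
  obtain ⟨T, hT⟩ : ∃ T : ℤ, T = 4 ^ l := ⟨_, rfl⟩
  have hTL : T ^ l = N * N := by
    rw [hNl, hT, ← pow_mul, ← sq, ← sq, ← pow_mul]
    have : (4 : ℤ) = 2 ^ 2 := by norm_num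
    rw [this, ← pow_mul]
    congr 1; ring
  have hT4 : 4 ≤ T := by
    rw [hT]
    calc (4 : ℤ) = 4 ^ 1 := by norm_num
      _ ≤ 4 ^ l := pow_le_pow_right₀ (by norm_num) hl
  have hTe : 2 ∣ T := by
    rw [hT]
    exact Dvd.dvd.trans (by norm_num) (dvd_pow_self (4 : ℤ) (by omega))
  have hdiv : ∀ q, (2 : ℤ) ^ l ∣ prof N q := by
    intro q
    unfold prof
    apply Dvd.dvd.mul_right
    rw [hNl]
    apply pow_dvd_pow
    nlinarith
  have hle : ∀ q, prof N q ≤ T ^ l := by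
    intro q; rw [hTL]; exact prof_le N (by omega) q
  obtain ⟨m', h1, h2, h3⟩ := PM_of_chain T hT4 hTe l _ _ _ _ _ (prof_chain N (by omega)) hle hdiv
  have hSA := prof_sum N hN1
  have hE := prof_energy N hN1
  have hup := prof_tot_le N hN1
  have hlow := prof_tot_ge n hn1
  rw [← hN] at hlow
  have hNr : (N : ℝ) = 2 * n := by rw [hN]; push_cast; ring
  have hNpos : (1 : ℝ) ≤ N := by exact_mod_cast hN1
  have hpow5 : (2 : ℝ) ^ (5 * l ^ 2) = (N : ℝ) ^ 5 := by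
    rw [hNl]; push_cast; rw [← pow_mul]; congr 1; ring
  have hpow3 : (2 : ℝ) ^ (3 * l ^ 2) = (N : ℝ) ^ 3 := by
    rw [hNl]; push_cast; rw [← pow_mul]; congr 1; ring
  refine ⟨m', ?_, ?_, ?_⟩
  · rw [hpow5]
    have h1 : (N : ℝ) ^ 5 = 32 * (n : ℝ) ^ 5 := by rw [hNr]; ring
    linarith
  · rw [hpow5]
    have h1 : (16 : ℝ) * (T : ℝ) ^ l * ∑ q ∈ Ico 0 (2 * N + 1), (prof N q : ℝ)
        ≤ 16 * ((N : ℝ) * N) * (3 * (N : ℝ) ^ 3) := by
      have h2 : (T : ℝ) ^ l = (N : ℝ) * N := by exact_mod_cast hTL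
      rw [h2]
      exact mul_le_mul_of_nonneg_left hSA (by positivity)
    have h3 : (16 : ℝ) * ((N : ℝ) * N) * (3 * (N : ℝ) ^ 3) = 48 * (N : ℝ) ^ 5 := by ring
    linarith
  · apply PM_mono h3
    rw [hpow3]
    have hT2 : (T : ℝ) ^ 2 = 16 ^ l := by
      rw [hT]; push_cast; rw [← pow_mul, mul_comm, pow_mul]; norm_num
    have h3 : 12 * (T : ℝ) ^ 2 * l * energy (prof N) (2 * N + 1) ≤ 12 * 16 ^ l * l * (4 * (N : ℝ) ^ 3) := by
      rw [hT2]
      exact mul_le_mul_of_nonneg_left hE (by positivity)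
    have h4 : (3 * (2 : ℝ) ^ l) * ∑ q ∈ Ico 0 (2 * N + 1), (prof N q : ℝ)
        ≤ (3 * (2 : ℝ) ^ l) * (3 * (N : ℝ) ^ 3) :=
      mul_le_mul_of_nonneg_left hSA (by positivity)
    have h5 : (l : ℝ) ≤ 2 ^ l := by exact_mod_cast (Nat.lt_two_pow_self (n := l)).le
    have h6 : (12 : ℝ) * 16 ^ l * l * (4 * (N : ℝ) ^ 3) ≤ 48 * 32 ^ l * (N : ℝ) ^ 3 := by
      have h7 : (16 : ℝ) ^ l * l ≤ 16 ^ l * 2 ^ l := mul_le_mul_of_nonneg_left h5 (by positivity)
      have h8 : (16 : ℝ) ^ l * 2 ^ l = 32 ^ l := by rw [← mul_pow]; norm_num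
      rw [h8] at h7
      have h9 : 0 ≤ (N : ℝ) ^ 3 := by positivity
      nlinarith [mul_le_mul_of_nonneg_right h7 h9]
    have h7 : (3 * (2 : ℝ) ^ l) * (3 * (N : ℝ) ^ 3) ≤ 9 * 32 ^ l * (N : ℝ) ^ 3 := by
      have h8 : (2 : ℝ) ^ l ≤ 32 ^ l := pow_le_pow_left₀ (by norm_num) (by norm_num) l
      have h9 : 0 ≤ (N : ℝ) ^ 3 := by positivity
      nlinarith [mul_le_mul_of_nonneg_right h8 h9]
    have h8 : 0 ≤ (32 : ℝ) ^ l * (N : ℝ) ^ 3 := by positivity
    linarith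

lemma scale (m : ℕ) (hm : 1728 ≤ m) : ∃ l : ℕ, 1 ≤ l ∧ 54 * 2 ^ (5 * l ^ 2) ≤ m ∧ m < 54 * 2 ^ (5 * (l + 1) ^ 2) := by
  have hex : ∃ l : ℕ, m < 54 * 2 ^ (5 * (l + 1) ^ 2) := by
    refine ⟨m, ?_⟩
    have h1 : m < 2 ^ m := Nat.lt_two_pow_self
    have h2 : 2 ^ m ≤ 2 ^ (5 * (m + 1) ^ 2) := Nat.pow_le_pow_right (by norm_num) (by nlinarith)
    omega
  classical
  refine ⟨Nat.find hex, ?_, ?_, Nat.find_spec hex⟩
  · by_contra h
    have h0 : Nat.find hex = 0 := by omega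
    have h1 := Nat.find_spec hex
    rw [h0] at h1
    norm_num at h1
    omega
  · have hpos : 1 ≤ Nat.find hex := by
      by_contra h
      have h0 : Nat.find hex = 0 := by omega
      have h1 := Nat.find_spec hex
      rw [h0] at h1
      norm_num at h1
      omega
    have h2 := Nat.find_min hex (m := Nat.find hex - 1) (by omega)
    rw [not_lt] at h2
    have h3 : Nat.find hex - 1 + 1 = Nat.find hex := by omega
    rw [h3] at h2
    exact h2

theorem multi_upper : ∃ C : ℝ, ∀ m : ℕ, 1 ≤ m →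
    (hMulti m : ℝ) ≤ m / 4 + C * (m : ℝ) ^ (3 / 5 : ℝ) * Real.exp (C * Real.sqrt (Real.log m)) := by
  refine ⟨172800, ?_⟩
  intro n hn
  have hn1 : (1 : ℝ) ≤ n := by exact_mod_cast hn
  have hlog : 0 ≤ Real.log n := Real.log_nonneg hn1
  have hexp : 1 ≤ Real.exp (172800 * Real.sqrt (Real.log n)) := Real.one_le_exp (by positivity)
  have hpow : (1 : ℝ) ≤ (n : ℝ) ^ (3 / 5 : ℝ) := Real.one_le_rpow hn1 (by norm_num)
  rcases lt_or_ge n 1728 with hsmall | hbig
  · have h1 := PM_hMulti (PM_trivial n)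
    have h2 : (n : ℝ) ≤ 1728 := by exact_mod_cast hsmall.le
    have h3 : (172800 : ℝ) ≤ 172800 * (n : ℝ) ^ (3 / 5 : ℝ) * Real.exp (172800 * Real.sqrt (Real.log n)) := by
      have h4 : (1 : ℝ) ≤ (n : ℝ) ^ (3 / 5 : ℝ) * Real.exp (172800 * Real.sqrt (Real.log n)) := by
        nlinarith
      nlinarith
    linarith
  · obtain ⟨lam, hlam1, hlam2, hlam3⟩ := scale n hbig
    have hgreedy := greedy PM (fun _ _ _ _ h h' => PM_add h h') (fun _ _ _ h h' => PM_mono h h') PM_trivial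
      (3 / 5) (1 / (6912 * 1024 ^ lam)) (15 * 32 ^ lam) (172800 * 32768 ^ lam) (by norm_num) (by norm_num)
      (by
        rw [div_le_one (by positivity)]
        have : (1 : ℝ) ≤ 1024 ^ lam := one_le_pow₀ (by norm_num)
        linarith)
      (by positivity)
      (by
        have h1 : (32768 : ℝ) ^ lam = 32 ^ lam * 1024 ^ lam := by rw [← mul_pow]; norm_num
        rw [h1]
        apply le_of_eq
        field_simp
        norm_num)
      1728 n
      (by
        have : (1 : ℝ) ≤ 32768 ^ lam := one_le_pow₀ (by norm_num)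
        push_cast
        linarith)
      (by
        intro m hm hmn
        obtain ⟨l, hl1, hl2, hl3⟩ := scale m hm
        have hlle : l ≤ lam := by
          by_contra h
          have h1 : lam + 1 ≤ l := by omega
          have h2 : 2 ^ (5 * (lam + 1) ^ 2) ≤ 2 ^ (5 * l ^ 2) :=
            Nat.pow_le_pow_right (by norm_num) (by nlinarith)
          omega
        obtain ⟨m', h1, h2, h3⟩ := multi_block l hl1
        have hl2' : (54 : ℝ) * 2 ^ (5 * l ^ 2) ≤ m := by exact_mod_cast hl2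
        have hl3' : (m : ℝ) < 54 * 2 ^ (5 * (l + 1) ^ 2) := by exact_mod_cast hl3
        refine ⟨m', ?_, ?_, ?_, ?_⟩
        · have h4 : (0 : ℝ) < m' := by
            have : (0 : ℝ) < 2 ^ (5 * l ^ 2) := by positivity
            linarith
          exact_mod_cast h4
        · have h4 : (m' : ℝ) ≤ m := by linarith
          exact_mod_cast h4
        · have h5 : (2 : ℝ) ^ (5 * (l + 1) ^ 2) = 2 ^ (5 * l ^ 2) * (1024 ^ l * 32) := by
            have h6 : 5 * (l + 1) ^ 2 = 5 * l ^ 2 + (10 * l + 5) := by ring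
            rw [h6, pow_add]
            congr 1
            rw [pow_add, pow_mul]
            norm_num
          rw [h5] at hl3'
          have h6 : (1024 : ℝ) ^ l ≤ 1024 ^ lam := pow_le_pow_right₀ (by norm_num) hlle
          have h7 : (0 : ℝ) < 2 ^ (5 * l ^ 2) := by positivity
          rw [one_div, inv_mul_le_iff₀ (by positivity)]
          have h8 : (2 : ℝ) ^ (5 * l ^ 2) * 1024 ^ l ≤ (4 * m') * 1024 ^ lam :=
            mul_le_mul h1 h6 (by positivity) (by linarith)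
          nlinarith
        · apply PM_mono h3
          have h5 : (32 : ℝ) ^ l ≤ 32 ^ lam := pow_le_pow_right₀ (by norm_num) hlle
          have h6 : (2 : ℝ) ^ (3 * l ^ 2) = ((2 : ℝ) ^ (5 * l ^ 2)) ^ (3 / 5 : ℝ) := by
            rw [← Real.rpow_natCast, ← Real.rpow_natCast, ← Real.rpow_mul (by norm_num)]
            congr 1
            push_cast
            ring
          have h7 : ((2 : ℝ) ^ (5 * l ^ 2)) ^ (3 / 5 : ℝ) ≤ (m : ℝ) ^ (3 / 5 : ℝ) := by
            apply Real.rpow_le_rpow (by positivity) _ (by norm_num)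
            have : (0 : ℝ) < 2 ^ (5 * l ^ 2) := by positivity
            linarith
          rw [h6]
          have h8 : (15 : ℝ) * 32 ^ l ≤ 15 * 32 ^ lam := by linarith
          exact mul_le_mul h8 h7 (by positivity) (by positivity))
    have h1 := PM_hMulti (hgreedy n le_rfl)
    refine le_trans h1 ?_
    have h2 : (32768 : ℝ) ^ lam ≤ Real.exp (172800 * Real.sqrt (Real.log n)) := by
      have h3 : (32768 : ℝ) ^ lam = Real.exp (lam * Real.log 32768) := by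
        rw [Real.exp_nat_mul, Real.exp_log (by norm_num)]
      rw [h3]
      apply Real.exp_le_exp.mpr
      have h4 : Real.log 32768 = 15 * Real.log 2 := by
        have : (32768 : ℝ) = 2 ^ 15 := by norm_num
        rw [this, Real.log_pow]; norm_num
      have h5 : Real.log 2 < 1 := by have := Real.log_two_lt_d9; linarith
      have h6 : (1 : ℝ) / 5 < Real.log 2 := by have := Real.log_two_gt_d9; linarith
      have h7 : (lam : ℝ) ≤ Real.sqrt (Real.log n) := by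
        apply Real.le_sqrt_of_sq_le
        have h8 : (2 : ℝ) ^ (5 * lam ^ 2) ≤ n := by
          have h9 : (54 : ℝ) * 2 ^ (5 * lam ^ 2) ≤ n := by exact_mod_cast hlam2
          have : (0 : ℝ) < 2 ^ (5 * lam ^ 2) := by positivity
          linarith
        have h9 := Real.log_le_log (by positivity) h8
        rw [Real.log_pow] at h9
        push_cast at h9
        nlinarith [sq_nonneg (lam : ℝ)]
      rw [h4]
      have h8 : 0 ≤ Real.sqrt (Real.log n) := Real.sqrt_nonneg _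
      have h9 : (0 : ℝ) ≤ lam := Nat.cast_nonneg _
      have h10 : (lam : ℝ) * (15 * Real.log 2) ≤ lam * 15 := by
        apply mul_le_mul_of_nonneg_left _ h9
        linarith
      linarith
    have h3 : 172800 * (32768 : ℝ) ^ lam * (n : ℝ) ^ (3 / 5 : ℝ)
        ≤ 172800 * (n : ℝ) ^ (3 / 5 : ℝ) * Real.exp (172800 * Real.sqrt (Real.log n)) := by
      have h4 : (0 : ℝ) ≤ 172800 * (n : ℝ) ^ (3 / 5 : ℝ) := by positivity
      nlinarith [mul_le_mul_of_nonneg_left h2 h4]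
    linarith

end Pool.Agent.Dicut
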