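import Mathlib
import Pool.Agent.Dicut.CellPath

set_option autoImplicit false

namespace Pool.Agent.Dicut

open Finset

/-- there is an acyclic weighted digraph with weights at least `1`, of total weight `w`,
all of whose directed cuts have weight at most `w / 4 + K` -/
def PW (w K : ℝ) : Prop :=
  ∃ (V : Type) (_ : Fintype V) (_ : DecidableEq V) (a : V → V → ℝ),
    (∀ u v, a u v = 0 ∨ 1 ≤ a u v) ∧ Acyclic (fun u v => a u v ≠ 0) ∧ ∑ u, ∑ v, a u v = w ∧
      ∀ X : Finset V, dicutWeight a X ≤ w / 4 + K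

lemma PW_hWeighted {w K : ℝ} (h : PW w K) : hWeighted w ≤ w / 4 + K := by
  obtain ⟨V, _, _, a, h1, hac, htot, hX⟩ := h
  unfold hWeighted
  apply csSup_le
  · refine ⟨0, ?_⟩
    intro V _ _ a _ _ _
    exact ⟨∅, by unfold dicutWeight; simp⟩
  · intro g hg
    obtain ⟨X, hgX⟩ := hg V a h1 hac htot
    exact le_trans hgX (hX X)

lemma PW_mono {w K K' : ℝ} (h : PW w K) (hK : K ≤ K') : PW w K' := by
  obtain ⟨V, i1, i2, a, h1, hac, htot, hX⟩ := h
  exact ⟨V, i1, i2, a, h1, hac, htot, fun X => le_trans (hX X) (by linarith)⟩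

lemma PW_trivial {w : ℝ} (hw : 1 ≤ w) : PW w w := by
  refine ⟨Bool, inferInstance, inferInstance, fun u v => if u = false ∧ v = true then w else 0, ?_, ?_, ?_, ?_⟩
  · intro u v
    by_cases h : u = false ∧ v = true
    · right; simp only [if_pos h]; exact hw
    · left; simp only [if_neg h]
  · apply acyclic_of_lt _ (fun b => if b then 1 else 0)
    intro u v h
    cases u <;> cases v <;> simp at h ⊢
  · simp
  · intro X
    have h1 : dicutWeight (fun u v : Bool => if u = false ∧ v = true then w else 0) X ≤ w := by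
      unfold dicutWeight
      have hnn : ∀ u v : Bool, 0 ≤ (if u = false ∧ v = true then w else 0) := by
        intro u v; split_ifs <;> linarith
      calc ∑ u ∈ X, ∑ v ∈ Xᶜ, (if u = false ∧ v = true then w else 0)
          ≤ ∑ u, ∑ v ∈ Xᶜ, (if u = false ∧ v = true then w else 0) :=
            sum_le_sum_of_subset_of_nonneg (subset_univ _) (fun u _ _ => sum_nonneg (fun v _ => hnn u v))
        _ ≤ ∑ u : Bool, ∑ v : Bool, (if u = false ∧ v = true then w else 0) := by
            apply sum_le_sum; intro u _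
            exact sum_le_sum_of_subset_of_nonneg (subset_univ _) (fun v _ _ => hnn u v)
        _ = w := by simp
    linarith

/-- the weighted digraph of a path, scaled -/
lemma PW_of_path {B : Finset ℤ} {P R : ℤ → ℝ} {n : ℕ} {S V : ℝ} (h : Path B P R n S V) :
    ∃ W : ℝ, (1 / 8) * ∑ Q ∈ B, (P Q - R Q) ^ 2 - (1 / 2) * S ≤ W ∧
      W ≤ (1 / 8) * ∑ Q ∈ B, (P Q - R Q) ^ 2 ∧
      ∀ lam : ℝ, 1 ≤ lam → PW (lam * W)
        (lam * (((1 / 4) * V + (1 / 2) * ∑ Q ∈ B, ((P Q + R Q) / 2) ^ 2 + (1 / 2) * S) / 4)) := by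
  obtain ⟨Y, h0, hn, h1, h2, h3⟩ := h
  refine ⟨∑ u : Fin n, ∑ v : Fin n, gw B Y u v, ?_, ?_, ?_⟩
  · rw [gw_total, h0, hn]; linarith
  · rw [gw_total, h0, hn]
    have : 0 ≤ ∑ i ∈ range n, ∑ Q ∈ B, (stp Y i Q) ^ 2 := by positivity
    linarith
  · intro lam hlam
    refine ⟨Fin n, inferInstance, inferInstance, fun u v => lam * gw B Y u v, ?_, ?_, ?_, ?_⟩
    · intro u v
      show lam * gw B Y u v = 0 ∨ 1 ≤ lam * gw B Y u v
      unfold gw
      split_ifs with huv
      · -- the inner product of two steps is 0 or at least 1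
        have hnn : ∀ Q ∈ B, 0 ≤ stp Y u Q * stp Y v Q := by
          intro Q hQ
          rcases h1 u u.2 Q hQ with e | e <;> rcases h1 v v.2 Q hQ with e' | e'
          · rw [e]; simp
          · rw [e]; simp
          · rw [e']; simp
          · nlinarith
        by_cases hz : ∃ Q ∈ B, stp Y u Q * stp Y v Q ≠ 0
        · obtain ⟨Q, hQ, hne⟩ := hz
          right
          have e1 : 1 ≤ stp Y u Q * stp Y v Q := by
            rcases h1 u u.2 Q hQ with e | e
            · rw [e] at hne; simp at hne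
            · rcases h1 v v.2 Q hQ with e' | e'
              · rw [e'] at hne; simp at hne
              · nlinarith
          have e2 : stp Y u Q * stp Y v Q ≤ ∑ Q ∈ B, stp Y u Q * stp Y v Q :=
            single_le_sum hnn hQ
          nlinarith
        · left
          push Not at hz
          rw [sum_eq_zero hz]; ring
      · left; ring
    · apply acyclic_of_lt _ (fun u : Fin n => ((u : ℕ) : ℤ))
      intro u v huv
      have huv' : gw B Y u v ≠ 0 := by
        intro h; apply huv; show lam * gw B Y u v = 0; rw [h, mul_zero]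
      unfold gw at huv'
      by_contra hlt
      rw [if_neg (by omega)] at huv'
      exact huv' rfl
    · rw [mul_sum]
      apply sum_congr rfl; intro u _
      rw [mul_sum]
    · intro X
      have e1 := four_dicut (fun u v : Fin n => lam * gw B Y u v) X
      set x : ℕ → ℝ := fun i => if hi : i < n then (if (⟨i, hi⟩ : Fin n) ∈ X then 1 else -1) else -1 with hx
      have hx2 : ∀ i, x i * x i = 1 := by
        intro i; simp only [hx]; split_ifs <;> norm_num
      have hxu : ∀ u : Fin n, x u = if u ∈ X then (1 : ℝ) else -1 := by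
        intro u; simp only [hx]; rw [dif_pos u.2]
      have e2 := gw_bound B Y n x hx2
      have e3 : ∑ u : Fin n, ∑ v : Fin n, lam * gw B Y u v * ((if u ∈ X then (1 : ℝ) else -1)
          - (if v ∈ X then (1 : ℝ) else -1) - (if u ∈ X then (1 : ℝ) else -1) * (if v ∈ X then (1 : ℝ) else -1))
          = lam * ∑ u : Fin n, ∑ v : Fin n, gw B Y u v * (x u - x v - x u * x v) := by
        rw [mul_sum]
        apply sum_congr rfl; intro u _
        rw [mul_sum]
        apply sum_congr rfl; intro v _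
        rw [hxu, hxu]; ring
      have e4 : ∑ u : Fin n, ∑ v : Fin n, lam * gw B Y u v = lam * ∑ u : Fin n, ∑ v : Fin n, gw B Y u v := by
        rw [mul_sum]
        apply sum_congr rfl; intro u _
        rw [mul_sum]
      rw [e3, e4] at e1
      rw [h0, hn] at e2
      have e5 : ∑ u : Fin n, ∑ v : Fin n, gw B Y u v * (x u - x v - x u * x v)
          ≤ (1 / 4) * V + (1 / 2) * ∑ Q ∈ B, ((P Q + R Q) / 2) ^ 2 + (1 / 2) * S := by linarith
      have e6 := mul_le_mul_of_nonneg_left e5 (show 0 ≤ lam by linarith)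
      linarith

/-- sizes of the cliques -/
noncomputable def sgm (N Q : ℤ) : ℝ := (Q : ℝ) * ((N : ℝ) - Q)

/-- shifts -/
noncomputable def shf (N Q : ℤ) : ℝ := 8 / 3 * ((N : ℝ) - 2 * Q)

/-- stages -/
noncomputable def kap (d : ℤ) : ℝ := if d ≤ 0 then -3 else if d = 1 then -1 else if d = 2 then 1 else 3

/-- the positions at the boundaries of the cells -/
noncomputable def FF (N q Q : ℤ) : ℝ := - shf N Q + sgm N Q * kap (Q - q)

lemma kap_le {d : ℤ} (h : d ≤ 0) : kap d = -3 := by unfold kap; rw [if_pos h]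
lemma kap_one : kap 1 = -1 := by unfold kap; norm_num
lemma kap_two : kap 2 = 1 := by unfold kap; norm_num
lemma kap_ge {d : ℤ} (h : 3 ≤ d) : kap d = 3 := by
  unfold kap; rw [if_neg (by omega), if_neg (by omega), if_neg (by omega)]

/-- number of steps of a cell -/
noncomputable def nuu (N q : ℤ) : ℕ := ⌊sgm N (q + 2) / 4⌋₊

lemma one_cell (B : Finset ℤ) (N q : ℤ) (hB : ∀ k ∈ Ico (q + 1) (q + 4), k ∈ B)
    (h1 : 49 ≤ q) (h2 : q + 53 ≤ N) :
    Path B (FF N q) (FF N (q + 1)) (nuu N q) (825 * nuu N q) (32 * N) := by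
  have h1r : (49 : ℝ) ≤ q := by exact_mod_cast h1
  have h2r : (q : ℝ) + 53 ≤ N := by exact_mod_cast h2
  -- product bounds
  have p1 : 51 * ((N : ℝ) - (q + 2)) ≤ ((q : ℝ) + 2) * ((N : ℝ) - (q + 2)) :=
    mul_le_mul_of_nonneg_right (by linarith) (by linarith)
  have p2 : 51 * ((q : ℝ) + 2) ≤ ((q : ℝ) + 2) * ((N : ℝ) - (q + 2)) := by
    rw [mul_comm]; exact mul_le_mul_of_nonneg_left (by linarith) (by linarith)
  set s : ℝ := sgm N (q + 2) with hs
  have hsv : s = ((q : ℝ) + 2) * ((N : ℝ) - (q + 2)) := by rw [hs]; unfold sgm; push_cast; ring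
  rw [← hsv] at p1 p2
  have hs0 : 0 < s := by linarith
  have hνle : 4 * ((nuu N q : ℕ) : ℝ) ≤ s := by
    unfold nuu; rw [← hs]
    have := Nat.floor_le (show 0 ≤ s / 4 by linarith)
    linarith
  have hνge : s ≤ 5 * ((nuu N q : ℕ) : ℝ) := by
    unfold nuu; rw [← hs]
    have := Nat.lt_floor_add_one (s / 4)
    linarith
  have hs1 : sgm N (q + 1) = s - ((N : ℝ) - 2 * (q + 2)) - 1 := by
    rw [hsv]; unfold sgm; push_cast; ring
  have hs3 : sgm N (q + 3) = s + ((N : ℝ) - 2 * (q + 2)) - 1 := by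
    rw [hsv]; unfold sgm; push_cast; ring
  have hc1 : shf N (q + 1) = 8 / 3 * (((N : ℝ) - 2 * (q + 2)) + 2) := by unfold shf; push_cast; ring
  have hc2 : shf N (q + 2) = 8 / 3 * ((N : ℝ) - 2 * (q + 2)) := by unfold shf; push_cast; ring
  have hc3 : shf N (q + 3) = 8 / 3 * (((N : ℝ) - 2 * (q + 2)) - 2) := by unfold shf; push_cast; ring
  set D : ℝ := (N : ℝ) - 2 * (q + 2) with hD
  have hD1 : D ≤ (N : ℝ) - (q + 2) - 51 := by rw [hD]; linarith
  have hD2 : -D ≤ (q : ℝ) + 2 - 51 := by rw [hD]; linarith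
  have k1 : q + 1 - q = 1 := by ring
  have k2 : q + 2 - q = 2 := by ring
  have k3 : q + 3 - q = 3 := by ring
  have k1' : q + 1 - (q + 1) ≤ 0 := by omega
  have k2' : q + 2 - (q + 1) = 1 := by ring
  have k3' : q + 3 - (q + 1) = 2 := by ring
  have main := cell_path B q hB (FF N q) (FF N (q + 1))
    (shf N (q + 1) + sgm N (q + 1)) (shf N (q + 1) + 3 * sgm N (q + 1))
    (- shf N (q + 2) + s) (- shf N (q + 2) - s)
    (- shf N (q + 3) + 3 * sgm N (q + 3)) (- shf N (q + 3) + sgm N (q + 3))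
    s (nuu N q) hs0 hνle hνge
    (by rw [hs1, hc1, abs_le]; constructor <;> linarith)
    (by rw [hs1, hc1, abs_le]; constructor <;> linarith)
    (by ring)
    (by rw [hs3, hc3, abs_le]; constructor <;> linarith)
    (by rw [hs3, hc3, abs_le]; constructor <;> linarith)
    (by unfold FF; rw [k1, kap_one]; ring)
    (by unfold FF; rw [k2, kap_two]; ring)
    (by unfold FF; rw [k3, kap_ge (le_refl 3)]; ring)
    (by unfold FF; rw [kap_le k1']; ring)
    (by unfold FF; rw [k2', kap_one]; ring)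
    (by unfold FF; rw [k3', kap_two]; ring)
    (by
      intro Q n1 n2 n3
      unfold FF
      rcases lt_or_ge Q (q + 1) with h | h
      · rw [kap_le (show Q - q ≤ 0 by omega), kap_le (show Q - (q + 1) ≤ 0 by omega)]
      · rw [kap_ge (show 3 ≤ Q - q by omega), kap_ge (show 3 ≤ Q - (q + 1) by omega)])
  obtain ⟨Y, a1, a2, a3, a4, a5⟩ := main
  refine ⟨Y, a1, a2, a3, a4, le_trans a5 ?_⟩
  have hE : (shf N (q + 1) + sgm N (q + 1)) ^ 2 + (- shf N (q + 2) + s) ^ 2
      + (- shf N (q + 3) + 3 * sgm N (q + 3)) ^ 2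
      - ((shf N (q + 1) + 3 * sgm N (q + 1)) ^ 2 + (- shf N (q + 2) - s) ^ 2
      + (- shf N (q + 3) + sgm N (q + 3)) ^ 2) = 32 * D := by
    rw [hs1, hs3, hc1, hc2, hc3, hsv, hD]; ring
  rw [hE, abs_mul, abs_of_pos (show (0 : ℝ) < 32 by norm_num)]
  have : |D| ≤ N := by
    rw [abs_le]; constructor <;> linarith
  linarith

lemma cells_path (B : Finset ℤ) (N q0 q1 : ℤ) (h01 : q0 ≤ q1) (h0 : 49 ≤ q0)
    (h1 : q1 + 52 ≤ N) (hB : ∀ k ∈ Ico (q0 + 1) (q1 + 3), k ∈ B) :
    ∃ n : ℕ, (n : ℝ) ≤ ((q1 : ℝ) - q0) * ((N : ℝ) ^ 2 / 16) ∧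
      Path B (FF N q0) (FF N q1) n (825 * n) (32 * N * ((q1 : ℝ) - q0)) := by
  induction q1, h01 using Int.leInduction with
  | base =>
    refine ⟨0, by simp, FF N q0 |> fun f => fun _ => f, rfl, rfl, ?_, ?_, ?_⟩
    · intro i hi; omega
    · simp
    · simp
  | succ q1 hq ih =>
    obtain ⟨n, hn, hp⟩ := ih (by omega) (by
      intro k hk; apply hB
      rw [mem_Ico] at hk ⊢; omega)
    have hc := one_cell B N q1 (by
      intro k hk; apply hB
      rw [mem_Ico] at hk ⊢; omega) (by omega) (by omega)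
    refine ⟨n + nuu N q1, ?_, ?_⟩
    · have e1 : ((nuu N q1 : ℕ) : ℝ) ≤ (N : ℝ) ^ 2 / 16 := by
        unfold nuu
        have h2r : (q1 : ℝ) + 1 + 52 ≤ N := by exact_mod_cast h1
        have h3r : (49 : ℝ) ≤ q1 := by exact_mod_cast (by omega : 49 ≤ q1)
        have hnn : 0 ≤ sgm N (q1 + 2) / 4 := by
          unfold sgm
          have : 0 ≤ ((q1 + 2 : ℤ) : ℝ) * ((N : ℝ) - ((q1 + 2 : ℤ) : ℝ)) := by
            apply mul_nonneg
            · push_cast; linarith
            · push_cast; linarith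
          linarith
        refine le_trans (Nat.floor_le hnn) ?_
        unfold sgm
        nlinarith [sq_nonneg ((N : ℝ) - 2 * ((q1 + 2 : ℤ) : ℝ))]
      push_cast
      linarith
    · have := Path_trans hp hc
      have e2 : (825 : ℝ) * n + 825 * (nuu N q1 : ℕ) = 825 * ((n + nuu N q1 : ℕ) : ℝ) := by push_cast; ring
      have e3 : 32 * (N : ℝ) * ((q1 : ℝ) - q0) + 32 * N = 32 * N * (((q1 + 1 : ℤ) : ℝ) - q0) := by push_cast; ring
      rw [e2, e3] at this
      exact this

end Pool.Agent.Dicut
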