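import Mathlib
import Pool.Agent.Dicut.WeightUp

set_option autoImplicit false

namespace Pool.Agent.Dicut

open Finset

lemma sum_ind_le (B : Finset ℤ) (a : ℤ) (c : ℝ) (hc : 0 ≤ c) :
    ∑ Q ∈ B, (if Q = a then c else 0) ≤ c := by
  rw [sum_ite_eq' B a (fun _ => c)]
  split_ifs <;> linarith

/-- block for the weighted problem, `N = 4 k` -/
lemma weight_block (k : ℕ) (hk : 60 ≤ k) : ∃ W : ℝ, 80 * (k : ℝ) ^ 5 ≤ W ∧ W ≤ 288 * (k : ℝ) ^ 5 ∧
    ∀ lam : ℝ, 1 ≤ lam → PW (lam * W) (lam * (4250 * (k : ℝ) ^ 3)) := by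
  have hkr : (60 : ℝ) ≤ k := by exact_mod_cast hk
  obtain ⟨N, hN⟩ : ∃ N : ℤ, N = 4 * (k : ℤ) := ⟨_, rfl⟩
  have hNr : (N : ℝ) = 4 * k := by rw [hN]; push_cast; ring
  have hkz : (60 : ℤ) ≤ k := by exact_mod_cast hk
  set B : Finset ℤ := Ico 50 (N - 49) with hB
  obtain ⟨n, hn, hp⟩ := cells_path B N 49 (N - 52) (by omega) (by omega) (by omega)
    (by
      intro j hj
      rw [hB]
      rw [mem_Ico] at hj ⊢
      omega)
  obtain ⟨W, hW1, hW2, hW3⟩ := PW_of_path hp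
  have hcardB : ((B.card : ℕ) : ℝ) ≤ N := by
    rw [hB, Int.card_Ico]
    have : ((N - 49 - 50).toNat : ℤ) ≤ N := by omega
    exact_mod_cast this
  -- number of steps
  have hn' : (n : ℝ) ≤ 4 * (k : ℝ) ^ 3 := by
    refine le_trans hn ?_
    rw [hNr]; push_cast
    have e : (((4 : ℝ) * k - 52) - 49) * ((4 * (k : ℝ)) ^ 2 / 16) = (4 * k - 101) * (k : ℝ) ^ 2 := by ring
    rw [hN]; push_cast
    rw [e]
    nlinarith [sq_nonneg (k : ℝ)]
  have hkap : ∀ d, |kap d| ≤ 3 := by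
    intro d; unfold kap; split_ifs <;> norm_num [abs_le]
  have hmem : ∀ Q ∈ B, (50 : ℝ) ≤ Q ∧ (Q : ℝ) ≤ 4 * k - 50 := by
    intro Q hQ
    rw [hB, mem_Ico] at hQ
    constructor
    · exact_mod_cast hQ.1
    · have : Q ≤ 4 * (k : ℤ) - 50 := by omega
      exact_mod_cast this
  have hsg0 : ∀ Q ∈ B, 0 ≤ sgm N Q ∧ sgm N Q ≤ 4 * (k : ℝ) ^ 2 := by
    intro Q hQ
    obtain ⟨h1, h2⟩ := hmem Q hQ
    unfold sgm
    rw [hNr]
    constructor
    · apply mul_nonneg <;> linarith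
    · nlinarith [sq_nonneg (2 * (k : ℝ) - Q)]
  have hFF : ∀ Q, FF N 49 Q - FF N (N - 52) Q = sgm N Q * (kap (Q - 49) - kap (Q - (N - 52))) := by
    intro Q; unfold FF; ring
  have hFFp : ∀ Q, (FF N 49 Q + FF N (N - 52) Q) / 2
      = - shf N Q + sgm N Q * (kap (Q - 49) + kap (Q - (N - 52))) / 2 := by
    intro Q; unfold FF; ring
  -- total weight, upper bound
  have hup : ∑ Q ∈ B, (FF N 49 Q - FF N (N - 52) Q) ^ 2 ≤ 2304 * (k : ℝ) ^ 5 := by
    have h1 : ∀ Q ∈ B, (FF N 49 Q - FF N (N - 52) Q) ^ 2 ≤ 576 * (k : ℝ) ^ 4 := by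
      intro Q hQ
      obtain ⟨a1, a2⟩ := hsg0 Q hQ
      rw [hFF, mul_pow]
      have b1 := abs_le.mp (hkap (Q - 49))
      have b2 := abs_le.mp (hkap (Q - (N - 52)))
      have c1 : (kap (Q - 49) - kap (Q - (N - 52))) ^ 2 ≤ 36 := by
        have : |kap (Q - 49) - kap (Q - (N - 52))| ≤ 6 := by rw [abs_le]; constructor <;> linarith
        rw [← sq_abs]
        nlinarith [abs_nonneg (kap (Q - 49) - kap (Q - (N - 52)))]
      have c2 : (sgm N Q) ^ 2 ≤ (4 * (k : ℝ) ^ 2) ^ 2 := pow_le_pow_left₀ a1 a2 2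
      calc (sgm N Q) ^ 2 * (kap (Q - 49) - kap (Q - (N - 52))) ^ 2
          ≤ (4 * (k : ℝ) ^ 2) ^ 2 * 36 := mul_le_mul c2 c1 (sq_nonneg _) (by positivity)
        _ = 576 * (k : ℝ) ^ 4 := by ring
    refine le_trans (sum_le_sum h1) ?_
    rw [sum_const, nsmul_eq_mul]
    calc ((B.card : ℕ) : ℝ) * (576 * (k : ℝ) ^ 4) ≤ (4 * k) * (576 * (k : ℝ) ^ 4) :=
          mul_le_mul_of_nonneg_right (by rw [← hNr]; exact hcardB) (by positivity)
      _ = 2304 * (k : ℝ) ^ 5 := by ring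
  -- total weight, lower bound
  have hlow : 648 * (k : ℝ) ^ 5 ≤ ∑ Q ∈ B, (FF N 49 Q - FF N (N - 52) Q) ^ 2 := by
    have hsub : Ico (k : ℤ) (3 * k) ⊆ B := by
      intro z hz
      rw [hB]
      rw [mem_Ico] at hz ⊢
      omega
    calc 648 * (k : ℝ) ^ 5 = (2 * (k : ℝ)) * (324 * (k : ℝ) ^ 4) := by ring
      _ = ∑ Q ∈ Ico (k : ℤ) (3 * k), 324 * (k : ℝ) ^ 4 := by
          rw [sum_const, nsmul_eq_mul, Int.card_Ico]
          have : ((3 * (k : ℤ) - k).toNat : ℤ) = 2 * k := by omega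
          have h2 : (((3 * (k : ℤ) - k).toNat : ℕ) : ℝ) = 2 * k := by exact_mod_cast this
          rw [h2]
      _ ≤ ∑ Q ∈ Ico (k : ℤ) (3 * k), (FF N 49 Q - FF N (N - 52) Q) ^ 2 := by
          apply sum_le_sum; intro Q hQ
          rw [mem_Ico] at hQ
          rw [hFF, kap_ge (show 3 ≤ Q - 49 by omega), kap_le (show Q - (N - 52) ≤ 0 by omega)]
          have q1 : (k : ℝ) ≤ Q := by exact_mod_cast hQ.1
          have q2 : (Q : ℝ) + 1 ≤ 3 * k := by exact_mod_cast hQ.2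
          have c1 : 3 * (k : ℝ) ^ 2 ≤ sgm N Q := by
            unfold sgm; rw [hNr]
            nlinarith [mul_nonneg (show 0 ≤ (Q : ℝ) - k by linarith) (show 0 ≤ 3 * (k : ℝ) - Q by linarith)]
          have c2 : (3 * (k : ℝ) ^ 2) ^ 2 ≤ (sgm N Q) ^ 2 := pow_le_pow_left₀ (by positivity) c1 2
          have e : (sgm N Q * (3 - -3)) ^ 2 = 36 * (sgm N Q) ^ 2 := by ring
          rw [e]
          nlinarith
      _ ≤ _ := sum_le_sum_of_subset_of_nonneg hsub (fun _ _ _ => sq_nonneg _)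
  -- shifts
  have hz : ∑ Q ∈ B, ((FF N 49 Q + FF N (N - 52) Q) / 2) ^ 2 ≤ 28800 * (k : ℝ) ^ 3 := by
    have h1 : ∀ Q ∈ B, ((FF N 49 Q + FF N (N - 52) Q) / 2) ^ 2
        ≤ 128 * (k : ℝ) ^ 2 + ((if Q = 50 then 176400 * (k : ℝ) ^ 2 else 0)
          + (if Q = 51 then 176400 * (k : ℝ) ^ 2 else 0)
          + (if Q = N - 51 then 176400 * (k : ℝ) ^ 2 else 0)
          + (if Q = N - 50 then 176400 * (k : ℝ) ^ 2 else 0)) := by
      intro Q hQ
      obtain ⟨m1, m2⟩ := hmem Q hQ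
      have hshf : |shf N Q| ≤ 32 / 3 * k := by
        unfold shf; rw [hNr, abs_le]; constructor <;> linarith
      have hQ' := hQ
      rw [hB, mem_Ico] at hQ'
      have hnn : ∀ a : ℤ, 0 ≤ (if Q = a then 176400 * (k : ℝ) ^ 2 else 0) := by
        intro a; split_ifs
        · positivity
        · exact le_refl _
      by_cases hmid : 52 ≤ Q ∧ Q ≤ N - 52
      · rw [hFFp, kap_ge (show 3 ≤ Q - 49 by omega), kap_le (show Q - (N - 52) ≤ 0 by omega)]
        have e : (- shf N Q + sgm N Q * (3 + -3) / 2) ^ 2 = |shf N Q| ^ 2 := by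
          rw [sq_abs]; ring
        rw [e]
        have e2 : |shf N Q| ^ 2 ≤ (32 / 3 * (k : ℝ)) ^ 2 := pow_le_pow_left₀ (abs_nonneg _) hshf 2
        have e3 : (32 / 3 * (k : ℝ)) ^ 2 ≤ 128 * (k : ℝ) ^ 2 := by nlinarith [sq_nonneg (k : ℝ)]
        have := hnn 50
        have := hnn 51
        have := hnn (N - 51)
        have := hnn (N - 50)
        linarith
      · -- boundary values
        have hsmall : sgm N Q ≤ 204 * k := by
          unfold sgm; rw [hNr]
          by_cases h : Q ≤ 51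
          · have h' : (Q : ℝ) ≤ 51 := by exact_mod_cast h
            nlinarith
          · have h' : 4 * (k : ℝ) - 51 ≤ Q := by
              have : 4 * (k : ℤ) - 51 ≤ Q := by omega
              exact_mod_cast this
            nlinarith
        have hs0 := (hsg0 Q hQ).1
        have b1 := abs_le.mp (hkap (Q - 49))
        have b2 := abs_le.mp (hkap (Q - (N - 52)))
        -- |kap + kap| ≤ 4 at the boundary
        have hkk : |kap (Q - 49) + kap (Q - (N - 52))| ≤ 4 := by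
          by_cases h : Q ≤ 51
          · have e : kap (Q - (N - 52)) = -3 := kap_le (by omega)
            have h50 : Q = 50 ∨ Q = 51 := by omega
            rcases h50 with rfl | rfl
            · rw [e]; have : kap (50 - 49) = -1 := kap_one
              rw [this]; norm_num [abs_le]
            · rw [e]; have : kap (51 - 49) = 1 := kap_two
              rw [this]; norm_num [abs_le]
          · have e : kap (Q - 49) = 3 := kap_ge (by omega)
            have h50 : Q - (N - 52) = 1 ∨ Q - (N - 52) = 2 := by omega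
            rcases h50 with h5 | h5
            · rw [e, h5, kap_one]; norm_num [abs_le]
            · rw [e, h5, kap_two]; norm_num [abs_le]
        have htot : |(FF N 49 Q + FF N (N - 52) Q) / 2| ≤ 420 * k := by
          rw [hFFp]
          have t1 : |sgm N Q * (kap (Q - 49) + kap (Q - (N - 52))) / 2| ≤ 204 * k * 4 / 2 := by
            rw [abs_div, abs_mul, abs_of_nonneg hs0, abs_two]
            have : sgm N Q * |kap (Q - 49) + kap (Q - (N - 52))| ≤ 204 * k * 4 :=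
              mul_le_mul hsmall hkk (abs_nonneg _) (by linarith)
            linarith
          have t2 := abs_add_le (- shf N Q) (sgm N Q * (kap (Q - 49) + kap (Q - (N - 52))) / 2)
          rw [abs_neg] at t2
          linarith
        have hsq : ((FF N 49 Q + FF N (N - 52) Q) / 2) ^ 2 ≤ 176400 * (k : ℝ) ^ 2 := by
          rw [← sq_abs]
          have := pow_le_pow_left₀ (abs_nonneg _) htot 2
          have e : (420 * (k : ℝ)) ^ 2 = 176400 * (k : ℝ) ^ 2 := by ring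
          linarith
        have hcases : Q = 50 ∨ Q = 51 ∨ Q = N - 51 ∨ Q = N - 50 := by omega
        have h128 : 0 ≤ 128 * (k : ℝ) ^ 2 := by positivity
        have n1 := hnn 50
        have n2 := hnn 51
        have n3 := hnn (N - 51)
        have n4 := hnn (N - 50)
        have hval : ∀ a : ℤ, Q = a → (if Q = a then 176400 * (k : ℝ) ^ 2 else 0) = 176400 * (k : ℝ) ^ 2 :=
          fun a h => if_pos h
        rcases hcases with h | h | h | h
        · have := hval _ h; linarith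
        · have := hval _ h; linarith
        · have := hval _ h; linarith
        · have := hval _ h; linarith
    refine le_trans (sum_le_sum h1) ?_
    rw [sum_add_distrib, sum_add_distrib, sum_add_distrib, sum_add_distrib, sum_const, nsmul_eq_mul]
    have c0 : (0 : ℝ) ≤ 176400 * (k : ℝ) ^ 2 := by positivity
    have s1 := sum_ind_le B 50 _ c0
    have s2 := sum_ind_le B 51 _ c0
    have s3 := sum_ind_le B (N - 51) _ c0
    have s4 := sum_ind_le B (N - 50) _ c0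
    have s5 : ((B.card : ℕ) : ℝ) * (128 * (k : ℝ) ^ 2) ≤ (4 * k) * (128 * (k : ℝ) ^ 2) :=
      mul_le_mul_of_nonneg_right (by rw [← hNr]; exact hcardB) (by positivity)
    have s6 : (705600 : ℝ) * (k : ℝ) ^ 2 ≤ 14112 * (k : ℝ) ^ 3 := by
      have : 0 ≤ (k : ℝ) ^ 2 := sq_nonneg _
      nlinarith
    have s7 : 0 ≤ (k : ℝ) ^ 3 := by positivity
    nlinarith
  have hk3 : 1650 * (k : ℝ) ^ 3 ≤ (k : ℝ) ^ 5 := by
    have h2 : (1650 : ℝ) ≤ (k : ℝ) ^ 2 := by nlinarith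
    have h3 : 0 ≤ (k : ℝ) ^ 3 := by positivity
    calc 1650 * (k : ℝ) ^ 3 ≤ (k : ℝ) ^ 2 * (k : ℝ) ^ 3 := mul_le_mul_of_nonneg_right h2 h3
      _ = (k : ℝ) ^ 5 := by ring
  refine ⟨W, ?_, ?_, ?_⟩
  · linarith
  · linarith
  · intro lam hlam
    apply PW_mono (hW3 lam hlam)
    apply mul_le_mul_of_nonneg_left _ (by linarith)
    have hV : 32 * (N : ℝ) * (((N - 52 : ℤ) : ℝ) - ((49 : ℤ) : ℝ)) ≤ 512 * (k : ℝ) ^ 2 := by
      push_cast
      rw [hNr]
      nlinarith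
    have h2 : (k : ℝ) ^ 2 ≤ (k : ℝ) ^ 3 := pow_le_pow_right₀ (by linarith) (by norm_num)
    have h3 : 0 ≤ (k : ℝ) ^ 3 := by positivity
    generalize 32 * (N : ℝ) * (((N - 52 : ℤ) : ℝ) - ((49 : ℤ) : ℝ)) = Vt at hV ⊢
    generalize ∑ Q ∈ B, ((FF N 49 Q + FF N (N - 52) Q) / 2) ^ 2 = Zt at hz ⊢
    linarith

/-- the upper bound in the weighted problem -/
theorem weighted_upper : ∃ C : ℝ, ∀ w : ℝ, 1 ≤ w → hWeighted w ≤ w / 4 + C * w ^ (3 / 5 : ℝ) := by
  refine ⟨288 * 61 ^ 5, ?_⟩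
  intro w hw
  have hpow : (1 : ℝ) ≤ w ^ (3 / 5 : ℝ) := Real.one_le_rpow hw (by norm_num)
  rcases lt_or_ge w (288 * 60 ^ 5) with hsmall | hbig
  · have h1 := PW_hWeighted (PW_trivial hw)
    nlinarith
  · -- choose k
    obtain ⟨k, hk60, hk1, hk2⟩ : ∃ k : ℕ, 60 ≤ k ∧ 288 * (k : ℝ) ^ 5 ≤ w ∧ w < 288 * ((k : ℝ) + 1) ^ 5 := by
      have hex : ∃ k : ℕ, w < 288 * ((k : ℝ) + 1) ^ 5 := by
        refine ⟨⌈w⌉₊, ?_⟩
        have h1 := Nat.le_ceil w
        have h2 : (⌈w⌉₊ : ℝ) + 1 ≤ ((⌈w⌉₊ : ℝ) + 1) ^ 5 := by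
          have : (1 : ℝ) ≤ (⌈w⌉₊ : ℝ) + 1 := by
            have := Nat.cast_nonneg (α := ℝ) ⌈w⌉₊
            linarith
          calc (⌈w⌉₊ : ℝ) + 1 = ((⌈w⌉₊ : ℝ) + 1) ^ 1 := by ring
            _ ≤ ((⌈w⌉₊ : ℝ) + 1) ^ 5 := pow_le_pow_right₀ this (by norm_num)
        linarith
      classical
      have hpos : 60 ≤ Nat.find hex := by
        by_contra h
        have h1 := Nat.find_spec hex
        have h2 : ((Nat.find hex : ℕ) : ℝ) + 1 ≤ 60 := by exact_mod_cast (by omega : Nat.find hex + 1 ≤ 60)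
        have h3 : (((Nat.find hex : ℕ) : ℝ) + 1) ^ 5 ≤ 60 ^ 5 :=
          pow_le_pow_left₀ (by positivity) h2 5
        linarith
      refine ⟨Nat.find hex, hpos, ?_, Nat.find_spec hex⟩
      have h2 := Nat.find_min hex (m := Nat.find hex - 1) (by omega)
      rw [not_lt] at h2
      have h3 : (((Nat.find hex - 1 : ℕ)) : ℝ) + 1 = ((Nat.find hex : ℕ) : ℝ) := by
        have : Nat.find hex - 1 + 1 = Nat.find hex := by omega
        exact_mod_cast this
      rw [h3] at h2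
      exact h2
    obtain ⟨W, hW1, hW2, hW3⟩ := weight_block k hk60
    have hkr : (60 : ℝ) ≤ k := by exact_mod_cast hk60
    have hk5 : 0 < (k : ℝ) ^ 5 := by positivity
    have hWpos : 0 < W := by linarith
    have hlam : 1 ≤ w / W := by rw [le_div_iff₀ hWpos]; linarith
    have h1 := hW3 (w / W) hlam
    rw [div_mul_cancel₀ _ hWpos.ne'] at h1
    refine le_trans (PW_hWeighted h1) ?_
    have h2 : ((k : ℝ) + 1) ^ 5 ≤ 2 * (k : ℝ) ^ 5 := by
      have h3 : (k : ℝ) + 1 ≤ 61 / 60 * k := by linarith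
      have h4 : ((k : ℝ) + 1) ^ 5 ≤ (61 / 60 * (k : ℝ)) ^ 5 := pow_le_pow_left₀ (by positivity) h3 5
      have h5 : (61 / 60 * (k : ℝ)) ^ 5 = (61 / 60) ^ 5 * (k : ℝ) ^ 5 := by ring
      rw [h5] at h4
      have h6 : ((61 : ℝ) / 60) ^ 5 ≤ 2 := by norm_num
      nlinarith
    have hlam2 : w / W ≤ 36 / 5 := by
      rw [div_le_iff₀ hWpos]; linarith
    have h3 : (k : ℝ) ^ 3 ≤ w ^ (3 / 5 : ℝ) := by
      have h4 : (k : ℝ) ^ 3 = ((k : ℝ) ^ 5) ^ (3 / 5 : ℝ) := by
        rw [← Real.rpow_natCast, ← Real.rpow_natCast, ← Real.rpow_mul (by positivity)]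
        norm_num
      rw [h4]
      apply Real.rpow_le_rpow (by positivity) _ (by norm_num)
      linarith
    have h4 : w / W * (4250 * (k : ℝ) ^ 3) ≤ 36 / 5 * (4250 * w ^ (3 / 5 : ℝ)) := by
      apply mul_le_mul hlam2 _ (by positivity) (by norm_num)
      linarith
    have h5 : (36 : ℝ) / 5 * 4250 ≤ 288 * 61 ^ 5 := by norm_num
    have h6 : (36 : ℝ) / 5 * (4250 * w ^ (3 / 5 : ℝ)) ≤ 288 * 61 ^ 5 * w ^ (3 / 5 : ℝ) := by
      have := mul_le_mul_of_nonneg_right h5 (show 0 ≤ w ^ (3 / 5 : ℝ) by linarith)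
      linarith
    linarith

end Pool.Agent.Dicut
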