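import Mathlib
import Pool.Agent.Dicut.Lower3
import Pool.Agent.Dicut.WeightAsm
import Pool.Agent.Dicut.MultiAsm

set_option autoImplicit false

namespace Pool.Agent.Dicut

open Finset

theorem weighted_order : ∃ c C : ℝ, 0 < c ∧ ∀ w : ℝ, 1 ≤ w →
    w / 4 + c * w ^ (3 / 5 : ℝ) ≤ hWeighted w ∧ hWeighted w ≤ w / 4 + C * w ^ (3 / 5 : ℝ) := by
  obtain ⟨C, hC⟩ := weighted_upper
  refine ⟨1 / 16, C, by norm_num, ?_⟩
  intro w hw
  refine ⟨?_, hC w hw⟩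
  unfold hWeighted
  apply le_csSup
  · obtain ⟨V, i1, i2, a, h1, hac, htot, hX⟩ := PW_trivial hw
    refine ⟨w / 4 + w, ?_⟩
    intro g hg
    obtain ⟨X, hgX⟩ := @hg V i1 i2 a h1 hac htot
    exact le_trans hgX (hX X)
  · intro V _ _ a h1 hac htot
    exact lower_weight h1 hac w htot hw

lemma multi_lower (m : ℕ) (hm : 1 ≤ m) :
    (m : ℝ) / 4 + 1 / 16 * (m : ℝ) ^ (3 / 5 : ℝ) ≤ (hMulti m : ℝ) := by
  have hm1 : (1 : ℝ) ≤ m := by exact_mod_cast hm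
  refine le_trans (Nat.le_ceil _) ?_
  have h : ⌈(m : ℝ) / 4 + 1 / 16 * (m : ℝ) ^ (3 / 5 : ℝ)⌉₊ ≤ hMulti m := by
    unfold hMulti
    apply le_csSup
    · obtain ⟨V, i1, i2, a, hac, htot, hX⟩ := PM_trivial m
      refine ⟨⌊(m : ℝ) / 4 + m⌋₊, ?_⟩
      intro k hk
      obtain ⟨X, hkX⟩ := @hk V i1 i2 a hac htot
      apply Nat.le_floor
      refine le_trans ?_ (hX X)
      exact_mod_cast hkX
    · intro V _ _ a hac htot
      have h1 : ∀ u v, ((a u v : ℕ) : ℝ) = 0 ∨ 1 ≤ ((a u v : ℕ) : ℝ) := by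
        intro u v
        rcases Nat.eq_zero_or_pos (a u v) with h | h
        · left; rw [h]; simp
        · right; exact_mod_cast h
      have h2 : Acyclic (fun u v => ((a u v : ℕ) : ℝ) ≠ 0) := by
        apply acyclic_mono _ (fun u v => a u v ≠ 0) _ hac
        intro u v huv h0
        exact huv (by rw [h0]; simp)
      have h3 : ∑ u, ∑ v, ((a u v : ℕ) : ℝ) = m := by
        rw [← htot]; push_cast; rfl
      obtain ⟨X, hX⟩ := lower_weight h1 h2 m h3 hm1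
      refine ⟨X, ?_⟩
      apply Nat.ceil_le.mpr
      refine le_trans hX (le_of_eq ?_)
      unfold dicutWeight
      push_cast
      rfl
  exact_mod_cast h

theorem multi_order : ∃ c C : ℝ, 0 < c ∧ ∀ m : ℕ, 1 ≤ m →
    (m : ℝ) / 4 + c * (m : ℝ) ^ (3 / 5 : ℝ) ≤ (hMulti m : ℝ) ∧
    (hMulti m : ℝ) ≤ m / 4 + C * (m : ℝ) ^ (3 / 5 : ℝ) * Real.exp (C * Real.sqrt (Real.log m)) := by
  obtain ⟨C, hC⟩ := multi_upper
  exact ⟨1 / 16, C, by norm_num, fun m hm => ⟨multi_lower m hm, hC m hm⟩⟩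

end Pool.Agent.Dicut
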