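import Mathlib
import Pool.Agent.Dicut.Core3
import Pool.Agent.Dicut.MultiAsm

set_option autoImplicit false

namespace Pool.Agent.Dicut

open Finset

lemma sum_le_one_of_unique {ι : Type} (s : Finset ι) (f : ι → ℕ) (h1 : ∀ i ∈ s, f i ≤ 1)
    (h2 : ∀ i ∈ s, ∀ j ∈ s, f i ≠ 0 → f j ≠ 0 → i = j) : ∑ i ∈ s, f i ≤ 1 := by
  by_cases h : ∃ i ∈ s, f i ≠ 0
  · obtain ⟨i, hi, hne⟩ := h
    rw [sum_eq_single i]
    · exact h1 i hi
    · intro j hj hji
      by_contra h3
      exact hji (h2 j hj i hi h3 hne)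
    · intro h3; exact absurd hi h3
  · push Not at h
    rw [sum_eq_zero h]
    norm_num

lemma cell_one (ctr A : ℤ → ℤ) (q k u : ℤ) (hA : 0 ≤ A q) (h : u ∈ cell ctr A 1 q k) :
    u = ctr q + k ∧ u ∈ row ctr A q := by
  unfold cell cut cl at h
  unfold row
  rw [mem_Ico] at h ⊢
  omega

lemma row_unique {M a b : ℤ} {ctr A : ℤ → ℤ} (hch : Chain M a b ctr A) {q q' u : ℤ}
    (hq : q ∈ Ico 0 M) (hq' : q' ∈ Ico 0 M) (h : u ∈ row ctr A q) (h' : u ∈ row ctr A q') : q = q' := by
  unfold row at h h'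
  rw [mem_Ico] at h h'
  rcases lt_trichotomy q q' with h1 | h1 | h1
  · have := hch.ord q hq q' hq' h1; omega
  · exact h1
  · have := hch.ord q' hq' q hq h1; omega

lemma mult_le_one {M a b : ℤ} {ctr A : ℤ → ℤ} (hch : Chain M a b ctr A) (T u v : ℤ) :
    rowMult ctr A M u v + colMult ctr A 1 M T u v ≤ 1 := by
  have hind1 : ∀ l q q', ind ctr A 1 l q q' u v ≤ 1 := by
    intro l q q'; unfold ind; split_ifs <;> omega
  have hind : ∀ l q q', ind ctr A 1 l q q' u v ≠ 0 →
      u ∈ cell ctr A 1 q (l - q) ∧ v ∈ cell ctr A 1 q' (l - q') ∧ u < v := by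
    intro l q q' h
    unfold ind at h
    by_contra h'
    rw [if_neg h'] at h
    exact h rfl
  by_cases hr : rowMult ctr A M u v = 0
  · rw [hr, zero_add]
    unfold colMult
    have in1 : ∀ l, ∀ q ∈ Ico 0 M, ∑ q' ∈ Ico 0 M, ind ctr A 1 l q q' u v ≤ 1 := by
      intro l q _
      apply sum_le_one_of_unique
      · intro q' _; exact hind1 l q q'
      · intro q1 h1 q2 h2 hi hj
        obtain ⟨_, hv1, _⟩ := hind l q q1 hi
        obtain ⟨_, hv2, _⟩ := hind l q q2 hj
        exact row_unique hch h1 h2 (cell_one ctr A q1 _ v (hch.nonneg q1) hv1).2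
          (cell_one ctr A q2 _ v (hch.nonneg q2) hv2).2
    have in2 : ∀ l, ∑ q ∈ Ico 0 M, ∑ q' ∈ Ico 0 M, ind ctr A 1 l q q' u v ≤ 1 := by
      intro l
      apply sum_le_one_of_unique
      · exact in1 l
      · intro q1 h1 q2 h2 hi hj
        obtain ⟨p1, _, hp1⟩ := exists_ne_zero_of_sum_ne_zero hi
        obtain ⟨p2, _, hp2⟩ := exists_ne_zero_of_sum_ne_zero hj
        obtain ⟨hu1, _, _⟩ := hind l q1 p1 hp1
        obtain ⟨hu2, _, _⟩ := hind l q2 p2 hp2
        exact row_unique hch h1 h2 (cell_one ctr A q1 _ u (hch.nonneg q1) hu1).2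
          (cell_one ctr A q2 _ u (hch.nonneg q2) hu2).2
    apply sum_le_one_of_unique
    · intro l _; exact in2 l
    · intro l1 _ l2 _ hi hj
      obtain ⟨q1, hq1, hi'⟩ := exists_ne_zero_of_sum_ne_zero hi
      obtain ⟨q2, hq2, hj'⟩ := exists_ne_zero_of_sum_ne_zero hj
      obtain ⟨p1, _, hp1⟩ := exists_ne_zero_of_sum_ne_zero hi'
      obtain ⟨p2, _, hp2⟩ := exists_ne_zero_of_sum_ne_zero hj'
      obtain ⟨hu1, _, _⟩ := hind l1 q1 p1 hp1
      obtain ⟨hu2, _, _⟩ := hind l2 q2 p2 hp2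
      have e1 := cell_one ctr A q1 _ u (hch.nonneg q1) hu1
      have e2 := cell_one ctr A q2 _ u (hch.nonneg q2) hu2
      have hqq := row_unique hch hq1 hq2 e1.2 e2.2
      subst hqq
      omega
  · obtain ⟨q0, hq0, hne⟩ := exists_ne_zero_of_sum_ne_zero (by unfold rowMult at hr; exact hr)
    have hq0' : u ∈ row ctr A q0 ∧ v ∈ row ctr A q0 ∧ u < v := by
      by_contra h'
      rw [if_neg h'] at hne
      exact hne rfl
    have hc : colMult ctr A 1 M T u v = 0 := by
      unfold colMult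
      apply sum_eq_zero; intro l _
      apply sum_eq_zero; intro q hq
      apply sum_eq_zero; intro q' hq'
      by_contra h
      obtain ⟨hu, hv, huv⟩ := hind l q q' h
      have e1 := cell_one ctr A q _ u (hch.nonneg q) hu
      have e2 := cell_one ctr A q' _ v (hch.nonneg q') hv
      have h1 := row_unique hch hq hq0 e1.2 hq0'.1
      have h2 := row_unique hch hq' hq0 e2.2 hq0'.2.1
      subst h1
      subst h2
      omega
    rw [hc, add_zero]
    unfold rowMult
    apply sum_le_one_of_unique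
    · intro q _; split_ifs <;> omega
    · intro q1 h1 q2 h2 hi hj
      have e1 : u ∈ row ctr A q1 := by
        by_contra h'
        apply hi; rw [if_neg]; tauto
      have e2 : u ∈ row ctr A q2 := by
        by_contra h'
        apply hj; rw [if_neg]; tauto
      exact row_unique hch h1 h2 e1 e2

lemma col_lt (ctr A : ℤ → ℤ) (σ M T u v : ℤ) (h : colMult ctr A σ M T u v ≠ 0) : u < v := by
  unfold colMult at h
  obtain ⟨l, _, h1⟩ := exists_ne_zero_of_sum_ne_zero h
  obtain ⟨q, _, h2⟩ := exists_ne_zero_of_sum_ne_zero h1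
  obtain ⟨q', _, h3⟩ := exists_ne_zero_of_sum_ne_zero h2
  unfold ind at h3
  by_contra hlt
  apply h3
  rw [if_neg]
  tauto

lemma PS_of_chain (T : ℤ) (hT1 : 1 ≤ T) (M a b : ℤ) (hM : 0 ≤ M) (ctr A : ℤ → ℤ)
    (hch : Chain M a b ctr A) (hle : ∀ q, A q ≤ T) (w : ℝ) (hw : 0 ≤ w)
    (hwin : ∀ c, ∑ j ∈ Ico c (c + T), (dA A j : ℝ) ≤ w) :
    ∃ m' : ℕ, ∑ q ∈ Ico 0 M, (A q : ℝ) * (2 * A q - 1) ≤ m' ∧
      (m' : ℝ) ≤ ∑ q ∈ Ico 0 M, (A q : ℝ) * (2 * A q - 1) + 4 * (T : ℝ) * ∑ q ∈ Ico 0 M, (A q : ℝ) ∧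
      PS m' (((12 * M + 16 * T) * w ^ 2 + 2 * ∑ q ∈ Ico 0 M, (A q : ℝ)) / 4) := by
  have hB := row_sub M a b ctr A hch
  have hRtot := Tot_row ctr A M hch.nonneg (Ico a b) hB
  have hle' : ∀ q, A q ≤ 1 * T := by intro q; rw [one_mul]; exact hle q
  have hCtot := Tot_col M a b T 1 ctr A hch (by norm_num) (by omega) hle'
  refine ⟨∑ u ∈ Ico a b, ∑ v ∈ Ico a b, (rowMult ctr A M u v + colMult ctr A 1 M T u v), ?_, ?_, ?_⟩
  · rw [Tot_cast (Ico a b) (fun u v => rowMult ctr A M u v + colMult ctr A 1 M T u v), Tot_add, hRtot]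
    have h0 : 0 ≤ Tot (Ico a b) (fun u v => colMult ctr A 1 M T u v) := by unfold Tot; positivity
    linarith
  · rw [Tot_cast (Ico a b) (fun u v => rowMult ctr A M u v + colMult ctr A 1 M T u v), Tot_add, hRtot]
    push_cast at hCtot
    linarith
  · apply PS_of_fun (Ico a b) (fun u v => rowMult ctr A M u v + colMult ctr A 1 M T u v) _ _ _ _ rfl
    · intro x hx
      rw [Fun_add]
      have h1 := Fun_row_le ctr A M hch.nonneg (Ico a b) hB x hx
      have h2 := step_windows M a b T 1 ctr A hch (by norm_num) hT1 hle' x hx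
      have h3 : ∑ k ∈ Ico (-T) T, ∑ q ∈ Ico 0 M, ∑ v ∈ cell ctr A 1 q k,
          ((cut ctr A 1 q k : ℝ) + cut ctr A 1 q (k + 1) - 1 - 2 * v) * x v = 0 := by
        apply sum_eq_zero; intro k _
        apply sum_eq_zero; intro q _
        apply sum_eq_zero; intro v hv
        have h4 : cut ctr A 1 q k + cut ctr A 1 q (k + 1) - 1 - 2 * v = 0 := by
          have hAq := hch.nonneg q
          unfold cell cut cl at hv
          unfold cut cl
          rw [mem_Ico] at hv
          omega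
        have h5 : ((cut ctr A 1 q k : ℝ) + cut ctr A 1 q (k + 1) - 1 - 2 * v) = 0 := by exact_mod_cast h4
        rw [h5, zero_mul]
      rw [h3, mul_zero, zero_add] at h2
      have hTr : (1 : ℝ) ≤ T := by exact_mod_cast hT1
      have hdA0 : ∀ j, (0 : ℝ) ≤ dA A j := by
        intro j; have : 0 ≤ dA A j := abs_nonneg _
        exact_mod_cast this
      have hsum0 : ∀ s : Finset ℤ, 0 ≤ ∑ j ∈ s, (dA A j : ℝ) := fun s => sum_nonneg (fun j _ => hdA0 j)
      have h4 : ∑ l ∈ Ico (-T) (M + T), (∑ j ∈ Ico (l + (-T + 1)) (l + T), (dA A j : ℝ)) ^ 2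
          ≤ ∑ l ∈ Ico (-T) (M + T), (2 * w) ^ 2 := by
        apply sum_le_sum; intro l _
        apply pow_le_pow_left₀ (hsum0 _)
        have e1 : Ico (l + (-T + 1)) (l + T) ⊆ Ico (l - T) (l - T + T) ∪ Ico l (l + T) := by
          intro z; simp only [mem_Ico, mem_union]; omega
        calc ∑ j ∈ Ico (l + (-T + 1)) (l + T), (dA A j : ℝ)
            ≤ ∑ j ∈ Ico (l - T) (l - T + T) ∪ Ico l (l + T), (dA A j : ℝ) :=
              sum_le_sum_of_subset_of_nonneg e1 (fun j _ _ => hdA0 j)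
          _ ≤ ∑ j ∈ Ico (l - T) (l - T + T), (dA A j : ℝ) + ∑ j ∈ Ico l (l + T), (dA A j : ℝ) := by
              rw [← sum_union_inter]
              have := hsum0 (Ico (l - T) (l - T + T) ∩ Ico l (l + T))
              linarith
          _ ≤ 2 * w := by
              have := hwin (l - T)
              have := hwin l
              linarith
      have h5 : ∑ l ∈ Ico (-T) (M + T), (2 * w) ^ 2 = (M + 2 * T) * (2 * w) ^ 2 := by
        rw [sum_const, nsmul_eq_mul, card_Ico_real _ _ (by omega)]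
        push_cast; ring
      have h6 : ∑ q ∈ Ico 0 M, (2 * (∑ j ∈ Ico (q + 0) (q + T), (dA A j : ℝ)) ^ 2
          + 2 * (∑ j ∈ Ico (q + -T) (q + 0), (dA A j : ℝ)) ^ 2) ≤ ∑ q ∈ Ico 0 M, 4 * w ^ 2 := by
        apply sum_le_sum; intro q _
        have e1 : (∑ j ∈ Ico (q + 0) (q + T), (dA A j : ℝ)) ^ 2 ≤ w ^ 2 := by
          apply pow_le_pow_left₀ (hsum0 _)
          rw [add_zero]; exact hwin q
        have e2 : (∑ j ∈ Ico (q + -T) (q + 0), (dA A j : ℝ)) ^ 2 ≤ w ^ 2 := by
          apply pow_le_pow_left₀ (hsum0 _)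
          have := hwin (q + -T)
          have e3 : q + -T + T = q + 0 := by ring
          rw [e3] at this
          exact this
        linarith
      have h7 : ∑ q ∈ Ico 0 M, 4 * w ^ 2 = M * (4 * w ^ 2) := by
        rw [sum_const, nsmul_eq_mul, card_Ico_real _ _ hM]
        push_cast; ring
      unfold rowSaw at h1
      have h8 : Fun (Ico a b) (fun u v => colMult ctr A 1 M T u v) x
          = Fun (Ico a b) (fun u v => colMult ctr A 1 M T u v) x := rfl
      nlinarith
    · intro u v h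
      rcases Nat.eq_zero_or_pos (colMult ctr A 1 M T u v) with h0 | h0
      · apply rowMult_lt ctr A M
        intro h1
        apply h
        show rowMult ctr A M u v + colMult ctr A 1 M T u v = 0
        omega
      · exact col_lt ctr A 1 M T u v (by omega)
    · intro u v
      exact mult_le_one hch T u v

/-- tent -/
noncomputable def tent (s r : ℤ) : ℤ := max 0 (s * s - |r - s * s|)

/-- profile of the rows, simple case -/
noncomputable def profS (s q : ℤ) : ℤ := tent s (q / s)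

lemma tent_lip (s r r' : ℤ) (h : r ≤ r') : |tent s r' - tent s r| ≤ r' - r := by
  unfold tent
  rw [abs_le]
  rcases abs_cases (r - s * s) with ⟨h1, _⟩ | ⟨h1, _⟩ <;> rw [h1] <;>
    rcases abs_cases (r' - s * s) with ⟨h2, _⟩ | ⟨h2, _⟩ <;> rw [h2] <;> omega

lemma profS_nonneg (s q : ℤ) : 0 ≤ profS s q := le_max_left _ _

lemma profS_le (s q : ℤ) : profS s q ≤ s * s := by
  unfold profS tent
  have := abs_nonneg (q / s - s * s)
  have := mul_self_nonneg s
  omega

lemma profS_supp (s : ℤ) (hs : 1 ≤ s) (q : ℤ) (h : q < 0 ∨ 2 * (s * s) * s ≤ q) : profS s q = 0 := by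
  unfold profS tent
  have hss := mul_self_nonneg s
  rcases h with h | h
  · have h1 : q / s < 0 := Int.ediv_neg_of_neg_of_pos h (by omega)
    rcases abs_cases (q / s - s * s) with ⟨h2, _⟩ | ⟨h2, _⟩ <;> rw [h2] <;> omega
  · have h1 : 2 * (s * s) ≤ q / s := (Int.le_ediv_iff_mul_le (by omega)).mpr h
    rcases abs_cases (q / s - s * s) with ⟨h2, _⟩ | ⟨h2, _⟩ <;> rw [h2] <;> omega

lemma profS_dA (s : ℤ) (hs : 1 ≤ s) (j : ℤ) : dA (profS s) j ≤ (j + 1) / s - j / s := by
  unfold dA profS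
  exact tent_lip s _ _ (Int.ediv_le_ediv (by omega) (by omega))

lemma profS_win (s : ℤ) (hs : 1 ≤ s) (c : ℤ) : ∑ j ∈ Ico c (c + s * s), (dA (profS s) j : ℝ) ≤ s := by
  have h1 : ∑ j ∈ Ico c (c + s * s), dA (profS s) j ≤ s := by
    calc ∑ j ∈ Ico c (c + s * s), dA (profS s) j ≤ ∑ j ∈ Ico c (c + s * s), ((j + 1) / s - j / s) :=
          sum_le_sum (fun j _ => profS_dA s hs j)
      _ = (c + s * s) / s - c / s := by
          have := tele_Ico (fun j => j / s) c (c + s * s) (by nlinarith)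
          simpa using this
      _ = s := by
          rw [Int.add_mul_ediv_right _ _ (by omega)]
          ring
  exact_mod_cast h1

lemma profS_chain (s : ℤ) (hs : 1 ≤ s) :
    Chain (2 * (s * s) * s) (-(s * s)) (4 * (s * s) * s * (s * s) + s * s)
      (fun q => 2 * (s * s) * q) (profS s) where
  nonneg := profS_nonneg s
  supp := profS_supp s hs
  ord := by
    intro q _ q' _ hlt
    have h1 := profS_le s q
    have h2 := profS_le s q'
    have h3 : 0 ≤ s * s := mul_self_nonneg s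
    show 2 * (s * s) * q + profS s q ≤ 2 * (s * s) * q' - profS s q'
    have h4 : q + 1 ≤ q' := hlt
    nlinarith
  box := by
    intro q hq
    have h1 := profS_le s q
    have h3 : 0 ≤ s * s := mul_self_nonneg s
    have h5 := mem_Ico.mp hq
    constructor
    · show -(s * s) ≤ 2 * (s * s) * q - profS s q
      nlinarith [mul_nonneg h3 h5.1]
    · show 2 * (s * s) * q + profS s q ≤ 4 * (s * s) * s * (s * s) + s * s
      have h6 : q ≤ 2 * (s * s) * s := by omega
      nlinarith [mul_le_mul_of_nonneg_left h6 h3]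

lemma profS_sum (s : ℤ) (hs : 1 ≤ s) : ∑ q ∈ Ico 0 (2 * (s * s) * s), (profS s q : ℝ) ≤ 2 * (s : ℝ) ^ 5 := by
  have hs' : (1 : ℝ) ≤ s := by exact_mod_cast hs
  calc ∑ q ∈ Ico 0 (2 * (s * s) * s), (profS s q : ℝ)
      ≤ ∑ q ∈ Ico 0 (2 * (s * s) * s), (s : ℝ) ^ 2 := by
        apply sum_le_sum; intro q _
        have h1 := profS_le s q
        have h2 : (profS s q : ℝ) ≤ s * s := by exact_mod_cast h1
        linarith [sq (s : ℝ)]
    _ = 2 * (s : ℝ) ^ 5 := by
        rw [sum_const, nsmul_eq_mul, card_Ico_real _ _ (by positivity)]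
        push_cast; ring

lemma profS_tot_le (s : ℤ) (hs : 1 ≤ s) :
    ∑ q ∈ Ico 0 (2 * (s * s) * s), (profS s q : ℝ) * (2 * profS s q - 1) ≤ 4 * (s : ℝ) ^ 7 := by
  have hs' : (1 : ℝ) ≤ s := by exact_mod_cast hs
  calc ∑ q ∈ Ico 0 (2 * (s * s) * s), (profS s q : ℝ) * (2 * profS s q - 1)
      ≤ ∑ q ∈ Ico 0 (2 * (s * s) * s), 2 * (s : ℝ) ^ 4 := by
        apply sum_le_sum; intro q _
        have h1 := profS_le s q
        have h0 := profS_nonneg s q
        have h2 : (profS s q : ℝ) ≤ s * s := by exact_mod_cast h1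
        have h3 : (0 : ℝ) ≤ profS s q := by exact_mod_cast h0
        nlinarith [mul_le_mul h2 h2 h3 (by positivity : (0 : ℝ) ≤ (s : ℝ) * s)]
    _ = 4 * (s : ℝ) ^ 7 := by
        rw [sum_const, nsmul_eq_mul, card_Ico_real _ _ (by positivity)]
        push_cast; ring

lemma profS_tot_ge (t : ℤ) (ht : 1 ≤ t) :
    32 * (t : ℝ) ^ 7 ≤ ∑ q ∈ Ico 0 (2 * ((2 * t) * (2 * t)) * (2 * t)),
      (profS (2 * t) q : ℝ) * (2 * profS (2 * t) q - 1) := by
  have ht' : (1 : ℝ) ≤ t := by exact_mod_cast ht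
  have hsub : Ico (4 * (t * t) * t) (12 * (t * t) * t) ⊆ Ico 0 (2 * ((2 * t) * (2 * t)) * (2 * t)) := by
    intro z hz; simp only [mem_Ico] at hz ⊢
    have h0 : 0 ≤ t * t * t := by positivity
    constructor
    · nlinarith
    · nlinarith
  have hnn : ∀ q, 0 ≤ (profS (2 * t) q : ℝ) * (2 * profS (2 * t) q - 1) := by
    intro q
    have h0 := profS_nonneg (2 * t) q
    rcases eq_or_lt_of_le h0 with h | h
    · rw [← h]; simp
    · have h1 : (1 : ℝ) ≤ profS (2 * t) q := by exact_mod_cast h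
      nlinarith
  calc 32 * (t : ℝ) ^ 7 = (8 * (t : ℝ) ^ 3) * (4 * (t : ℝ) ^ 4) := by ring
    _ = ∑ q ∈ Ico (4 * (t * t) * t) (12 * (t * t) * t), 4 * (t : ℝ) ^ 4 := by
        rw [sum_const, nsmul_eq_mul, card_Ico_real _ _ (by nlinarith [show 0 ≤ t * t * t by positivity])]
        push_cast; ring
    _ ≤ ∑ q ∈ Ico (4 * (t * t) * t) (12 * (t * t) * t), (profS (2 * t) q : ℝ) * (2 * profS (2 * t) q - 1) := by
        apply sum_le_sum; intro q hq
        have hq' := mem_Ico.mp hq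
        have h1 : 2 * (t * t) ≤ q / (2 * t) := by
          rw [Int.le_ediv_iff_mul_le (by omega)]; nlinarith
        have h2 : q / (2 * t) < 6 * (t * t) := by
          rw [Int.ediv_lt_iff_lt_mul (by omega)]; nlinarith
        have h3 : 2 * (t * t) ≤ profS (2 * t) q := by
          unfold profS tent
          have e : (2 * t) * (2 * t) = 4 * (t * t) := by ring
          rw [e]
          rcases abs_cases (q / (2 * t) - 4 * (t * t)) with ⟨h2, _⟩ | ⟨h2, _⟩ <;> rw [h2] <;> omega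
        have h3' : 2 * ((t : ℝ) * t) ≤ profS (2 * t) q := by exact_mod_cast h3
        have h4 : (1 : ℝ) ≤ (t : ℝ) * t := by nlinarith
        have h5 : (profS (2 * t) q : ℝ) ≤ 2 * profS (2 * t) q - 1 := by linarith
        have h6 : (2 * ((t : ℝ) * t)) * (2 * ((t : ℝ) * t)) ≤ (profS (2 * t) q : ℝ) * (2 * profS (2 * t) q - 1) :=
          mul_le_mul h3' (by linarith) (by positivity) (by linarith)
        nlinarith
    _ ≤ _ := sum_le_sum_of_subset_of_nonneg hsub (fun q _ _ => hnn q)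

lemma simple_block (t : ℕ) (ht : 1 ≤ t) : ∃ m' : ℕ, 32 * (t : ℝ) ^ 7 ≤ m' ∧
    (m' : ℝ) ≤ 1536 * (t : ℝ) ^ 7 ∧ PS m' (352 * (t : ℝ) ^ 5) := by
  obtain ⟨s, hs⟩ : ∃ s : ℤ, s = 2 * (t : ℤ) := ⟨_, rfl⟩
  have ht' : (1 : ℤ) ≤ t := by exact_mod_cast ht
  have hs1 : 1 ≤ s := by omega
  have hsr : (s : ℝ) = 2 * t := by rw [hs]; push_cast; ring
  have hs1r : (1 : ℝ) ≤ s := by exact_mod_cast hs1
  obtain ⟨m', h1, h2, h3⟩ := PS_of_chain (s * s) (by nlinarith) _ _ _ (by positivity) _ _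
    (profS_chain s hs1) (profS_le s) s (by positivity) (profS_win s hs1)
  have hSA := profS_sum s hs1
  have hup := profS_tot_le s hs1
  have hlow := profS_tot_ge (t : ℤ) ht'
  rw [← hs] at hlow
  push_cast at hlow
  refine ⟨m', by linarith, ?_, ?_⟩
  · have h4 : (4 : ℝ) * ((s * s : ℤ) : ℝ) * ∑ q ∈ Ico 0 (2 * (s * s) * s), (profS s q : ℝ)
        ≤ 4 * ((s * s : ℤ) : ℝ) * (2 * (s : ℝ) ^ 5) :=
      mul_le_mul_of_nonneg_left hSA (by positivity)
    have h5 : (4 : ℝ) * ((s * s : ℤ) : ℝ) * (2 * (s : ℝ) ^ 5) = 8 * (s : ℝ) ^ 7 := by push_cast; ring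
    have h6 : (12 : ℝ) * (s : ℝ) ^ 7 = 1536 * (t : ℝ) ^ 7 := by rw [hsr]; ring
    linarith
  · apply PS_mono h3
    have h6 : (44 : ℝ) * (s : ℝ) ^ 5 = 4 * (352 * (t : ℝ) ^ 5) := by rw [hsr]; ring
    push_cast
    have h7 : (s : ℝ) ^ 4 ≤ (s : ℝ) ^ 5 := pow_le_pow_right₀ hs1r (by norm_num)
    nlinarith

theorem simple_upper : ∃ C : ℝ, ∀ m : ℕ, 1 ≤ m →
    (Dicut.h m : ℝ) ≤ m / 4 + C * (m : ℝ) ^ (5 / 7 : ℝ) := by
  refine ⟨3100000, ?_⟩
  intro n hn
  have hgreedy := greedy PS (fun _ _ _ _ h h' => PS_add h h') (fun _ _ _ h h' => PS_mono h h') PS_trivial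
      (5 / 7) (1 / 6144) 352 3100000 (by norm_num) (by norm_num) (by norm_num) (by norm_num)
      (by norm_num) 1536 n (by norm_num)
      (by
        intro m hm hmn
        -- choose t
        have hex : ∃ t : ℕ, m < 1536 * (t + 1) ^ 7 := by
          refine ⟨m, ?_⟩
          have h1 : m + 1 ≤ (m + 1) ^ 7 := Nat.le_self_pow (by norm_num) _
          omega
        classical
        obtain ⟨t, ht1, ht2, ht3⟩ : ∃ t : ℕ, 1 ≤ t ∧ 1536 * t ^ 7 ≤ m ∧ m < 1536 * (t + 1) ^ 7 := by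
          have hpos : 1 ≤ Nat.find hex := by
            by_contra h
            have h0 : Nat.find hex = 0 := by omega
            have h1 := Nat.find_spec hex
            rw [h0] at h1
            norm_num at h1
            omega
          refine ⟨Nat.find hex, hpos, ?_, Nat.find_spec hex⟩
          have h2 := Nat.find_min hex (m := Nat.find hex - 1) (by omega)
          rw [not_lt] at h2
          have h3 : Nat.find hex - 1 + 1 = Nat.find hex := by omega
          rw [h3] at h2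
          exact h2
        obtain ⟨m', h1, h2, h3⟩ := simple_block t ht1
        have ht1r : (1 : ℝ) ≤ t := by exact_mod_cast ht1
        have ht2' : (1536 : ℝ) * (t : ℝ) ^ 7 ≤ m := by exact_mod_cast ht2
        have ht3' : (m : ℝ) < 1536 * ((t : ℝ) + 1) ^ 7 := by exact_mod_cast ht3
        have ht7 : (1 : ℝ) ≤ (t : ℝ) ^ 7 := one_le_pow₀ ht1r
        refine ⟨m', ?_, ?_, ?_, ?_⟩
        · have h4 : (1 : ℝ) ≤ m' := by linarith
          exact_mod_cast h4
        · have h4 : (m' : ℝ) ≤ m := by linarith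
          exact_mod_cast h4
        · have h5 : ((t : ℝ) + 1) ^ 7 ≤ (2 * (t : ℝ)) ^ 7 :=
            pow_le_pow_left₀ (by positivity) (by linarith) 7
          have h6 : (2 * (t : ℝ)) ^ 7 = 128 * (t : ℝ) ^ 7 := by ring
          linarith
        · apply PS_mono h3
          have h6 : (t : ℝ) ^ 5 = ((t : ℝ) ^ 7) ^ (5 / 7 : ℝ) := by
            rw [← Real.rpow_natCast, ← Real.rpow_natCast, ← Real.rpow_mul (by positivity)]
            norm_num
          have h7 : ((t : ℝ) ^ 7) ^ (5 / 7 : ℝ) ≤ (m : ℝ) ^ (5 / 7 : ℝ) := by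
            apply Real.rpow_le_rpow (by positivity) _ (by norm_num)
            linarith
          rw [h6]
          linarith)
  exact PS_h (hgreedy n le_rfl)

end Pool.Agent.Dicut
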